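import Pool.Agent.N246.SF.Defs

/-!
# Project SF, piece A1 (helper271): normal form of supercriticality
-/

open MeasureTheory Filter Set SchwartzMap FourierTransform
open scoped ENNReal NNReal Topology

namespace SF.A1aux

theorem top_of {x : ℤ → ℝ} (hm : Monotone x) (h : Tendsto (fun n => |x n|) atTop atTop) :
    Tendsto x atTop atTop := by
  rw [tendsto_atTop]
  intro B
  filter_upwards [(tendsto_atTop.1 h) (max B (|x 0| + 1)), eventually_ge_atTop 0] with n h1 h2
  have h3 : x 0 ≤ x n := hm h2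
  have h4 : B ≤ |x n| := (le_max_left _ _).trans h1
  have h5 : |x 0| + 1 ≤ |x n| := (le_max_right _ _).trans h1
  rcases le_or_gt 0 (x n) with h6 | h6
  · rwa [abs_of_nonneg h6] at h4
  · exfalso
    rw [abs_of_neg h6] at h5
    have := neg_abs_le (x 0)
    linarith

theorem bot_of {x : ℤ → ℝ} (hm : Monotone x) (h : Tendsto (fun n => |x n|) atBot atTop) :
    Tendsto x atBot atBot := by
  rw [tendsto_atBot]
  intro B
  filter_upwards [(tendsto_atTop.1 h) (max (-B) (|x 0| + 1)), eventually_le_atBot 0] with n h1 h2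
  have h3 : x n ≤ x 0 := hm h2
  have h4 : -B ≤ |x n| := (le_max_left _ _).trans h1
  have h5 : |x 0| + 1 ≤ |x n| := (le_max_right _ _).trans h1
  rcases le_or_gt (x n) 0 with h6 | h6
  · rw [abs_of_nonpos h6] at h4
    linarith
  · exfalso
    rw [abs_of_pos h6] at h5
    have := le_abs_self (x 0)
    linarith

theorem choose_B {p r ρ : ℝ} (hr : r < ρ) :
    ∃ B : ℝ, 1 ≤ B ∧ r * (1 + 1 / (2 * B)) ^ (p - 1) ≤ ρ := by
  have h1 : Tendsto (fun B : ℝ => 1 + 1 / (2 * B)) atTop (𝓝 (1 + 0)) := by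
    apply Tendsto.const_add
    have h2 : Tendsto (fun B : ℝ => 2 * B) atTop atTop :=
      Tendsto.const_mul_atTop (by norm_num) tendsto_id
    simp only [one_div]
    exact tendsto_inv_atTop_zero.comp h2
  rw [add_zero] at h1
  have h3 : Tendsto (fun B : ℝ => r * (1 + 1 / (2 * B)) ^ (p - 1)) atTop (𝓝 (r * 1 ^ (p - 1))) :=
    (h1.rpow_const (Or.inl one_ne_zero)).const_mul r
  rw [Real.one_rpow, mul_one] at h3
  obtain ⟨B, hB1, hB2⟩ := ((eventually_ge_atTop (1 : ℝ)).and (h3.eventually (gt_mem_nhds hr))).exists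
  exact ⟨B, hB1, le_of_lt hB2⟩

end SF.A1aux

namespace SF

/-- A1 -/
theorem A1_goodNodes {p : ℝ} (hp : 1 < p) {x : ℤ → ℝ} (hx : Supercritical p x) :
    ∃ ρ R : ℝ, 0 < ρ ∧ ρ < 1 / 2 ∧ 1 ≤ R ∧ GoodNodes p ρ R x := by
  obtain ⟨hm, ht, hl⟩ := hx
  rw [Int.cofinite_eq] at ht hl
  have htop := A1aux.top_of hm (ht.mono_left le_sup_right)
  have hbot := A1aux.bot_of hm (ht.mono_left le_sup_left)
  obtain ⟨r', hr1, hr2⟩ := EReal.lt_iff_exists_real_btwn.1 hl
  have hr2' : r' < 1 / 2 := by exact_mod_cast hr2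
  have hev := eventually_lt_of_limsup_lt hr1
  obtain ⟨r, hr⟩ : ∃ r, r = max r' (1 / 4) := ⟨_, rfl⟩
  have hr0 : 0 < r := by
    rw [hr]
    exact lt_of_lt_of_le (by norm_num) (le_max_right _ _)
  have hrh : r < 1 / 2 := by
    rw [hr]
    exact max_lt hr2' (by norm_num)
  have hrr : r' ≤ r := by rw [hr]; exact le_max_left _ _
  have hev' : ∀ᶠ n in (atBot ⊔ atTop : Filter ℤ), |x n| ^ (p - 1) * |x (n + 1) - x n| < r := by
    filter_upwards [hev] with n hn
    have : |x n| ^ (p - 1) * |x (n + 1) - x n| < r' := by exact_mod_cast hn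
    exact lt_of_lt_of_le this hrr
  rw [eventually_sup] at hev'
  obtain ⟨N₁, hN₁⟩ := eventually_atBot.1 hev'.1
  obtain ⟨ρ, hρ⟩ : ∃ ρ, ρ = (r + 1 / 2) / 2 := ⟨_, rfl⟩
  have hrρ : r < ρ := by rw [hρ]; linarith
  obtain ⟨B, hB1, hB⟩ := A1aux.choose_B (p := p) hrρ
  obtain ⟨N₂, hN₂⟩ := eventually_atTop.1 (hev'.2.and (htop.eventually_ge_atTop B))
  refine ⟨ρ, max (max 1 (x (N₂ + 1) + 1)) (-x N₁ + 1), by linarith, by rw [hρ]; linarith,
    (le_max_left _ _).trans (le_max_left _ _), hm, htop, hbot, ?_, ?_⟩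
  · intro n hn
    have h1 : x (N₂ + 1) + 1 ≤ x (n + 1) :=
      ((le_max_right _ _).trans (le_max_left _ _)).trans hn
    have h2 : N₂ ≤ n := by
      by_contra hc
      have := hm (show n + 1 ≤ N₂ + 1 by omega)
      linarith
    obtain ⟨h3, h4⟩ := hN₂ n h2
    have hxn : 1 ≤ x n := hB1.trans h4
    have hx0 : 0 < x n := by linarith
    have hδ : 0 ≤ x (n + 1) - x n := sub_nonneg.2 (hm (by omega))
    rw [abs_of_pos hx0, abs_of_nonneg hδ] at h3
    have h5 : 1 ≤ x n ^ (p - 1) := Real.one_le_rpow hxn (by linarith)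
    have h6 : x (n + 1) - x n ≤ 1 / 2 := by nlinarith
    have h7 : x (n + 1) ≤ x n * (1 + 1 / (2 * B)) := by
      have h8 : 1 / 2 ≤ x n * (1 / (2 * B)) := by
        have hB0 : 0 < B := by linarith
        rw [mul_one_div, div_le_div_iff₀ (by norm_num) (by positivity)]
        linarith
      linarith
    have h8 : x (n + 1) ^ (p - 1) ≤ x n ^ (p - 1) * (1 + 1 / (2 * B)) ^ (p - 1) := by
      rw [← Real.mul_rpow hx0.le (by positivity)]
      exact Real.rpow_le_rpow (by linarith) h7 (by linarith)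
    calc (x (n + 1) - x n) * x (n + 1) ^ (p - 1)
        ≤ (x (n + 1) - x n) * (x n ^ (p - 1) * (1 + 1 / (2 * B)) ^ (p - 1)) :=
          mul_le_mul_of_nonneg_left h8 hδ
      _ = (x n ^ (p - 1) * (x (n + 1) - x n)) * (1 + 1 / (2 * B)) ^ (p - 1) := by ring
      _ ≤ r * (1 + 1 / (2 * B)) ^ (p - 1) :=
          mul_le_mul_of_nonneg_right h3.le (Real.rpow_nonneg (by positivity) _)
      _ ≤ ρ := hB
  · intro n hn
    have h1 : -x N₁ + 1 ≤ -x n := (le_max_right _ _).trans (by linarith)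
    have h2 : n ≤ N₁ := by
      by_contra hc
      have := hm (show N₁ ≤ n by omega)
      linarith
    have h3 := hN₁ n h2
    have hδ : 0 ≤ x (n + 1) - x n := sub_nonneg.2 (hm (by omega))
    rw [abs_of_nonneg hδ] at h3
    rw [mul_comm]
    linarith

end SF
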