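import Pool.Agent.N246.SF.Defs

/-!
# Project SF: linear growth of the nodes, monotonicity in the parameters
-/

open MeasureTheory Filter Set SchwartzMap FourierTransform
open scoped ENNReal NNReal Topology

namespace SF

namespace A2aux

/-- The gaps are bounded. -/
theorem gap_le {p ρ R : ℝ} (hp : 1 < p) (hρ : ρ < 1 / 2) (hR : 1 ≤ R) {x : ℤ → ℝ}
    (hx : GoodNodes p ρ R x) (n : ℤ) : x (n + 1) - x n ≤ 2 * R := by
  obtain ⟨hm, -, -, h1, h2⟩ := hx
  have hd : 0 ≤ x (n + 1) - x n := sub_nonneg.2 (hm (by omega))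
  rcases le_or_gt R (x (n + 1)) with h | h
  · have h3 : 1 ≤ x (n + 1) ^ (p - 1) := Real.one_le_rpow (hR.trans h) (by linarith)
    have h4 := h1 n h
    nlinarith [mul_le_mul_of_nonneg_left h3 hd]
  · rcases le_or_gt (x n) (-R) with h' | h'
    · have h5 : 1 ≤ |x n| := by
        rw [abs_of_neg (by linarith)]
        linarith
      have h3 : 1 ≤ |x n| ^ (p - 1) := Real.one_le_rpow h5 (by linarith)
      have h4 := h2 n h'
      nlinarith [mul_le_mul_of_nonneg_left h3 hd]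
    · linarith

theorem nat_le {x : ℤ → ℝ} {D : ℝ} (h : ∀ n, x (n + 1) - x n ≤ D) (m : ℤ) (n : ℕ) :
    x (m + n) ≤ x m + D * n := by
  induction n with
  | zero => simp
  | succ n ih =>
    have h1 := h (m + n)
    have e : m + (n : ℤ) + 1 = m + ((n + 1 : ℕ) : ℤ) := by push_cast; ring
    rw [e] at h1
    push_cast at *
    linarith

end A2aux

/-- A2 -/
theorem A2_linear_growth {p ρ R : ℝ} (hp : 1 < p) (hρ : ρ < 1 / 2) (hR : 1 ≤ R) {x : ℤ → ℝ}
    (hx : GoodNodes p ρ R x) : ∃ C : ℝ, 0 < C ∧ ∀ n : ℤ, |x n| ≤ C * (1 + |(n : ℝ)|) := by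
  have hg := A2aux.gap_le hp hρ hR hx
  have hm := hx.1
  refine ⟨|x 0| + 2 * R, by positivity, fun n => ?_⟩
  have key : |x n| ≤ |x 0| + 2 * R * |(n : ℝ)| := by
    obtain ⟨k, rfl | rfl⟩ := n.eq_nat_or_neg
    · have h1 := A2aux.nat_le hg 0 k
      rw [zero_add] at h1
      have h2 : x 0 ≤ x k := hm (by omega)
      have h3 : |((k : ℤ) : ℝ)| = k := by simp
      rw [h3, abs_le]
      have h4 := neg_abs_le (x 0)
      have h5 := le_abs_self (x 0)
      have h6 : 0 ≤ 2 * R * (k : ℝ) := by positivity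
      constructor <;> linarith
    · have h1 := A2aux.nat_le hg (-(k : ℤ)) k
      rw [neg_add_cancel] at h1
      have h2 : x (-(k : ℤ)) ≤ x 0 := hm (by omega)
      have h3 : |((-(k : ℤ) : ℤ) : ℝ)| = k := by simp
      rw [h3, abs_le]
      have h4 := neg_abs_le (x 0)
      have h5 := le_abs_self (x 0)
      have h6 : 0 ≤ 2 * R * (k : ℝ) := by positivity
      constructor <;> linarith
  have h0 : 0 ≤ |(n : ℝ)| := abs_nonneg _
  have h1 : 0 ≤ |x 0| := abs_nonneg _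
  nlinarith [mul_nonneg h1 h0]

/-- A3 -/
theorem A3_mono {p ρ ρ' R R' : ℝ} {x : ℤ → ℝ} (hx : GoodNodes p ρ R x)
    (h1 : ρ ≤ ρ') (h2 : R ≤ R') : GoodNodes p ρ' R' x := by
  obtain ⟨a, b, c, d, e⟩ := hx
  exact ⟨a, b, c, fun n hn => (d n (h2.trans hn)).trans h1,
    fun n hn => (e n (hn.trans (neg_le_neg h2))).trans h1⟩

end SF
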