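import Pool.Agent.N246.SF.Defs
import Pool.Agent.H821R3.Wirt

/-!
# Project SF, B1: sharp Wirtinger inequality with endpoint terms
-/

open MeasureTheory Filter Set SchwartzMap FourierTransform
open scoped ENNReal NNReal Topology

namespace SF

namespace B1aux

theorem iadd {f g : ℝ → ℝ} (hf : Continuous f) (hg : Continuous g) (a b : ℝ) :
    ∫ t in a..b, (f t + g t) = (∫ t in a..b, f t) + ∫ t in a..b, g t :=
  intervalIntegral.integral_add (hf.intervalIntegrable _ _) (hg.intervalIntegrable _ _)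

theorem isub {f g : ℝ → ℝ} (hf : Continuous f) (hg : Continuous g) (a b : ℝ) :
    ∫ t in a..b, (f t - g t) = (∫ t in a..b, f t) - ∫ t in a..b, g t :=
  intervalIntegral.integral_sub (hf.intervalIntegrable _ _) (hg.intervalIntegrable _ _)

/-- Dirichlet form of the Wirtinger inequality -/
theorem dir {g g' : ℝ → ℝ} {a b : ℝ} (hab : a < b) (hg : ∀ x, HasDerivAt g (g' x) x)
    (hg' : Continuous g') (ha : g a = 0) (hb : g b = 0) :
    ∫ t in a..b, g t ^ 2 ≤ ((b - a) / Real.pi) ^ 2 * ∫ t in a..b, g' t ^ 2 := by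
  have hpi := Real.pi_pos
  obtain ⟨c, hc⟩ : ∃ c : ℝ, c = (b - a) / Real.pi := ⟨_, rfl⟩
  have hc0 : 0 < c := by rw [hc]; exact div_pos (sub_pos.2 hab) hpi
  have hcb : c * (0 + Real.pi) + a = b := by
    rw [hc, zero_add, div_mul_cancel₀ _ hpi.ne']
    ring
  have h1 := Pool.Agent.H821R3.wirt_seg (fun θ => g (c * θ + a)) (fun θ => g' (c * θ + a) * c)
    (fun θ => by
      have e1 : HasDerivAt (fun θ : ℝ => c * θ + a) (c * 1) θ :=
        ((hasDerivAt_id θ).const_mul c).add_const a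
      rw [mul_one] at e1
      exact (hg (c * θ + a)).comp θ e1) (by fun_prop) 0
    (by simpa using ha) (by
      show g (c * (0 + Real.pi) + a) = 0
      rw [hcb, hb])
  have h2 : ∀ F : ℝ → ℝ, ∫ θ in (0 : ℝ)..(0 + Real.pi), F (c * θ + a) =
      c⁻¹ * ∫ t in a..b, F t := by
    intro F
    rw [intervalIntegral.integral_comp_mul_add F hc0.ne' a, hcb, mul_zero, zero_add, smul_eq_mul]
  have h3 := h2 (fun t => g t ^ 2)
  have h4 := h2 (fun t => (g' t * c) ^ 2)
  rw [h3, h4] at h1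
  have h5 : ∫ t in a..b, (g' t * c) ^ 2 = c ^ 2 * ∫ t in a..b, g' t ^ 2 := by
    rw [← intervalIntegral.integral_const_mul]
    refine intervalIntegral.integral_congr fun t _ => ?_
    show (g' t * c) ^ 2 = c ^ 2 * g' t ^ 2
    ring
  rw [h5] at h1
  rw [← hc]
  exact le_of_mul_le_mul_left h1 (inv_pos.2 hc0)

/-- the real case -/
theorem real {η : ℝ} (hη : 0 < η) {u u' : ℝ → ℝ} {a b : ℝ} (hab : a < b)
    (hu : ∀ x, HasDerivAt u (u' x) x) (hu' : Continuous u') :
    ∫ t in a..b, u t ^ 2 ≤ (1 + η) * ((b - a) / Real.pi) ^ 2 * (∫ t in a..b, u' t ^ 2)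
      + (1 + 1 / η) * (b - a) * (u a ^ 2 + u b ^ 2) := by
  have huc : Continuous u := continuous_iff_continuousAt.2 fun x => (hu x).continuousAt
  have hD : 0 < b - a := sub_pos.2 hab
  obtain ⟨s, hs⟩ : ∃ s : ℝ, s = (u b - u a) / (b - a) := ⟨_, rfl⟩
  have hsD : s * (b - a) = u b - u a := by rw [hs]; exact div_mul_cancel₀ _ hD.ne'
  have hg : ∀ x, HasDerivAt (fun t => u t - (u a + (t - a) * s)) (u' x - s) x := by
    intro x
    have e1 : HasDerivAt (fun t : ℝ => u a + (t - a) * s) (1 * s) x :=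
      (((hasDerivAt_id x).sub_const a).mul_const s).const_add (u a)
    rw [one_mul] at e1
    exact (hu x).sub e1
  have h1 := dir hab hg (hu'.sub continuous_const) (by ring) (by
    have : u b = u a + (b - a) * s := by linarith
    show u b - (u a + (b - a) * s) = 0
    linarith)
  have h2 : ∫ t in a..b, (u' t - s) ^ 2 = (∫ t in a..b, u' t ^ 2) - s ^ 2 * (b - a) := by
    have e1 : ∀ t, (u' t - s) ^ 2 = (u' t ^ 2 - (2 * s) * u' t) + s ^ 2 := fun t => by ring
    have e2 : ∫ t in a..b, u' t = u b - u a :=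
      intervalIntegral.integral_eq_sub_of_hasDerivAt (fun x _ => hu x)
        (hu'.intervalIntegrable _ _)
    rw [intervalIntegral.integral_congr (fun t _ => e1 t), iadd (by fun_prop) (by fun_prop),
      isub (by fun_prop) (by fun_prop),
      intervalIntegral.integral_const_mul, e2, intervalIntegral.integral_const, smul_eq_mul, ← hsD]
    ring
  have h3 : ∫ t in a..b, u t ^ 2 ≤ ∫ t in a..b, ((1 + η) * (u t - (u a + (t - a) * s)) ^ 2 +
      (1 + 1 / η) * (u a ^ 2 + u b ^ 2)) := by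
    refine intervalIntegral.integral_mono_on hab.le ((huc.pow 2).intervalIntegrable _ _)
      ((by fun_prop : Continuous fun t => ((1 + η) * (u t - (u a + (t - a) * s)) ^ 2 +
      (1 + 1 / η) * (u a ^ 2 + u b ^ 2))).intervalIntegrable _ _) fun t ht => ?_
    obtain ⟨g, hgd⟩ : ∃ g : ℝ, g = u t - (u a + (t - a) * s) := ⟨_, rfl⟩
    obtain ⟨l, hl⟩ : ∃ l : ℝ, l = u a + (t - a) * s := ⟨_, rfl⟩
    have e1 : u t = g + l := by rw [hgd, hl]; ring
    have e2 : u t ^ 2 ≤ (1 + η) * g ^ 2 + (1 + 1 / η) * l ^ 2 := by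
      have e3 : (1 + η) * g ^ 2 + (1 + 1 / η) * l ^ 2 - u t ^ 2 = (η * g - l) ^ 2 / η := by
        rw [e1]
        field_simp
        ring
      have e4 : 0 ≤ (η * g - l) ^ 2 / η := by positivity
      linarith
    have e5 : l ^ 2 ≤ u a ^ 2 + u b ^ 2 := by
      obtain ⟨w, hw⟩ : ∃ w : ℝ, w = (t - a) / (b - a) := ⟨_, rfl⟩
      have hw0 : 0 ≤ w := by rw [hw]; exact div_nonneg (sub_nonneg.2 ht.1) hD.le
      have hw1 : w ≤ 1 := by rw [hw]; exact (div_le_one hD).2 (by linarith [ht.2])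
      have e6 : l = (1 - w) * u a + w * u b := by
        rw [hl, hs, hw]
        field_simp
        ring
      have e7 : (1 - w) * u a ^ 2 + w * u b ^ 2 - l ^ 2 = w * (1 - w) * (u a - u b) ^ 2 := by
        rw [e6]; ring
      have e8 : 0 ≤ w * (1 - w) * (u a - u b) ^ 2 :=
        mul_nonneg (mul_nonneg hw0 (sub_nonneg.2 hw1)) (sq_nonneg _)
      nlinarith [mul_nonneg hw0 (sq_nonneg (u a)),
        mul_nonneg (sub_nonneg.2 hw1) (sq_nonneg (u b))]
    rw [← hgd]
    have e9 : (1 + 1 / η) * l ^ 2 ≤ (1 + 1 / η) * (u a ^ 2 + u b ^ 2) :=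
      mul_le_mul_of_nonneg_left e5 (by positivity)
    linarith
  have h4 : ∫ t in a..b, ((1 + η) * (u t - (u a + (t - a) * s)) ^ 2 +
      (1 + 1 / η) * (u a ^ 2 + u b ^ 2)) = (1 + η) * (∫ t in a..b, (u t - (u a + (t - a) * s)) ^ 2) +
      (1 + 1 / η) * (b - a) * (u a ^ 2 + u b ^ 2) := by
    rw [intervalIntegral.integral_add ((by fun_prop : Continuous fun t =>
      ((1 + η) * (u t - (u a + (t - a) * s)) ^ 2)).intervalIntegrable _ _)
      (continuous_const.intervalIntegrable _ _), intervalIntegral.integral_const_mul,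
      intervalIntegral.integral_const, smul_eq_mul]
    ring
  have h5 : ∫ t in a..b, (u t - (u a + (t - a) * s)) ^ 2 ≤
      ((b - a) / Real.pi) ^ 2 * (∫ t in a..b, u' t ^ 2) := by
    refine h1.trans (mul_le_mul_of_nonneg_left ?_ (sq_nonneg _))
    have e1 : 0 ≤ s ^ 2 * (b - a) := by positivity
    have e2 : ∫ t in a..b, (u' t - s) ^ 2 ≤ ∫ t in a..b, u' t ^ 2 := by rw [h2]; linarith
    exact e2
  have h6 : (1 + η) * (∫ t in a..b, (u t - (u a + (t - a) * s)) ^ 2) ≤
      (1 + η) * (((b - a) / Real.pi) ^ 2 * (∫ t in a..b, u' t ^ 2)) :=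
    mul_le_mul_of_nonneg_left h5 (by positivity)
  rw [h4] at h3
  have h7 : (1 + η) * ((b - a) / Real.pi) ^ 2 * (∫ t in a..b, u' t ^ 2) =
      (1 + η) * (((b - a) / Real.pi) ^ 2 * (∫ t in a..b, u' t ^ 2)) := by ring
  rw [h7]
  linarith

theorem nsq (z : ℂ) : ‖z‖ ^ 2 = z.re ^ 2 + z.im ^ 2 := by
  rw [← Complex.normSq_eq_norm_sq, Complex.normSq_apply]
  ring

end B1aux

open B1aux

/-- B1: sharp Wirtinger inequality with endpoint terms. -/
theorem B1_wirtinger {η : ℝ} (hη : 0 < η) : ∃ C : ℝ, 0 ≤ C ∧ ∀ (f : ℝ → ℂ) (a b : ℝ),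
    ContDiff ℝ 1 f → a ≤ b →
    ∫ t in a..b, ‖f t‖ ^ 2 ≤ (1 + η) * ((b - a) / Real.pi) ^ 2 * (∫ t in a..b, ‖deriv f t‖ ^ 2)
      + C * (b - a) * (‖f a‖ ^ 2 + ‖f b‖ ^ 2) := by
  refine ⟨1 + 1 / η, by positivity, fun f a b hf hab => ?_⟩
  rcases hab.eq_or_lt with rfl | hab
  · simp
  have hd : ∀ x, HasDerivAt f (deriv f x) x := fun x =>
    (hf.differentiable (by norm_num) x).hasDerivAt
  have hd' : Continuous (deriv f) := hf.continuous_deriv (by norm_num)
  have hfc : Continuous f := hf.continuous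
  have hre : ∀ x, HasDerivAt (fun t => (f t).re) ((deriv f x).re) x := fun x =>
    (Complex.reCLM.hasFDerivAt.comp_hasDerivAt x (hd x))
  have him : ∀ x, HasDerivAt (fun t => (f t).im) ((deriv f x).im) x := fun x =>
    (Complex.imCLM.hasFDerivAt.comp_hasDerivAt x (hd x))
  have cre : Continuous fun t => (f t).re := Complex.continuous_re.comp hfc
  have cim : Continuous fun t => (f t).im := Complex.continuous_im.comp hfc
  have cre' : Continuous fun t => (deriv f t).re := Complex.continuous_re.comp hd'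
  have cim' : Continuous fun t => (deriv f t).im := Complex.continuous_im.comp hd'
  have h1 := real hη hab hre cre'
  have h2 := real hη hab him cim'
  have h3 : ∫ t in a..b, ‖f t‖ ^ 2 = (∫ t in a..b, (f t).re ^ 2) + ∫ t in a..b, (f t).im ^ 2 := by
    have e := iadd (f := fun t => (f t).re ^ 2) (g := fun t => (f t).im ^ 2) (by fun_prop)
      (by fun_prop) a b
    exact (intervalIntegral.integral_congr fun t _ => nsq _).trans e
  have h4 : ∫ t in a..b, ‖deriv f t‖ ^ 2 =
      (∫ t in a..b, (deriv f t).re ^ 2) + ∫ t in a..b, (deriv f t).im ^ 2 := by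
    have e := iadd (f := fun t => (deriv f t).re ^ 2) (g := fun t => (deriv f t).im ^ 2)
      (by fun_prop) (by fun_prop) a b
    exact (intervalIntegral.integral_congr fun t _ => nsq _).trans e
  rw [h3, h4, nsq, nsq]
  refine (add_le_add h1 h2).trans (le_of_eq ?_)
  ring

end SF
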