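import Pool.Agent.N246.SF.Defs
import Pool.Agent.N246.SF.B1

/-!
# Project SF, B2: sum of the Wirtinger inequality over the gaps to the right of `s`
-/

open MeasureTheory Filter Set SchwartzMap FourierTransform
open scoped ENNReal NNReal Topology

namespace SF

namespace B2aux

theorem enorm_sq {E : Type*} [NormedAddCommGroup E] (z : E) :
    ‖z‖ₑ ^ 2 = ENNReal.ofReal (‖z‖ ^ 2) := by
  rw [ENNReal.ofReal_pow (norm_nonneg z), ofReal_norm]

theorem lint_Ico {g : ℝ → ℂ} (hg : Continuous g) {a b : ℝ} (hab : a ≤ b) :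
    ∫⁻ t in Ico a b, ‖g t‖ₑ ^ 2 = ENNReal.ofReal (∫ t in a..b, ‖g t‖ ^ 2) := by
  rw [setLIntegral_congr Ico_ae_eq_Ioc, intervalIntegral.integral_of_le hab,
    ofReal_integral_eq_lintegral_ofReal]
  · simp_rw [enorm_sq]
  · exact ((hg.norm.pow 2).integrableOn_Icc (a := a) (b := b)).mono_set Ioc_subset_Icc_self
  · exact Eventually.of_forall fun t => by positivity

/-- every point lies in a gap -/
theorem exists_gap {x : ℤ → ℝ} (h1 : Tendsto x atTop atTop) (h2 : Tendsto x atBot atBot)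
    (t : ℝ) : ∃ n : ℤ, x n ≤ t ∧ t < x (n + 1) := by
  obtain ⟨b, hb⟩ := (h1.eventually_gt_atTop t).exists_forall_of_atTop
  obtain ⟨c, hc⟩ := (h2.eventually_le_atBot t).exists
  obtain ⟨n, hn, hn2⟩ := Int.exists_greatest_of_bdd (P := fun n : ℤ => x n ≤ t)
    ⟨b, fun z hz => by
      by_contra h
      exact absurd hz (not_le.2 (hb z (not_le.1 h).le))⟩ ⟨c, hc⟩
  refine ⟨n, hn, ?_⟩
  by_contra h
  have := hn2 (n + 1) (not_lt.1 h)
  omega

theorem disj {x : ℤ → ℝ} (hx : Monotone x) {i j : ℤ} (h : i ≠ j) {t : ℝ}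
    (hi : t ∈ Ico (x i) (x (i + 1))) (hj : t ∈ Ico (x j) (x (j + 1))) : False := by
  rcases lt_or_gt_of_ne h with h | h
  · have := hx (show i + 1 ≤ j by omega)
    linarith [hi.2, hj.1]
  · have := hx (show j + 1 ≤ i by omega)
    linarith [hj.2, hi.1]

end B2aux

open B2aux in
/-- B2: sum over the gaps to the right of `s`. -/
theorem B2_right {p ρ R η : ℝ} (hp : 1 < p) (hρ0 : 0 < ρ) (hρ : ρ < 1 / 2) (hR : 1 ≤ R)
    (hη : 0 < η) : ∃ C : ℝ≥0, ∀ (x : ℤ → ℝ), GoodNodes p ρ R x → ∀ s : ℝ, R ≤ s →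
    ∀ f : ℝ → ℂ, ContDiff ℝ 1 f →
    ∫⁻ t in Ici s, ‖f t‖ₑ ^ 2 ≤
      ENNReal.ofReal ((1 + η) * (ρ / (Real.pi * s ^ (p - 1))) ^ 2) *
        (∫⁻ t in Ici (s - ρ / s ^ (p - 1)), ‖deriv f t‖ₑ ^ 2)
      + C * ∑' n : ℤ, (if s - ρ / s ^ (p - 1) ≤ x n then ‖f (x n)‖ₑ ^ 2 else 0) := by
  classical
  obtain ⟨CB, hCB0, hCB⟩ := SF.B1_wirtinger hη
  refine ⟨2 * CB.toNNReal, ?_⟩
  intro x hx s hs f hf
  obtain ⟨hmono, htop, hbot, hgap, -⟩ := hx
  have hs1 : 1 ≤ s := hR.trans hs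
  have hs0 : 0 < s := by linarith
  set L : ℝ := s ^ (p - 1) with hL
  have hL1 : 1 ≤ L := Real.one_le_rpow hs1 (by linarith)
  have hL0 : 0 < L := by linarith
  set d : ℝ := ρ / L with hd
  have hd0 : 0 < d := by positivity
  have hd1 : d ≤ 1 := by
    rw [hd, div_le_one hL0]; linarith
  have hK : ρ / (Real.pi * L) = d / Real.pi := by
    rw [hd, div_div, mul_comm]
  rw [hK]
  set K : ℝ≥0∞ := ENNReal.ofReal ((1 + η) * (d / Real.pi) ^ 2) with hKdef
  have hfc : Continuous f := hf.continuous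
  have hfc' : Continuous (deriv f) := hf.continuous_deriv le_rfl
  -- the gaps
  have hg1 : ∀ n : ℤ, s < x (n + 1) → x (n + 1) - x n ≤ d := by
    intro n hn
    have h1 := hgap n (by linarith)
    have h2 : L ≤ x (n + 1) ^ (p - 1) := Real.rpow_le_rpow hs0.le hn.le (by linarith)
    have h3 : 0 ≤ x (n + 1) - x n := sub_nonneg.2 (hmono (by omega))
    rw [hd, le_div_iff₀ hL0]
    exact (mul_le_mul_of_nonneg_left h2 h3).trans h1
  set J : ℤ → Set ℝ := fun n => if s < x (n + 1) then Ico (x n) (x (n + 1)) else ∅ with hJ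
  have hJsub : ∀ n, J n ⊆ Ico (x n) (x (n + 1)) := by
    intro n
    rw [hJ]
    simp only
    split_ifs
    · exact le_rfl
    · exact empty_subset _
  have hJm : ∀ n, MeasurableSet (J n) := by
    intro n
    rw [hJ]
    simp only
    split_ifs
    · exact measurableSet_Ico
    · exact MeasurableSet.empty
  have hJd : Pairwise (Function.onFun Disjoint J) := by
    intro i j hij
    rw [Function.onFun, Set.disjoint_left]
    intro t hi hj
    exact disj hmono hij (hJsub i hi) (hJsub j hj)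
  have hJc : Ici s ⊆ ⋃ n, J n := by
    intro t ht
    obtain ⟨n, hn1, hn2⟩ := exists_gap htop hbot t
    rw [mem_iUnion]
    refine ⟨n, ?_⟩
    rw [hJ]
    simp only
    rw [if_pos (lt_of_le_of_lt ht hn2)]
    exact ⟨hn1, hn2⟩
  have hJI : (⋃ n, J n) ⊆ Ici (s - d) := by
    intro t ht
    rw [mem_iUnion] at ht
    obtain ⟨n, hn⟩ := ht
    by_cases h : s < x (n + 1)
    · have h1 := (hJsub n hn).1
      have h2 := hg1 n h
      rw [mem_Ici]; linarith
    · rw [hJ] at hn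
      simp only [if_neg h] at hn
      exact absurd hn (Set.notMem_empty t)
  set T : ℤ → ℝ≥0∞ := fun n => if s - d ≤ x n then ‖f (x n)‖ₑ ^ 2 else 0 with hT
  -- one gap
  have hone : ∀ n, ∫⁻ t in J n, ‖f t‖ₑ ^ 2 ≤ K * (∫⁻ t in J n, ‖deriv f t‖ₑ ^ 2) +
      (CB.toNNReal : ℝ≥0∞) * (T n + T (n + 1)) := by
    intro n
    by_cases h : s < x (n + 1)
    · have hJn : J n = Ico (x n) (x (n + 1)) := by
        rw [hJ]; simp only; rw [if_pos h]
      have hle : x n ≤ x (n + 1) := hmono (by omega)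
      have h1 := hg1 n h
      have hT1 : T n = ENNReal.ofReal (‖f (x n)‖ ^ 2) := by
        rw [hT]; simp only; rw [if_pos (by linarith), enorm_sq]
      have hT2 : T (n + 1) = ENNReal.ofReal (‖f (x (n + 1))‖ ^ 2) := by
        rw [hT]; simp only; rw [if_pos (by linarith), enorm_sq]
      have hI0 : 0 ≤ ∫ t in (x n)..(x (n + 1)), ‖deriv f t‖ ^ 2 :=
        intervalIntegral.integral_nonneg hle fun t _ => by positivity
      rw [hJn, lint_Ico hfc hle, lint_Ico hfc' hle, hT1, hT2, hKdef,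
        ← ENNReal.ofReal_mul (by positivity), ← ENNReal.ofReal_add (by positivity) (by positivity)]
      change _ ≤ _ + ENNReal.ofReal CB * _
      rw [← ENNReal.ofReal_mul hCB0, ← ENNReal.ofReal_add (by positivity) (by positivity)]
      refine ENNReal.ofReal_le_ofReal ?_
      have h2 := hCB f (x n) (x (n + 1)) hf hle
      have h3 : 0 ≤ x (n + 1) - x n := sub_nonneg.2 hle
      have h4 : ((x (n + 1) - x n) / Real.pi) ^ 2 ≤ (d / Real.pi) ^ 2 := by
        have := Real.pi_pos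
        gcongr
      have h5 : (1 + η) * ((x (n + 1) - x n) / Real.pi) ^ 2 *
          (∫ t in (x n)..(x (n + 1)), ‖deriv f t‖ ^ 2) ≤
          (1 + η) * (d / Real.pi) ^ 2 * (∫ t in (x n)..(x (n + 1)), ‖deriv f t‖ ^ 2) := by
        gcongr
      have h6 : CB * (x (n + 1) - x n) * (‖f (x n)‖ ^ 2 + ‖f (x (n + 1))‖ ^ 2) ≤
          CB * (‖f (x n)‖ ^ 2 + ‖f (x (n + 1))‖ ^ 2) := by
        refine mul_le_mul_of_nonneg_right ?_ (by positivity)
        exact mul_le_of_le_one_right hCB0 (h1.trans hd1)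
      linarith
    · have hJn : J n = ∅ := by
        rw [hJ]; simp only; rw [if_neg h]
      rw [hJn]
      simp
  have hshift : ∑' n : ℤ, T (n + 1) = ∑' n : ℤ, T n :=
    (Equiv.addRight (1 : ℤ)).tsum_eq T
  calc ∫⁻ t in Ici s, ‖f t‖ₑ ^ 2 ≤ ∫⁻ t in ⋃ n, J n, ‖f t‖ₑ ^ 2 :=
        lintegral_mono_set hJc
    _ = ∑' n, ∫⁻ t in J n, ‖f t‖ₑ ^ 2 := lintegral_iUnion hJm hJd _
    _ ≤ ∑' n, (K * (∫⁻ t in J n, ‖deriv f t‖ₑ ^ 2) +
          (CB.toNNReal : ℝ≥0∞) * (T n + T (n + 1))) := ENNReal.tsum_le_tsum hone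
    _ = K * (∫⁻ t in ⋃ n, J n, ‖deriv f t‖ₑ ^ 2) +
          (CB.toNNReal : ℝ≥0∞) * (∑' n, T n + ∑' n, T n) := by
        rw [ENNReal.tsum_add, ENNReal.tsum_mul_left, ENNReal.tsum_mul_left,
          ← lintegral_iUnion hJm hJd, ENNReal.tsum_add, hshift]
    _ ≤ K * (∫⁻ t in Ici (s - d), ‖deriv f t‖ₑ ^ 2) +
          (CB.toNNReal : ℝ≥0∞) * (∑' n, T n + ∑' n, T n) :=
        add_le_add_left (mul_le_mul' le_rfl (lintegral_mono_set hJI)) _
    _ = K * (∫⁻ t in Ici (s - d), ‖deriv f t‖ₑ ^ 2) +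
          ((2 * CB.toNNReal : ℝ≥0) : ℝ≥0∞) * ∑' n, T n := by
        congr 1
        push_cast
        ring

end SF
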