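import Pool.Agent.N246.SF.Defs
import Pool.Agent.N246.SF.B2

/-!
# Project SF, piece B3: the sum over all the gaps outside `[-s, s]` (helper717)

Quotes `SF.B2_right`.
-/

set_option autoImplicit false

open MeasureTheory Filter Set SchwartzMap FourierTransform
open scoped ENNReal NNReal Topology

namespace SF

namespace B3aux

theorem good_refl {p ρ R : ℝ} (hR : 1 ≤ R) {x : ℤ → ℝ} (hx : GoodNodes p ρ R x) :
    GoodNodes p ρ R (fun n => - x (-n)) := by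
  obtain ⟨hm, ht, hb, h1, h2⟩ := hx
  refine ⟨?_, ?_, ?_, ?_, ?_⟩
  · intro a b hab
    exact neg_le_neg (hm (neg_le_neg hab))
  · exact tendsto_neg_atBot_atTop.comp (hb.comp tendsto_neg_atTop_atBot)
  · exact tendsto_neg_atTop_atBot.comp (ht.comp tendsto_neg_atBot_atTop)
  · intro n hn
    have e : -(n + 1) + 1 = -n := by ring
    have h3 : x (-(n + 1)) ≤ -R := by
      simp only at hn
      linarith
    have h4 := h2 _ h3
    rw [e, abs_of_nonpos (by linarith)] at h4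
    simp only
    calc (-x (-(n + 1)) - -x (-n)) * (-x (-(n + 1))) ^ (p - 1)
        = (x (-n) - x (-(n + 1))) * (-x (-(n + 1))) ^ (p - 1) := by ring
      _ ≤ ρ := h4
  · intro n hn
    have e : -(n + 1) + 1 = -n := by ring
    have h3 : R ≤ x (-(n + 1) + 1) := by
      rw [e]
      simp only at hn
      linarith
    have h4 := h1 _ h3
    rw [e] at h4 h3
    simp only
    rw [abs_neg, abs_of_nonneg (by linarith : (0 : ℝ) ≤ x (-n))]
    calc (-x (-(n + 1)) - -x (-n)) * (x (-n)) ^ (p - 1)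
        = (x (-n) - x (-(n + 1))) * (x (-n)) ^ (p - 1) := by ring
      _ ≤ ρ := h4

theorem int_refl (F : ℝ → ℝ≥0∞) (s : ℝ) :
    ∫⁻ t in Ici s, F (-t) = ∫⁻ t in Iic (-s), F t := by
  have h := (Measure.measurePreserving_neg (volume : Measure ℝ)).setLIntegral_comp_preimage_emb
    (MeasurableEquiv.neg ℝ).measurableEmbedding F (Iic (-s))
  have e : (Neg.neg ⁻¹' (Iic (-s)) : Set ℝ) = Ici s := by
    ext t
    simp
  rw [e] at h
  exact h

theorem set_eq (s : ℝ) : {t : ℝ | s ≤ |t|} = Iic (-s) ∪ Ici s := by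
  ext t
  simp only [mem_ofPred_eq, mem_union, mem_Iic, mem_Ici, le_abs]
  constructor
  · rintro (h | h)
    · exact Or.inr h
    · exact Or.inl (by linarith)
  · rintro (h | h)
    · exact Or.inr (by linarith)
    · exact Or.inl h

end B3aux

/-- B3: sum over all the gaps outside `[-s, s]`. -/
theorem B3_gaps {p ρ R η : ℝ} (hp : 1 < p) (hρ0 : 0 < ρ) (hρ : ρ < 1 / 2) (hR : 1 ≤ R)
    (hη : 0 < η) : ∃ C : ℝ≥0, ∀ (x : ℤ → ℝ), GoodNodes p ρ R x → ∀ s : ℝ, R ≤ s →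
    ∀ f : ℝ → ℂ, ContDiff ℝ 1 f →
    ∫⁻ t in {t | s ≤ |t|}, ‖f t‖ₑ ^ 2 ≤
      ENNReal.ofReal ((1 + η) * (ρ / (Real.pi * s ^ (p - 1))) ^ 2) *
        (∫⁻ t in {t | s - ρ / s ^ (p - 1) ≤ |t|}, ‖deriv f t‖ₑ ^ 2)
      + C * ∑' n : ℤ, (if s - ρ / s ^ (p - 1) ≤ |x n| then ‖f (x n)‖ₑ ^ 2 else 0) := by
  obtain ⟨C, hC⟩ := SF.B2_right hp hρ0 hρ hR hη
  refine ⟨C, fun x hx s hs f hf => ?_⟩
  have hs1 : 1 ≤ s := hR.trans hs
  have hpow : 1 ≤ s ^ (p - 1) := Real.one_le_rpow hs1 (by linarith)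
  have hs' : 0 < s - ρ / s ^ (p - 1) := by
    have h1 : ρ / s ^ (p - 1) ≤ ρ := div_le_self hρ0.le hpow
    linarith
  have h1 := hC x hx s hs f hf
  have h2 := hC (fun n => - x (-n)) (B3aux.good_refl hR hx) s hs (fun t => f (-t))
    (hf.comp contDiff_neg)
  set s' := s - ρ / s ^ (p - 1) with hs'def
  have e1 : ∫⁻ t in Ici s, ‖f (-t)‖ₑ ^ 2 = ∫⁻ t in Iic (-s), ‖f t‖ₑ ^ 2 :=
    B3aux.int_refl (fun t => ‖f t‖ₑ ^ 2) s
  have e2 : ∫⁻ t in Ici s', ‖deriv (fun u => f (-u)) t‖ₑ ^ 2 =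
      ∫⁻ t in Iic (-s'), ‖deriv f t‖ₑ ^ 2 := by
    rw [← B3aux.int_refl (fun t => ‖deriv f t‖ₑ ^ 2) s']
    refine lintegral_congr fun t => ?_
    rw [deriv_comp_neg, enorm_neg]
  have e3 : ∑' n : ℤ, (if s' ≤ - x (-n) then ‖f (- - x (-n))‖ₑ ^ 2 else 0) =
      ∑' n : ℤ, (if s' ≤ - x n then ‖f (x n)‖ₑ ^ 2 else 0) := by
    rw [← (Equiv.neg ℤ).tsum_eq (fun n : ℤ => if s' ≤ - x n then ‖f (x n)‖ₑ ^ 2 else 0)]
    refine tsum_congr fun n => ?_
    rw [Equiv.neg_apply, neg_neg]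
  rw [e1, e2, e3] at h2
  have e4 : ∫⁻ t in {t | s ≤ |t|}, ‖f t‖ₑ ^ 2 ≤
      (∫⁻ t in Iic (-s), ‖f t‖ₑ ^ 2) + ∫⁻ t in Ici s, ‖f t‖ₑ ^ 2 := by
    rw [B3aux.set_eq]
    exact lintegral_union_le _ _ _
  have e5 : ∫⁻ t in {t | s' ≤ |t|}, ‖deriv f t‖ₑ ^ 2 =
      (∫⁻ t in Iic (-s'), ‖deriv f t‖ₑ ^ 2) + ∫⁻ t in Ici s', ‖deriv f t‖ₑ ^ 2 := by
    rw [B3aux.set_eq]
    refine lintegral_union measurableSet_Ici ?_
    rw [Set.disjoint_left]
    intro t ht ht'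
    rw [mem_Iic] at ht
    rw [mem_Ici] at ht'
    linarith
  have e6 : (∑' n : ℤ, (if s' ≤ - x n then ‖f (x n)‖ₑ ^ 2 else 0)) +
      ∑' n : ℤ, (if s' ≤ x n then ‖f (x n)‖ₑ ^ 2 else 0) ≤
      ∑' n : ℤ, (if s' ≤ |x n| then ‖f (x n)‖ₑ ^ 2 else 0) := by
    rw [← ENNReal.tsum_add]
    refine ENNReal.tsum_le_tsum fun n => ?_
    by_cases ha : s' ≤ x n
    · have hb : ¬ s' ≤ - x n := by
        intro h
        linarith
      rw [if_neg hb, if_pos ha, if_pos (ha.trans (le_abs_self _)), zero_add]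
    · by_cases hb : s' ≤ - x n
      · rw [if_pos hb, if_neg ha, if_pos (hb.trans (neg_le_abs _)), add_zero]
      · rw [if_neg hb, if_neg ha, add_zero]
        exact bot_le
  refine e4.trans ((add_le_add h2 h1).trans ?_)
  rw [e5, mul_add]
  refine le_trans (le_of_eq ?_) (add_le_add le_rfl (mul_le_mul' le_rfl e6))
  rw [mul_add]
  ring

end SF
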