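import Pool.Agent.N246.SF.Defs

/-!
# Tail version of Young's inequality
-/

open MeasureTheory Filter Set SchwartzMap FourierTransform
open scoped ENNReal NNReal Topology

namespace SF

namespace C1aux

/-- Cauchy-Schwarz with a weight. -/
theorem cs (κ g : ℝ → ℝ≥0∞) (hκ : Measurable κ) (hg : Measurable g) :
    (∫⁻ y, κ y * g y) ^ 2 ≤ (∫⁻ y, κ y) * ∫⁻ y, κ y * g y ^ 2 := by
  have h22 : Real.HolderConjugate 2 2 := by
    rw [Real.holderConjugate_iff]
    norm_num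
  have h1 := ENNReal.lintegral_mul_le_Lp_mul_Lq (volume : Measure ℝ) h22
    (f := fun y => κ y ^ (1 / 2 : ℝ)) (g := fun y => κ y ^ (1 / 2 : ℝ) * g y)
    (hκ.pow_const _).aemeasurable ((hκ.pow_const _).mul hg).aemeasurable
  have e1 : ∀ y, κ y ^ (1 / 2 : ℝ) * κ y ^ (1 / 2 : ℝ) = κ y := by
    intro y
    rw [← ENNReal.rpow_add_of_nonneg _ _ (by norm_num) (by norm_num)]
    norm_num
  have e2 : ∀ y, (κ y ^ (1 / 2 : ℝ)) ^ (2 : ℝ) = κ y := by
    intro y
    rw [← ENNReal.rpow_mul]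
    norm_num
  have e3 : ∀ y, (κ y ^ (1 / 2 : ℝ) * g y) ^ (2 : ℝ) = κ y * g y ^ 2 := by
    intro y
    rw [ENNReal.mul_rpow_of_nonneg _ _ (by norm_num), e2, ENNReal.rpow_two]
  have e4 : ∀ y, ((fun y => κ y ^ (1 / 2 : ℝ)) * fun y => κ y ^ (1 / 2 : ℝ) * g y) y =
      κ y * g y := by
    intro y
    rw [Pi.mul_apply, ← mul_assoc, e1]
  simp only [e4, e2, e3] at h1
  calc (∫⁻ y, κ y * g y) ^ 2 ≤
      ((∫⁻ y, κ y) ^ (1 / 2 : ℝ) * (∫⁻ y, κ y * g y ^ 2) ^ (1 / 2 : ℝ)) ^ 2 :=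
        pow_le_pow_left' h1 2
    _ = (∫⁻ y, κ y) * ∫⁻ y, κ y * g y ^ 2 := by
        rw [mul_pow, ← ENNReal.rpow_two, ← ENNReal.rpow_two, ← ENNReal.rpow_mul,
          ← ENNReal.rpow_mul]
        norm_num

end C1aux

/-- C1: tail version of Young's inequality. -/
theorem C1_young_tail (K g : ℝ → ℝ≥0∞) (hK : Measurable K) (hg : Measurable g) (s d : ℝ)
    (hd : 0 ≤ d) (hgs : ∀ y, s ≤ |y| → g y = 0) :
    ∫⁻ x in {x | s + d ≤ |x|}, (∫⁻ y, K (x - y) * g y) ^ 2 ≤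
      (∫⁻ z in {z | d ≤ |z|}, K z) ^ 2 * ∫⁻ y, g y ^ 2 := by
  have hmd : MeasurableSet {z : ℝ | d ≤ |z|} := measurableSet_le measurable_const (by fun_prop)
  have hms : MeasurableSet {x : ℝ | s + d ≤ |x|} := measurableSet_le measurable_const (by fun_prop)
  obtain ⟨K', hK'⟩ : ∃ K', K' = indicator {z : ℝ | d ≤ |z|} K := ⟨_, rfl⟩
  have hmK : Measurable K' := by rw [hK']; exact hK.indicator hmd
  have hint : ∫⁻ z in {z : ℝ | d ≤ |z|}, K z = ∫⁻ z, K' z := by
    rw [hK', lintegral_indicator hmd]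
  rw [hint]
  have h1 : ∫⁻ x in {x | s + d ≤ |x|}, (∫⁻ y, K (x - y) * g y) ^ 2 ≤
      ∫⁻ x, (∫⁻ z, K' z) * ∫⁻ y, K' (x - y) * g y ^ 2 := by
    refine le_trans (setLIntegral_mono' hms fun x hx => ?_) (setLIntegral_le_lintegral _ _)
    have h2 : ∀ y, K (x - y) * g y = K' (x - y) * g y := by
      intro y
      by_cases hy : s ≤ |y|
      · rw [hgs y hy, mul_zero, mul_zero]
      · rw [hK', indicator_of_mem]
        have hx' : s + d ≤ |x| := hx
        have h3 : |x| - |y| ≤ |x - y| := abs_sub_abs_le_abs_sub x y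
        rw [not_le] at hy
        show d ≤ |x - y|
        linarith
    simp only [h2]
    refine (C1aux.cs (fun y => K' (x - y)) g (by fun_prop) hg).trans (le_of_eq ?_)
    rw [lintegral_sub_left_eq_self K' x]
  refine h1.trans (le_of_eq ?_)
  have hm2 : Measurable (Function.uncurry fun x y : ℝ => K' (x - y) * g y ^ 2) := by
    unfold Function.uncurry
    fun_prop
  have hm3 : Measurable fun x => ∫⁻ y, K' (x - y) * g y ^ 2 := hm2.lintegral_prod_right'
  rw [lintegral_const_mul _ hm3, lintegral_lintegral_swap hm2.aemeasurable]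
  have h4 : ∀ y, ∫⁻ x, K' (x - y) * g y ^ 2 = (∫⁻ z, K' z) * g y ^ 2 := by
    intro y
    rw [lintegral_mul_const _ (by fun_prop), lintegral_sub_right_eq_self K' y]
  simp only [h4]
  rw [lintegral_const_mul _ (by fun_prop), ← mul_assoc, sq]

end SF
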