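import Pool.Agent.N246.SF.Defs

/-!
# Project SF, part C2: smooth frequency cut-off and kernel tails
-/

open MeasureTheory Filter Set SchwartzMap FourierTransform
open scoped ENNReal NNReal Topology ContDiff

namespace SF

namespace C2aux

/-- the bump function -/
noncomputable def chi (δ : ℝ) (hδ : 0 < δ) : ContDiffBump (0 : ℝ) where
  rIn := 1 + δ
  rOut := 1 + 2 * δ
  rIn_pos := by positivity
  rIn_lt_rOut := by linarith

/-- the symbol at the scale one -/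
noncomputable def M1 (δ : ℝ) (hδ : 0 < δ) (t : ℝ) : ℂ :=
  2 * Real.pi * Complex.I * t * ((chi δ hδ t : ℝ) : ℂ)

/-- the symbol -/
noncomputable def MM (δ : ℝ) (hδ : 0 < δ) (L ξ : ℝ) : ℂ := L * M1 δ hδ (ξ / L)

theorem MM_eq {δ : ℝ} (hδ : 0 < δ) {L : ℝ} (hL : 1 ≤ L) (ξ : ℝ) :
    MM δ hδ L ξ = 2 * Real.pi * Complex.I * ξ * ((chi δ hδ (ξ / L) : ℝ) : ℂ) := by
  have h : (L : ℂ) ≠ 0 := by
    have : L ≠ 0 := by positivity
    exact_mod_cast this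
  unfold MM M1
  push_cast
  field_simp

theorem smooth {δ : ℝ} (hδ : 0 < δ) {L : ℝ} (hL : 1 ≤ L) : ContDiff ℝ ∞ (MM δ hδ L) := by
  have h1 : ContDiff ℝ ∞ fun ξ : ℝ => ((chi δ hδ (ξ / L) : ℝ) : ℂ) :=
    Complex.ofRealCLM.contDiff.comp ((chi δ hδ).contDiff.comp (contDiff_id.div_const L))
  have h2 : ContDiff ℝ ∞ fun ξ : ℝ => (ξ : ℂ) := Complex.ofRealCLM.contDiff
  have h3 : MM δ hδ L = fun ξ : ℝ => 2 * Real.pi * Complex.I * ξ * ((chi δ hδ (ξ / L) : ℝ) : ℂ) :=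
    funext (MM_eq hδ hL)
  rw [h3]
  exact (contDiff_const.mul h2).mul h1

theorem chi_zero {δ : ℝ} (hδ : 0 < δ) {t : ℝ} (ht : 1 + 2 * δ ≤ |t|) : chi δ hδ t = 0 := by
  apply (chi δ hδ).zero_of_le_dist
  rw [Real.dist_eq, sub_zero]
  exact ht

theorem compact {δ : ℝ} (hδ : 0 < δ) {L : ℝ} (hL : 1 ≤ L) : HasCompactSupport (MM δ hδ L) := by
  apply HasCompactSupport.of_support_subset_isCompact
    (isCompact_Icc (a := -((1 + 2 * δ) * L)) (b := (1 + 2 * δ) * L))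
  intro ξ hξ
  by_contra hcon
  apply hξ
  rw [MM_eq hδ hL]
  have hL0 : 0 < L := by linarith
  have : 1 + 2 * δ ≤ |ξ / L| := by
    rw [abs_div, abs_of_pos hL0, le_div_iff₀ hL0]
    by_contra h
    push Not at h
    exact hcon (Set.mem_Icc.2 (abs_le.1 h.le))
  rw [chi_zero hδ this]
  simp

/-- the symbol as a Schwartz function -/
noncomputable def mS {δ : ℝ} (hδ : 0 < δ) {L : ℝ} (hL : 1 ≤ L) : 𝓢(ℝ, ℂ) :=
  (compact hδ hL).toSchwartzMap (smooth hδ hL)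

theorem mS_apply {δ : ℝ} (hδ : 0 < δ) {L : ℝ} (hL : 1 ≤ L) (ξ : ℝ) :
    mS hδ hL ξ = MM δ hδ L ξ := rfl

/-- the kernel at the scale one -/
noncomputable def k1 {δ : ℝ} (hδ : 0 < δ) : 𝓢(ℝ, ℂ) := 𝓕⁻ (mS hδ le_rfl)

theorem kernel_eq {δ : ℝ} (hδ : 0 < δ) {L : ℝ} (hL : 1 ≤ L) (K : 𝓢(ℝ, ℂ))
    (hK : ∀ ξ, (𝓕 K) ξ = MM δ hδ L ξ) (z : ℝ) : K z = (L : ℂ) ^ 2 * k1 hδ (L * z) := by
  have hL0 : 0 < L := by linarith
  have e1 : 𝓕 K = mS hδ hL := by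
    ext ξ
    rw [hK, mS_apply]
  have e2 : K = 𝓕⁻ (mS hδ hL) := by
    rw [← e1, FourierTransform.fourierInv_fourier_eq]
  rw [e2]
  unfold k1
  rw [SchwartzMap.fourierInv_coe, SchwartzMap.fourierInv_coe, Real.fourierInv_eq',
    Real.fourierInv_eq']
  have h1 := Measure.integral_comp_div (fun t : ℝ =>
    Complex.exp (((2 * Real.pi * inner ℝ t (L * z) : ℝ) : ℂ) * Complex.I) • (L * M1 δ hδ t : ℂ)) L
  have h2 : (∫ v : ℝ, Complex.exp (((2 * Real.pi * inner ℝ v z : ℝ) : ℂ) * Complex.I) •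
      (mS hδ hL) v) = ∫ x : ℝ, (fun t : ℝ =>
    Complex.exp (((2 * Real.pi * inner ℝ t (L * z) : ℝ) : ℂ) * Complex.I) •
      (L * M1 δ hδ t : ℂ)) (x / L) := by
    refine integral_congr_ae (Filter.Eventually.of_forall fun v => ?_)
    have h3 : inner ℝ (v / L) (L * z) = inner ℝ v z := by
      simp only [RCLike.inner_apply, conj_trivial]
      field_simp
    simp only [h3]
    rfl
  rw [h2, h1, abs_of_pos hL0]
  have h4 : (∫ t : ℝ, Complex.exp (((2 * Real.pi * inner ℝ t (L * z) : ℝ) : ℂ) * Complex.I) •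
      (L * M1 δ hδ t : ℂ)) = L * ∫ t : ℝ, Complex.exp
        (((2 * Real.pi * inner ℝ t (L * z) : ℝ) : ℂ) * Complex.I) • (mS hδ le_rfl) t := by
    rw [← integral_const_mul]
    refine integral_congr_ae (Filter.Eventually.of_forall fun t => ?_)
    simp only [mS_apply, MM, smul_eq_mul, Complex.ofReal_one, one_mul, div_one]
    ring
  rw [h4, Complex.real_smul]
  ring

/-- the moments of the kernel -/
noncomputable def mom {δ : ℝ} (hδ : 0 < δ) (N : ℕ) : ℝ≥0∞ := ∫⁻ w : ℝ, ‖w‖ₑ ^ N * ‖k1 hδ w‖ₑ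

theorem mom_lt {δ : ℝ} (hδ : 0 < δ) (N : ℕ) : mom hδ N < ⊤ := by
  have h := (k1 hδ).integrable_pow_mul volume N
  have h2 := h.2
  unfold HasFiniteIntegral at h2
  refine lt_of_eq_of_lt ?_ h2
  unfold mom
  refine lintegral_congr fun w => ?_
  rw [enorm_mul, enorm_pow, enorm_norm, enorm_norm]

theorem tail {δ : ℝ} (hδ : 0 < δ) (N : ℕ) {L : ℝ} (hL : 1 ≤ L) (K : 𝓢(ℝ, ℂ))
    (hK : ∀ ξ, (𝓕 K) ξ = MM δ hδ L ξ) (d : ℝ) (hd : 0 < d) :
    ∫⁻ z in {z | d ≤ |z|}, ‖K z‖ₑ ≤ mom hδ N * ENNReal.ofReal (L * (L * d) ^ (-(N : ℝ))) := by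
  have hL0 : 0 < L := by linarith
  have hLd : 0 < L * d := by positivity
  have hms : MeasurableSet {z : ℝ | d ≤ |z|} := measurableSet_le measurable_const measurable_norm
  have hms2 : MeasurableSet {z : ℝ | L * d ≤ |z|} :=
    measurableSet_le measurable_const measurable_norm
  let F : ℝ → ℝ≥0∞ := {z : ℝ | L * d ≤ |z|}.indicator fun w => ‖(L : ℂ) ^ 2 * k1 hδ w‖ₑ
  have hF : Measurable F := by
    refine Measurable.indicator ?_ hms2
    exact (measurable_const.mul (k1 hδ).continuous.measurable).enorm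
  have h1 : ∫⁻ z in {z | d ≤ |z|}, ‖K z‖ₑ = ∫⁻ z, F (L * z) := by
    rw [← lintegral_indicator hms]
    refine lintegral_congr fun z => ?_
    have h2 : (L * z ∈ {z : ℝ | L * d ≤ |z|}) ↔ z ∈ {z : ℝ | d ≤ |z|} := by
      simp only [Set.mem_ofPred_eq, abs_mul, abs_of_pos hL0]
      exact mul_le_mul_iff_right₀ hL0
    by_cases hz : z ∈ {z : ℝ | d ≤ |z|}
    · have := h2.2 hz
      simp only [F]
      rw [Set.indicator_of_mem hz, Set.indicator_of_mem this, kernel_eq hδ hL K hK]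
    · have : L * z ∉ {z : ℝ | L * d ≤ |z|} := fun h => hz (h2.1 h)
      simp only [F]
      rw [Set.indicator_of_notMem hz, Set.indicator_of_notMem this]
  have h3 : ∫⁻ z, F (L * z) = ENNReal.ofReal |L⁻¹| * ∫⁻ w, F w := by
    rw [← lintegral_map hF (measurable_const_mul L), Real.map_volume_mul_left hL0.ne',
      lintegral_smul_measure, smul_eq_mul]
  have h4 : ∀ w, F w ≤ ENNReal.ofReal (L ^ 2 * (L * d) ^ (-(N : ℝ))) *
      (‖w‖ₑ ^ N * ‖k1 hδ w‖ₑ) := by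
    intro w
    by_cases hw : w ∈ {z : ℝ | L * d ≤ |z|}
    · simp only [F]
      rw [Set.indicator_of_mem hw, enorm_mul, ← mul_assoc]
      refine mul_le_mul_left ?_ _
      have e1 : ‖(L : ℂ) ^ 2‖ₑ = ENNReal.ofReal (L ^ 2) := by
        rw [← ofReal_norm]
        congr 1
        rw [norm_pow, Complex.norm_real, Real.norm_eq_abs, sq_abs]
      have e2 : ‖w‖ₑ ^ N = ENNReal.ofReal (|w| ^ N) := by
        rw [← ofReal_norm, ENNReal.ofReal_pow (abs_nonneg w), Real.norm_eq_abs]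
      rw [e1, e2, ← ENNReal.ofReal_mul (by positivity)]
      apply ENNReal.ofReal_le_ofReal
      have e3 : (1 : ℝ) ≤ (L * d) ^ (-(N : ℝ)) * |w| ^ N := by
        rw [Real.rpow_neg hLd.le, Real.rpow_natCast, inv_mul_eq_div, one_le_div (by positivity)]
        exact pow_le_pow_left₀ hLd.le hw N
      calc L ^ 2 = L ^ 2 * 1 := (mul_one _).symm
        _ ≤ L ^ 2 * ((L * d) ^ (-(N : ℝ)) * |w| ^ N) :=
          mul_le_mul_of_nonneg_left e3 (by positivity)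
        _ = _ := by ring
    · simp only [F]
      rw [Set.indicator_of_notMem hw]
      exact zero_le
  rw [h1, h3]
  calc ENNReal.ofReal |L⁻¹| * ∫⁻ w, F w
      ≤ ENNReal.ofReal |L⁻¹| * ∫⁻ w, ENNReal.ofReal (L ^ 2 * (L * d) ^ (-(N : ℝ))) *
        (‖w‖ₑ ^ N * ‖k1 hδ w‖ₑ) := by
        gcongr with w
        exact h4 w
    _ = ENNReal.ofReal |L⁻¹| * (ENNReal.ofReal (L ^ 2 * (L * d) ^ (-(N : ℝ))) * mom hδ N) := by
        rw [lintegral_const_mul']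
        · rfl
        · exact ENNReal.ofReal_ne_top
    _ = mom hδ N * ENNReal.ofReal (L * (L * d) ^ (-(N : ℝ))) := by
        rw [← mul_assoc, ← ENNReal.ofReal_mul (abs_nonneg _), mul_comm]
        congr 2
        rw [abs_of_pos (by positivity)]
        field_simp

end C2aux

open C2aux in
theorem C2_kernel {δ : ℝ} (hδ : 0 < δ) : ∃ M : ℝ → (ℝ → ℂ),
    (∀ Λ : ℝ, 1 ≤ Λ → ∃ K : 𝓢(ℝ, ℂ), (∀ ξ, (𝓕 K) ξ = M Λ ξ)) ∧
    (∀ Λ : ℝ, 1 ≤ Λ → ∀ ξ, |ξ| ≤ (1 + δ) * Λ → M Λ ξ = 2 * Real.pi * Complex.I * ξ) ∧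
    (∀ Λ : ℝ, 1 ≤ Λ → ∀ ξ, ‖M Λ ξ‖ ≤ 2 * Real.pi * (1 + 2 * δ) * Λ) ∧
    (∀ Λ : ℝ, 1 ≤ Λ → ∀ ξ : ℝ, ‖2 * Real.pi * Complex.I * ξ - M Λ ξ‖ ≤ 2 * Real.pi * |ξ|) ∧
    (∀ N : ℕ, ∃ C : ℝ≥0, ∀ Λ : ℝ, 1 ≤ Λ → ∀ K : 𝓢(ℝ, ℂ), (∀ ξ, (𝓕 K) ξ = M Λ ξ) →
      ∀ d : ℝ, 0 < d → ∫⁻ z in {z | d ≤ |z|}, ‖K z‖ₑ ≤
        C * ENNReal.ofReal (Λ * (Λ * d) ^ (-(N : ℝ)))) := by
  have hn : ∀ ξ : ℝ, ‖(2 * Real.pi * Complex.I * ξ : ℂ)‖ = 2 * Real.pi * |ξ| := by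
    intro ξ
    rw [norm_mul, norm_mul, norm_mul, Complex.norm_I, Complex.norm_real, Complex.norm_real,
      Real.norm_eq_abs, Real.norm_eq_abs, abs_of_pos Real.pi_pos]
    norm_num
  refine ⟨MM δ hδ, ?_, ?_, ?_, ?_, ?_⟩
  · intro Λ hΛ
    refine ⟨𝓕⁻ (mS hδ hΛ), fun ξ => ?_⟩
    rw [FourierTransform.fourier_fourierInv_eq]
    rfl
  · intro Λ hΛ ξ hξ
    have hL0 : 0 < Λ := by linarith
    rw [MM_eq hδ hΛ]
    have : chi δ hδ (ξ / Λ) = 1 := by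
      apply (chi δ hδ).one_of_mem_closedBall
      rw [Metric.mem_closedBall, Real.dist_eq, sub_zero, abs_div, abs_of_pos hL0,
        div_le_iff₀ hL0]
      exact hξ
    rw [this]
    simp
  · intro Λ hΛ ξ
    have hL0 : 0 < Λ := by linarith
    rw [MM_eq hδ hΛ, norm_mul, hn, Complex.norm_real, Real.norm_eq_abs,
      abs_of_nonneg (chi δ hδ).nonneg]
    by_cases h : 1 + 2 * δ ≤ |ξ / Λ|
    · rw [chi_zero hδ h, mul_zero]
      positivity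
    · push Not at h
      rw [abs_div, abs_of_pos hL0, div_lt_iff₀ hL0] at h
      have h1 := (chi δ hδ).le_one (x := ξ / Λ)
      have h2 := (chi δ hδ).nonneg (x := ξ / Λ)
      calc 2 * Real.pi * |ξ| * (chi δ hδ) (ξ / Λ) ≤ 2 * Real.pi * |ξ| * 1 :=
            mul_le_mul_of_nonneg_left h1 (by positivity)
        _ ≤ 2 * Real.pi * ((1 + 2 * δ) * Λ) := by
            rw [mul_one]
            exact mul_le_mul_of_nonneg_left h.le (by positivity)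
        _ = _ := by ring
  · intro Λ hΛ ξ
    rw [MM_eq hδ hΛ]
    have h1 := (chi δ hδ).le_one (x := ξ / Λ)
    have h2 := (chi δ hδ).nonneg (x := ξ / Λ)
    have e : (2 * Real.pi * Complex.I * ξ - 2 * Real.pi * Complex.I * ξ *
        ((chi δ hδ (ξ / Λ) : ℝ) : ℂ) : ℂ) = 2 * Real.pi * Complex.I * ξ *
          ((1 - chi δ hδ (ξ / Λ) : ℝ) : ℂ) := by
      push_cast
      ring
    rw [e, norm_mul, hn, Complex.norm_real, Real.norm_eq_abs,
      abs_of_nonneg (show 0 ≤ 1 - (chi δ hδ) (ξ / Λ) by linarith)]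
    calc 2 * Real.pi * |ξ| * (1 - (chi δ hδ) (ξ / Λ)) ≤ 2 * Real.pi * |ξ| * 1 :=
          mul_le_mul_of_nonneg_left (by linarith) (by positivity)
      _ = _ := mul_one _
  · intro N
    refine ⟨(mom hδ N).toNNReal, fun Λ hΛ K hK d hd => ?_⟩
    rw [ENNReal.coe_toNNReal (mom_lt hδ N).ne]
    exact tail hδ N hΛ K hK d hd

end SF

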