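import Pool.Agent.N246.SF.Defs
import Pool.Agent.N246.SF.C1
import Pool.Agent.N246.SF.C2

/-!
# Project SF, piece C3: frequency localisation of the derivative far from the origin
-/

open MeasureTheory Filter Set SchwartzMap FourierTransform
open scoped ENNReal NNReal Topology

namespace SF.C3aux

/-- the square of the extended norm as the extension of the square of the norm -/
theorem enorm_sq (z : ℂ) : ‖z‖ₑ ^ 2 = ENNReal.ofReal (‖z‖ ^ 2) := by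
  rw [ENNReal.ofReal_pow (norm_nonneg z), ofReal_norm]

/-- square integrability of Schwartz functions -/
theorem integrable_sq (f : 𝓢(ℝ, ℂ)) : Integrable (fun t => ‖f t‖ ^ 2) :=
  (f.memLp 2).integrable_norm_pow (by norm_num)

/-- Plancherel's theorem for Schwartz functions in terms of extended integrals. -/
theorem plancherel (f : 𝓢(ℝ, ℂ)) : ∫⁻ t, ‖f t‖ₑ ^ 2 = ∫⁻ ξ, ‖(𝓕 f) ξ‖ₑ ^ 2 := by
  simp_rw [enorm_sq]
  rw [← ofReal_integral_eq_lintegral_ofReal (integrable_sq f)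
      (Eventually.of_forall fun t => by positivity),
    ← ofReal_integral_eq_lintegral_ofReal (integrable_sq (𝓕 f))
      (Eventually.of_forall fun t => by positivity), SchwartzMap.integral_norm_sq_fourier]

/-- the Fourier transform of the derivative -/
theorem fourier_deriv (f : 𝓢(ℝ, ℂ)) (ξ : ℝ) :
    (𝓕 (derivCLM ℂ ℂ f)) ξ = 2 * Real.pi * Complex.I * ξ * (𝓕 f) ξ := by
  have h2 : (derivCLM ℂ ℂ f : ℝ → ℂ) = deriv f := by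
    funext x; simp
  have h3 : Integrable (deriv f) := h2 ▸ (derivCLM ℂ ℂ f).integrable
  have h := Real.fourier_deriv (f := (f : ℝ → ℂ)) f.integrable f.differentiable h3
  have h1 := congrFun h ξ
  rw [SchwartzMap.fourier_coe, SchwartzMap.fourier_coe]
  rw [h2, h1]
  simp
  
/-- the operator with kernel `K` -/
noncomputable def P (K : 𝓢(ℝ, ℂ)) (g : 𝓢(ℝ, ℂ)) : 𝓢(ℝ, ℂ) :=
  SchwartzMap.convolution (ContinuousLinearMap.mul ℂ ℂ) g K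

theorem P_sub (K g h : 𝓢(ℝ, ℂ)) : P K (g - h) = P K g - P K h := by
  simp [P]

theorem fourier_P (K g : 𝓢(ℝ, ℂ)) (ξ : ℝ) : (𝓕 (P K g)) ξ = (𝓕 K) ξ * (𝓕 g) ξ := by
  rw [P, SchwartzMap.fourier_convolution, SchwartzMap.pairing_apply_apply]
  simp [mul_comm]

theorem P_apply (K g : 𝓢(ℝ, ℂ)) (x : ℝ) : P K g x = ∫ y, g y * K (x - y) := by
  rw [P, SchwartzMap.convolution_apply]
  rfl

theorem enorm_P_le (K g : 𝓢(ℝ, ℂ)) (x : ℝ) : ‖P K g x‖ₑ ≤ ∫⁻ y, ‖K (x - y)‖ₑ * ‖g y‖ₑ := by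
  rw [P_apply]
  refine (enorm_integral_le_lintegral_enorm _).trans (le_of_eq ?_)
  refine lintegral_congr fun y => ?_
  rw [enorm_mul, mul_comm]

/-- splitting a square -/
theorem split {η : ℝ} (hη : 0 < η) (a b c : ℂ) :
    ‖a + b + c‖ₑ ^ 2 ≤ ENNReal.ofReal (1 + η) * ‖a‖ₑ ^ 2 +
      ENNReal.ofReal (2 * (1 + 1 / η)) * ‖b‖ₑ ^ 2 +
      ENNReal.ofReal (2 * (1 + 1 / η)) * ‖c‖ₑ ^ 2 := by
  simp_rw [enorm_sq]
  rw [← ENNReal.ofReal_mul (by positivity), ← ENNReal.ofReal_mul (by positivity),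
    ← ENNReal.ofReal_mul (by positivity), ← ENNReal.ofReal_add (by positivity) (by positivity),
    ← ENNReal.ofReal_add (by positivity) (by positivity)]
  apply ENNReal.ofReal_le_ofReal
  have h1 : ‖a + b + c‖ ≤ ‖a‖ + (‖b‖ + ‖c‖) := by
    calc ‖a + b + c‖ ≤ ‖a + b‖ + ‖c‖ := norm_add_le _ _
      _ ≤ ‖a‖ + ‖b‖ + ‖c‖ := by gcongr; exact norm_add_le _ _
      _ = _ := by ring
  have h2 : ‖a + b + c‖ ^ 2 ≤ (‖a‖ + (‖b‖ + ‖c‖)) ^ 2 := by gcongr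
  have h3 : ∀ x y : ℝ, (x + y) ^ 2 ≤ (1 + η) * x ^ 2 + (1 + 1 / η) * y ^ 2 := by
    intro x y
    have h4 : (1 + η) * x ^ 2 + (1 + 1 / η) * y ^ 2 - (x + y) ^ 2 = (η * x - y) ^ 2 / η := by
      field_simp
      ring
    have h5 : 0 ≤ (η * x - y) ^ 2 / η := by positivity
    linarith
  have h4 : (‖b‖ + ‖c‖) ^ 2 ≤ 2 * ‖b‖ ^ 2 + 2 * ‖c‖ ^ 2 := by nlinarith [sq_nonneg (‖b‖ - ‖c‖)]
  have h5 := h3 ‖a‖ (‖b‖ + ‖c‖)
  have h6 : (1 + 1 / η) * (‖b‖ + ‖c‖) ^ 2 ≤ (1 + 1 / η) * (2 * ‖b‖ ^ 2 + 2 * ‖c‖ ^ 2) := by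
    gcongr
  nlinarith

/-- the first part: the bound on the whole line -/
theorem part_a {K : 𝓢(ℝ, ℂ)} {B : ℝ} (hB : ∀ ξ, ‖(𝓕 K) ξ‖ ≤ B) (g : 𝓢(ℝ, ℂ)) :
    ∫⁻ t, ‖P K g t‖ₑ ^ 2 ≤ ENNReal.ofReal (B ^ 2) * ∫⁻ t, ‖g t‖ₑ ^ 2 := by
  have hB0 : 0 ≤ B := (norm_nonneg _).trans (hB 0)
  rw [plancherel (P K g), plancherel g, ← lintegral_const_mul' _ _ ENNReal.ofReal_ne_top]
  refine lintegral_mono fun ξ => ?_
  rw [fourier_P, enorm_mul, mul_pow]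
  gcongr
  rw [enorm_sq]
  exact ENNReal.ofReal_le_ofReal (by gcongr; exact hB ξ)

/-- the second part: the high frequencies -/
theorem part_b {K f : 𝓢(ℝ, ℂ)} {L : ℝ}
    (h1 : ∀ ξ : ℝ, |ξ| ≤ L → (𝓕 K) ξ = 2 * Real.pi * Complex.I * ξ)
    (h2 : ∀ ξ : ℝ, ‖2 * Real.pi * Complex.I * ξ - (𝓕 K) ξ‖ ≤ 2 * Real.pi * |ξ|) :
    ∫⁻ t, ‖(derivCLM ℂ ℂ f - P K f) t‖ₑ ^ 2 ≤ ENNReal.ofReal ((2 * Real.pi) ^ 2) *
      ∫⁻ ξ in {ξ | L ≤ |ξ|}, ENNReal.ofReal (ξ ^ 2) * ‖(𝓕 f) ξ‖ₑ ^ 2 := by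
  have hm : MeasurableSet {ξ : ℝ | L ≤ |ξ|} := measurableSet_le measurable_const (by fun_prop)
  rw [plancherel, ← lintegral_const_mul' _ _ ENNReal.ofReal_ne_top,
    ← lintegral_indicator hm]
  refine lintegral_mono fun ξ => ?_
  have h3 : (𝓕 (derivCLM ℂ ℂ f - P K f)) ξ
      = (2 * Real.pi * Complex.I * ξ - (𝓕 K) ξ) * (𝓕 f) ξ := by
    have h5 : 𝓕 (derivCLM ℂ ℂ f - P K f) = 𝓕 (derivCLM ℂ ℂ f) - 𝓕 (P K f) := by
      simpa using map_sub (fourierCLM ℂ 𝓢(ℝ, ℂ)) (derivCLM ℂ ℂ f) (P K f)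
    rw [h5, sub_apply, fourier_deriv, fourier_P]
    ring
  rw [h3, enorm_mul, mul_pow]
  by_cases hL : L ≤ |ξ|
  · rw [indicator_of_mem (by exact hL), ← mul_assoc, ← ENNReal.ofReal_mul (by positivity)]
    gcongr
    rw [enorm_sq]
    apply ENNReal.ofReal_le_ofReal
    calc ‖2 * Real.pi * Complex.I * ξ - (𝓕 K) ξ‖ ^ 2 ≤ (2 * Real.pi * |ξ|) ^ 2 := by
          gcongr; exact h2 ξ
      _ = (2 * Real.pi) ^ 2 * ξ ^ 2 := by rw [mul_pow, sq_abs]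
  · have h4 : (𝓕 K) ξ = 2 * Real.pi * Complex.I * ξ := h1 ξ (le_of_not_ge hL)
    rw [h4]
    simp

/-- the third part: the tail of the kernel -/
theorem part_c {K g : 𝓢(ℝ, ℂ)} {s d : ℝ} (hd : 0 ≤ d) (hg : ∀ y, s ≤ |y| → g y = 0) :
    ∫⁻ t in {t | s + d ≤ |t|}, ‖P K g t‖ₑ ^ 2 ≤
      (∫⁻ z in {z | d ≤ |z|}, ‖K z‖ₑ) ^ 2 * ∫⁻ t, ‖g t‖ₑ ^ 2 := by
  refine le_trans ?_ (SF.C1_young_tail (fun x => ‖K x‖ₑ) (fun x => ‖g x‖ₑ)
    (K.continuous.enorm.measurable) (g.continuous.enorm.measurable) s d hd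
    (fun y hy => by simp [hg y hy]))
  refine lintegral_mono fun t => ?_
  gcongr
  exact enorm_P_le K g t

/-- the cut-off of a Schwartz function -/
theorem cutoff (f : 𝓢(ℝ, ℂ)) {r s : ℝ} (hr : 0 < r) (hrs : r < s) :
    ∃ g : 𝓢(ℝ, ℂ), (∀ y, s ≤ |y| → g y = 0) ∧ (∀ y, |y| ≤ r → g y = f y) ∧
      (∀ y, ‖g y‖ ≤ ‖f y‖) ∧ (∀ y, ‖(f - g) y‖ ≤ ‖f y‖) := by
  let φ : ContDiffBump (0 : ℝ) := ⟨r, s, hr, hrs⟩
  have hs : HasCompactSupport (fun x => (φ x) • f x) := φ.hasCompactSupport.smul_right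
  have hc : ContDiff ℝ ((⊤ : ℕ∞) : WithTop ℕ∞) (fun x => (φ x) • f x) :=
    φ.contDiff.smul (f.smooth ⊤)
  have key : ∀ (c : ℝ), 0 ≤ c → c ≤ 1 → ∀ z : ℂ, ‖c • z‖ ≤ ‖z‖ := by
    intro c h0 h1 z
    rw [norm_smul, Real.norm_of_nonneg h0]
    exact mul_le_of_le_one_left (norm_nonneg z) h1
  refine ⟨hs.toSchwartzMap hc, fun y hy => ?_, fun y hy => ?_, fun y => ?_,
    fun y => ?_⟩
  · have h : φ y = 0 := φ.zero_of_le_dist (by simpa using hy)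
    simp [h]
  · have h : φ y = 1 := φ.one_of_mem_closedBall (by simpa using hy)
    simp [h]
  · exact key _ φ.nonneg φ.le_one _
  · have h : (f - hs.toSchwartzMap hc) y = (1 - φ y) • f y := by
      rw [sub_apply, sub_smul, one_smul]
      rfl
    rw [h]
    exact key _ (by linarith [φ.le_one (x := y)]) (by linarith [φ.nonneg (x := y)]) _

end SF.C3aux

namespace SF

open SF.C3aux in
/-- C3: frequency localisation of the derivative far from the origin. -/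
theorem C3_freq {δ η : ℝ} (hδ : 0 < δ) (hη : 0 < η) : ∃ C : ℝ≥0, ∀ N : ℕ, ∃ CN : ℝ≥0,
    ∀ (Λ s' s'' : ℝ), 1 ≤ Λ → 0 < s'' → s'' < s' → ∀ f : 𝓢(ℝ, ℂ),
    ∫⁻ t in {t | s' ≤ |t|}, ‖deriv f t‖ₑ ^ 2 ≤
      ENNReal.ofReal ((1 + η) * (2 * Real.pi * (1 + 2 * δ) * Λ) ^ 2) *
        (∫⁻ t in {t | s'' ≤ |t|}, ‖f t‖ₑ ^ 2)
      + C * (∫⁻ ξ in {ξ | (1 + δ) * Λ ≤ |ξ|}, ENNReal.ofReal (ξ ^ 2) * ‖(𝓕 f) ξ‖ₑ ^ 2)
      + CN * ENNReal.ofReal (Λ ^ 2 * (Λ * (s' - s'')) ^ (-(2 * N : ℝ))) *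
        ∫⁻ t, ‖f t‖ₑ ^ 2 := by
  obtain ⟨M, hM1, hM2, hM3, hM4, hM5⟩ := SF.C2_kernel hδ
  set c : ℝ := 2 * (1 + 1 / η) with hc
  have hc0 : 0 ≤ c := by positivity
  refine ⟨(c * (2 * Real.pi) ^ 2).toNNReal, fun N => ?_⟩
  obtain ⟨C, hC⟩ := hM5 N
  refine ⟨c.toNNReal * C ^ 2 * ((2 : ℝ≥0) ^ (2 * N)), fun Λ s' s'' hΛ hs'' hs' f => ?_⟩
  obtain ⟨K, hK⟩ := hM1 Λ hΛ
  have hΛ0 : 0 < Λ := by linarith
  set d : ℝ := (s' - s'') / 2 with hd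
  have hd0 : 0 < d := by rw [hd]; linarith
  set s : ℝ := (s' + s'') / 2 with hs
  have hsd : s + d = s' := by rw [hs, hd]; ring
  obtain ⟨g, hg1, hg2, hg3, hg4⟩ := cutoff f hs'' (show s'' < s by rw [hs]; linarith)
  -- the three parts
  have ha := part_a (K := K) (B := 2 * Real.pi * (1 + 2 * δ) * Λ)
    (fun ξ => by rw [hK]; exact hM3 Λ hΛ ξ) (f - g)
  have hb := part_b (K := K) (f := f) (L := (1 + δ) * Λ)
    (fun ξ hξ => by rw [hK]; exact hM2 Λ hΛ ξ hξ) (fun ξ => by rw [hK]; exact hM4 Λ hΛ ξ)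
  have hcc := part_c (K := K) (g := g) (s := s) (d := d) hd0.le hg1
  rw [hsd] at hcc
  have hCd := hC Λ hΛ K hK d hd0
  -- the first part is supported outside
  have ha' : ∫⁻ t, ‖(f - g) t‖ₑ ^ 2 ≤ ∫⁻ t in {t | s'' ≤ |t|}, ‖f t‖ₑ ^ 2 := by
    have hm : MeasurableSet {t : ℝ | s'' ≤ |t|} := measurableSet_le measurable_const (by fun_prop)
    rw [← lintegral_indicator hm]
    refine lintegral_mono fun t => ?_
    by_cases ht : s'' ≤ |t|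
    · rw [indicator_of_mem (by exact ht), enorm_sq, enorm_sq]
      apply ENNReal.ofReal_le_ofReal
      have := hg4 t
      gcongr
    · have h1 : (f - g) t = 0 := by
        rw [sub_apply, hg2 t (le_of_not_ge ht), sub_self]
      rw [h1]
      simp
  have hg' : ∫⁻ t, ‖g t‖ₑ ^ 2 ≤ ∫⁻ t, ‖f t‖ₑ ^ 2 := by
    refine lintegral_mono fun t => ?_
    rw [enorm_sq, enorm_sq]
    apply ENNReal.ofReal_le_ofReal
    have := hg3 t
    gcongr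
  -- the splitting
  have hsplit : ∀ t, ‖deriv f t‖ₑ ^ 2 ≤ ENNReal.ofReal (1 + η) * ‖P K (f - g) t‖ₑ ^ 2 +
      ENNReal.ofReal c * ‖(derivCLM ℂ ℂ f - P K f) t‖ₑ ^ 2 +
      ENNReal.ofReal c * ‖P K g t‖ₑ ^ 2 := by
    intro t
    have h1 : deriv f t = P K (f - g) t + (derivCLM ℂ ℂ f - P K f) t + P K g t := by
      rw [P_sub, sub_apply, sub_apply, derivCLM_apply]
      ring
    rw [h1]
    exact split hη _ _ _
  have hmeas : ∀ u : 𝓢(ℝ, ℂ), Measurable (fun t => ‖u t‖ₑ ^ 2) := fun u =>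
    (u.continuous.enorm.measurable).pow_const 2
  set S : Set ℝ := {t | s' ≤ |t|} with hS
  calc ∫⁻ t in S, ‖deriv f t‖ₑ ^ 2
      ≤ ∫⁻ t in S, (ENNReal.ofReal (1 + η) * ‖P K (f - g) t‖ₑ ^ 2 +
        ENNReal.ofReal c * ‖(derivCLM ℂ ℂ f - P K f) t‖ₑ ^ 2 +
        ENNReal.ofReal c * ‖P K g t‖ₑ ^ 2) := lintegral_mono fun t => hsplit t
    _ = ENNReal.ofReal (1 + η) * (∫⁻ t in S, ‖P K (f - g) t‖ₑ ^ 2) +
        ENNReal.ofReal c * (∫⁻ t in S, ‖(derivCLM ℂ ℂ f - P K f) t‖ₑ ^ 2) +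
        ENNReal.ofReal c * (∫⁻ t in S, ‖P K g t‖ₑ ^ 2) := by
      rw [lintegral_add_right _ ((hmeas _).const_mul _),
        lintegral_add_right _ ((hmeas _).const_mul _), lintegral_const_mul _ (hmeas _),
        lintegral_const_mul _ (hmeas _), lintegral_const_mul _ (hmeas _)]
    _ ≤ ENNReal.ofReal (1 + η) * (ENNReal.ofReal ((2 * Real.pi * (1 + 2 * δ) * Λ) ^ 2) *
          ∫⁻ t in {t | s'' ≤ |t|}, ‖f t‖ₑ ^ 2) +
        ENNReal.ofReal c * (ENNReal.ofReal ((2 * Real.pi) ^ 2) *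
          ∫⁻ ξ in {ξ | (1 + δ) * Λ ≤ |ξ|}, ENNReal.ofReal (ξ ^ 2) * ‖(𝓕 f) ξ‖ₑ ^ 2) +
        ENNReal.ofReal c * ((C * ENNReal.ofReal (Λ * (Λ * d) ^ (-(N : ℝ)))) ^ 2 *
          ∫⁻ t, ‖f t‖ₑ ^ 2) := by
      gcongr
      · exact (setLIntegral_le_lintegral _ _).trans (ha.trans (by gcongr))
      · exact (setLIntegral_le_lintegral _ _).trans hb
      · exact hcc.trans (by gcongr)
    _ = _ := by
      have h1 : ENNReal.ofReal (1 + η) * (ENNReal.ofReal ((2 * Real.pi * (1 + 2 * δ) * Λ) ^ 2) *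
          ∫⁻ t in {t | s'' ≤ |t|}, ‖f t‖ₑ ^ 2) =
          ENNReal.ofReal ((1 + η) * (2 * Real.pi * (1 + 2 * δ) * Λ) ^ 2) *
            ∫⁻ t in {t | s'' ≤ |t|}, ‖f t‖ₑ ^ 2 := by
        rw [ENNReal.ofReal_mul (by positivity), ← mul_assoc (ENNReal.ofReal (1 + η))]
      have h2 : ENNReal.ofReal c * (ENNReal.ofReal ((2 * Real.pi) ^ 2) *
          ∫⁻ ξ in {ξ | (1 + δ) * Λ ≤ |ξ|}, ENNReal.ofReal (ξ ^ 2) * ‖(𝓕 f) ξ‖ₑ ^ 2) =
          ((c * (2 * Real.pi) ^ 2).toNNReal : ℝ≥0∞) *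
          ∫⁻ ξ in {ξ | (1 + δ) * Λ ≤ |ξ|}, ENNReal.ofReal (ξ ^ 2) * ‖(𝓕 f) ξ‖ₑ ^ 2 := by
        rw [← mul_assoc, ← ENNReal.ofReal_mul hc0]
        rfl
      have h3 : ENNReal.ofReal c * ((C * ENNReal.ofReal (Λ * (Λ * d) ^ (-(N : ℝ)))) ^ 2 *
          ∫⁻ t, ‖f t‖ₑ ^ 2) =
          ((c.toNNReal * C ^ 2 * ((2 : ℝ≥0) ^ (2 * N)) : ℝ≥0) : ℝ≥0∞) *
            ENNReal.ofReal (Λ ^ 2 * (Λ * (s' - s'')) ^ (-(2 * N : ℝ))) *
          ∫⁻ t, ‖f t‖ₑ ^ 2 := by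
        have h4 : (ENNReal.ofReal (Λ * (Λ * d) ^ (-(N : ℝ)))) ^ 2 =
            (((2 : ℝ≥0) ^ (2 * N) : ℝ≥0) : ℝ≥0∞) *
              ENNReal.ofReal (Λ ^ 2 * (Λ * (s' - s'')) ^ (-(2 * N : ℝ))) := by
          have h5 : (((2 : ℝ≥0) ^ (2 * N) : ℝ≥0) : ℝ≥0∞) = ENNReal.ofReal ((2 : ℝ) ^ (2 * N)) := by
            rw [ENNReal.ofReal_pow (by norm_num)]
            simp
          rw [h5, ← ENNReal.ofReal_pow (by positivity), ← ENNReal.ofReal_mul (by positivity)]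
          congr 1
          have h6 : 0 < Λ * (s' - s'') := mul_pos hΛ0 (by linarith)
          have h7 : Λ * d = (Λ * (s' - s'')) / 2 := by rw [hd]; ring
          have h8 : (-(2 * N : ℝ)) = -((2 * N : ℕ) : ℝ) := by push_cast; ring
          rw [h7, h8, Real.rpow_neg (by positivity), Real.rpow_neg (by positivity),
            Real.rpow_natCast, Real.rpow_natCast, div_pow, mul_pow Λ, inv_div, div_pow,
            ← pow_mul, mul_comm N 2]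
          ring
        rw [mul_pow, h4]
        push_cast
        rw [show ENNReal.ofReal c = (c.toNNReal : ℝ≥0∞) from rfl]
        ring
      rw [h1, h2, h3]

end SF
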