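import Pool.Agent.N246.SF.Defs
import Pool.Agent.N246.SF.B3
import Pool.Agent.N246.SF.C3

/-!
# Project SF, part D1: the local inequality
-/

set_option maxHeartbeats 400000

open MeasureTheory Filter Set SchwartzMap FourierTransform
open scoped ENNReal NNReal Topology

namespace SF

/-- D1: the local inequality `LI_s`. -/
theorem D1_local {p ρ R : ℝ} (hp : 1 < p) (hρ0 : 0 < ρ) (hρ : ρ < 1 / 2) (hR : 1 ≤ R) :
    ∃ θ δ : ℝ, 0 ≤ θ ∧ θ < 1 ∧ 0 < δ ∧ ∃ C1 : ℝ≥0, ∀ κ : ℝ, 0 < κ → κ < 1 → ∀ N : ℕ,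
    ∃ R1 : ℝ, 1 ≤ R1 ∧ ∃ C2 : ℝ≥0, ∀ (x : ℤ → ℝ), GoodNodes p ρ R x → ∀ s : ℝ, R1 ≤ s →
    ∀ f : 𝓢(ℝ, ℂ),
    ∫⁻ t in {t | s ≤ |t|}, ‖f t‖ₑ ^ 2 ≤
      ENNReal.ofReal θ * (∫⁻ t in {t | (1 - κ) * s ≤ |t|}, ‖f t‖ₑ ^ 2)
      + C1 * ENNReal.ofReal (s ^ (-(2 * (p - 1)))) *
        (∫⁻ ξ in {ξ | (1 + δ) * s ^ (p - 1) ≤ |ξ|}, ENNReal.ofReal (ξ ^ 2) * ‖(𝓕 f) ξ‖ₑ ^ 2)
      + C2 * (∑' n : ℤ, (if (1 - κ) * s ≤ |x n| then ‖f (x n)‖ₑ ^ 2 else 0))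
      + C2 * ENNReal.ofReal (s ^ (-(2 * p * N))) * ∫⁻ t, ‖f t‖ₑ ^ 2 := by
  obtain ⟨u, hu⟩ : ∃ u : ℝ, u = 1 - 2 * ρ := ⟨_, rfl⟩
  have hu0 : 0 < u := by linarith
  have hu1 : u < 1 := by linarith
  have hρu : 2 * ρ = 1 - u := by linarith
  obtain ⟨η, hηd⟩ : ∃ η : ℝ, η = u / 2 := ⟨_, rfl⟩
  obtain ⟨δ, hδd⟩ : ∃ δ : ℝ, δ = u / 4 := ⟨_, rfl⟩
  have hη : 0 < η := by rw [hηd]; positivity
  have hδ : 0 < δ := by rw [hδd]; positivity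
  have hπ := Real.pi_pos
  obtain ⟨C, hC⟩ := SF.C3_freq hδ hη
  obtain ⟨CB, hB⟩ := SF.B3_gaps hp hρ0 hρ hR hη
  obtain ⟨c0, hc0⟩ : ∃ c0 : ℝ, c0 = (1 + η) * (ρ / Real.pi) ^ 2 := ⟨_, rfl⟩
  have hc00 : 0 ≤ c0 := by rw [hc0]; positivity
  obtain ⟨τ, hτ⟩ : ∃ τ : ℝ, τ = (1 + η) * (2 * ρ) * (1 + 2 * δ) := ⟨_, rfl⟩
  have hτ0 : 0 ≤ τ := by rw [hτ]; positivity
  have hτ1 : τ < 1 := by
    rw [hτ, hρu, hηd, hδd]
    nlinarith [mul_pos hu0 hu0, mul_pos (mul_pos hu0 hu0) hu0]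
  refine ⟨τ ^ 2, δ, sq_nonneg _, ?_, hδ, Real.toNNReal c0 * C, ?_⟩
  · nlinarith
  intro κ hκ0 hκ1 N
  obtain ⟨CN, hCN⟩ := hC N
  refine ⟨max R (1 / κ), hR.trans (le_max_left _ _),
    max CB (Real.toNNReal (c0 * (κ / 2) ^ (-(2 * N : ℝ))) * CN), ?_⟩
  intro x hx s hs f
  have hsR : R ≤ s := (le_max_left _ _).trans hs
  have hs1 : 1 ≤ s := hR.trans hsR
  have hs0 : 0 < s := by linarith
  have hκs : 1 ≤ κ * s := by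
    have h1 : 1 / κ ≤ s := (le_max_right _ _).trans hs
    rw [div_le_iff₀ hκ0] at h1
    linarith
  obtain ⟨L, hL⟩ : ∃ L : ℝ, L = s ^ (p - 1) := ⟨_, rfl⟩
  have hL1 : 1 ≤ L := by
    rw [hL]
    exact Real.one_le_rpow hs1 (by linarith)
  have hL0 : 0 < L := by linarith
  have hρL : ρ / L ≤ 1 / 2 := by
    rw [div_le_iff₀ hL0]
    nlinarith
  have hdiff : κ * s / 2 ≤ (s - ρ / L) - (1 - κ) * s := by
    linarith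
  have hlt : (1 - κ) * s < s - ρ / L := by linarith
  have hs'' : 0 < (1 - κ) * s := mul_pos (by linarith) hs0
  have b3 := hB x hx s hsR f (f.smooth 1)
  rw [← hL] at b3
  have c3 := hCN L (s - ρ / L) ((1 - κ) * s) hL1 hs'' hlt f
  rw [← hL]
  -- powers
  have hL2 : s ^ (-(2 * (p - 1))) = (L ^ 2)⁻¹ := by
    rw [Real.rpow_neg hs0.le, hL, mul_comm 2 (p - 1), Real.rpow_mul hs0.le]
    norm_num
  have hLs : L * s = s ^ p := by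
    rw [hL]
    nth_rewrite 2 [← Real.rpow_one s]
    rw [← Real.rpow_add hs0]
    congr 1
    ring
  -- the sum over the nodes
  have hS : ∑' n : ℤ, (if s - ρ / L ≤ |x n| then ‖f (x n)‖ₑ ^ 2 else 0) ≤
      ∑' n : ℤ, (if (1 - κ) * s ≤ |x n| then ‖f (x n)‖ₑ ^ 2 else 0) := by
    refine ENNReal.tsum_le_tsum fun n => ?_
    split_ifs with h1 h2
    · exact le_rfl
    · exact absurd (hlt.le.trans h1) h2
    · exact bot_le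
    · exact le_rfl
  -- the constants
  obtain ⟨a, ha⟩ : ∃ a : ℝ, a = (1 + η) * (ρ / (Real.pi * L)) ^ 2 := ⟨_, rfl⟩
  have ha0 : 0 ≤ a := by rw [ha]; positivity
  rw [← ha] at b3
  have hac : a = c0 * (L ^ 2)⁻¹ := by
    rw [ha, hc0]
    field_simp
  have e1 : ENNReal.ofReal a * ENNReal.ofReal ((1 + η) * (2 * Real.pi * (1 + 2 * δ) * L) ^ 2) =
      ENNReal.ofReal (τ ^ 2) := by
    rw [← ENNReal.ofReal_mul ha0]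
    congr 1
    rw [ha, hτ]
    field_simp
  have e2 : ENNReal.ofReal a * (C : ℝ≥0∞) =
      ((Real.toNNReal c0 * C : ℝ≥0) : ℝ≥0∞) * ENNReal.ofReal (s ^ (-(2 * (p - 1)))) := by
    rw [hL2, hac, ENNReal.ofReal_mul hc00, ENNReal.coe_mul]
    show ENNReal.ofReal c0 * _ * _ = ENNReal.ofReal c0 * _ * _
    ring
  have e3 : ENNReal.ofReal a * ((CN : ℝ≥0∞) * ENNReal.ofReal
      (L ^ 2 * (L * ((s - ρ / L) - (1 - κ) * s)) ^ (-(2 * N : ℝ)))) ≤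
      ((Real.toNNReal (c0 * (κ / 2) ^ (-(2 * N : ℝ))) * CN : ℝ≥0) : ℝ≥0∞) *
        ENNReal.ofReal (s ^ (-(2 * p * N))) := by
    have h1 : a * (L ^ 2 * (L * ((s - ρ / L) - (1 - κ) * s)) ^ (-(2 * N : ℝ))) ≤
        c0 * (κ / 2) ^ (-(2 * N : ℝ)) * s ^ (-(2 * p * N)) := by
      have h2 : κ / 2 * s ^ p ≤ L * ((s - ρ / L) - (1 - κ) * s) := by
        rw [← hLs]
        have := mul_le_mul_of_nonneg_left hdiff hL0.le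
        linarith
      have h3 : (0:ℝ) < κ / 2 * s ^ p := by positivity
      have h4 : (L * ((s - ρ / L) - (1 - κ) * s)) ^ (-(2 * N : ℝ)) ≤
          (κ / 2 * s ^ p) ^ (-(2 * N : ℝ)) :=
        Real.rpow_le_rpow_of_nonpos h3 h2 (by
          have : (0:ℝ) ≤ N := Nat.cast_nonneg N
          linarith)
      have h5 : (κ / 2 * s ^ p) ^ (-(2 * N : ℝ)) =
          (κ / 2) ^ (-(2 * N : ℝ)) * s ^ (-(2 * p * N)) := by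
        rw [Real.mul_rpow (by positivity) (by positivity), ← Real.rpow_mul hs0.le]
        congr 2
        ring
      rw [h5] at h4
      have h6 : a * L ^ 2 = c0 := by
        rw [hac]
        field_simp
      calc a * (L ^ 2 * (L * ((s - ρ / L) - (1 - κ) * s)) ^ (-(2 * N : ℝ)))
          = c0 * (L * ((s - ρ / L) - (1 - κ) * s)) ^ (-(2 * N : ℝ)) := by rw [← h6]; ring
        _ ≤ c0 * ((κ / 2) ^ (-(2 * N : ℝ)) * s ^ (-(2 * p * N))) :=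
            mul_le_mul_of_nonneg_left h4 hc00
        _ = _ := by ring
    have h7 : 0 ≤ c0 * (κ / 2) ^ (-(2 * N : ℝ)) := by positivity
    calc ENNReal.ofReal a * ((CN : ℝ≥0∞) * ENNReal.ofReal
          (L ^ 2 * (L * ((s - ρ / L) - (1 - κ) * s)) ^ (-(2 * N : ℝ))))
        = (CN : ℝ≥0∞) * ENNReal.ofReal
          (a * (L ^ 2 * (L * ((s - ρ / L) - (1 - κ) * s)) ^ (-(2 * N : ℝ)))) := by
          rw [ENNReal.ofReal_mul ha0]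
          ring
      _ ≤ (CN : ℝ≥0∞) * ENNReal.ofReal (c0 * (κ / 2) ^ (-(2 * N : ℝ)) * s ^ (-(2 * p * N))) :=
          mul_le_mul_right (ENNReal.ofReal_le_ofReal h1) _
      _ = _ := by
          rw [ENNReal.ofReal_mul h7, ENNReal.coe_mul]
          show _ = ENNReal.ofReal (c0 * (κ / 2) ^ (-(2 * N : ℝ))) * _ * _
          ring
  obtain ⟨F2, hF2⟩ : ∃ F2, F2 = ∫⁻ t in {t | (1 - κ) * s ≤ |t|}, ‖f t‖ₑ ^ 2 := ⟨_, rfl⟩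
  obtain ⟨G, hG⟩ : ∃ G, G = ∫⁻ ξ in {ξ | (1 + δ) * L ≤ |ξ|},
    ENNReal.ofReal (ξ ^ 2) * ‖(𝓕 f) ξ‖ₑ ^ 2 := ⟨_, rfl⟩
  obtain ⟨I, hI⟩ : ∃ I, I = ∫⁻ t, ‖f t‖ₑ ^ 2 := ⟨_, rfl⟩
  obtain ⟨S, hSd⟩ : ∃ S, S = ∑' n : ℤ, (if (1 - κ) * s ≤ |x n| then ‖f (x n)‖ₑ ^ 2 else 0) :=
    ⟨_, rfl⟩
  rw [← hF2, ← hG, ← hI] at c3
  rw [← hSd] at hS
  rw [← hF2, ← hG, ← hI, ← hSd]
  have m1 : (CB : ℝ≥0∞) ≤
      ((max CB (Real.toNNReal (c0 * (κ / 2) ^ (-(2 * N : ℝ))) * CN) : ℝ≥0) : ℝ≥0∞) :=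
    ENNReal.coe_le_coe.2 (le_max_left _ _)
  have m2 : ((Real.toNNReal (c0 * (κ / 2) ^ (-(2 * N : ℝ))) * CN : ℝ≥0) : ℝ≥0∞) ≤
      ((max CB (Real.toNNReal (c0 * (κ / 2) ^ (-(2 * N : ℝ))) * CN) : ℝ≥0) : ℝ≥0∞) :=
    ENNReal.coe_le_coe.2 (le_max_right _ _)
  refine b3.trans ((add_le_add (mul_le_mul_right c3 _) (mul_le_mul_right hS _)).trans ?_)
  have e4 := mul_le_mul_left e3 I
  have e5 := mul_le_mul_left m1 S
  have e6 := mul_le_mul_left (mul_le_mul_left m2 (ENNReal.ofReal (s ^ (-(2 * p * N))))) I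
  have e7 : ENNReal.ofReal a * (ENNReal.ofReal ((1 + η) * (2 * Real.pi * (1 + 2 * δ) * L) ^ 2) * F2
      + (C : ℝ≥0∞) * G + (CN : ℝ≥0∞) * ENNReal.ofReal
      (L ^ 2 * (L * ((s - ρ / L) - (1 - κ) * s)) ^ (-(2 * N : ℝ))) * I) + (CB : ℝ≥0∞) * S =
      (ENNReal.ofReal a * ENNReal.ofReal ((1 + η) * (2 * Real.pi * (1 + 2 * δ) * L) ^ 2)) * F2 +
      (ENNReal.ofReal a * (C : ℝ≥0∞)) * G + (CB : ℝ≥0∞) * S +
      (ENNReal.ofReal a * ((CN : ℝ≥0∞) * ENNReal.ofReal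
      (L ^ 2 * (L * ((s - ρ / L) - (1 - κ) * s)) ^ (-(2 * N : ℝ))))) * I := by ring
  rw [e7, e1, e2]
  exact add_le_add (add_le_add le_rfl e5) (e4.trans e6)

end SF
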