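import Mathlib

/-!
# Strong s-frames from supercritical Fourier sampling pairs: definitions
-/

open MeasureTheory Filter Set SchwartzMap FourierTransform
open scoped ENNReal NNReal Topology

namespace SF

/-- Rapidly decreasing sequences indexed by the integers, as a subspace. -/
def rapidSub : Submodule ℂ (ℤ → ℂ) where
  carrier := {c | ∀ k : ℕ, ∃ C : ℝ, ∀ n : ℤ, (1 + |(n : ℝ)|) ^ k * ‖c n‖ ≤ C}
  zero_mem' := fun k => ⟨0, fun n => by simp⟩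
  add_mem' := by
    intro a b ha hb k
    obtain ⟨A, hA⟩ := ha k
    obtain ⟨B, hB⟩ := hb k
    refine ⟨A + B, fun n => ?_⟩
    have h0 : (0 : ℝ) ≤ (1 + |(n : ℝ)|) ^ k := by positivity
    calc (1 + |(n : ℝ)|) ^ k * ‖(a + b) n‖ ≤ (1 + |(n : ℝ)|) ^ k * (‖a n‖ + ‖b n‖) :=
          mul_le_mul_of_nonneg_left (norm_add_le _ _) h0
      _ = (1 + |(n : ℝ)|) ^ k * ‖a n‖ + (1 + |(n : ℝ)|) ^ k * ‖b n‖ := by ring
      _ ≤ A + B := add_le_add (hA n) (hB n)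
  smul_mem' := by
    intro r a ha k
    obtain ⟨A, hA⟩ := ha k
    refine ⟨‖r‖ * A, fun n => ?_⟩
    calc (1 + |(n : ℝ)|) ^ k * ‖(r • a) n‖ = ‖r‖ * ((1 + |(n : ℝ)|) ^ k * ‖a n‖) := by
          simp only [Pi.smul_apply, smul_eq_mul, norm_mul]; ring
      _ ≤ ‖r‖ * A := mul_le_mul_of_nonneg_left (hA n) (norm_nonneg r)

/-- The space `s` of rapidly decreasing sequences `(c_n)`, `n` an integer. -/
def RapidSeq : Type := rapidSub

noncomputable instance : AddCommGroup RapidSeq := inferInstanceAs (AddCommGroup rapidSub)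

noncomputable instance : Module ℂ RapidSeq := inferInstanceAs (Module ℂ rapidSub)

instance : CoeFun RapidSeq (fun _ => ℤ → ℂ) := ⟨fun c => c.1⟩

@[ext] theorem RapidSeq.ext {c d : RapidSeq} (h : ∀ n, c n = d n) : c = d :=
  Subtype.ext (funext h)

@[simp] theorem RapidSeq.add_apply (c d : RapidSeq) (n : ℤ) : (c + d) n = c n + d n := rfl

@[simp] theorem RapidSeq.smul_apply (r : ℂ) (c : RapidSeq) (n : ℤ) : (r • c) n = r * c n := rfl

@[simp] theorem RapidSeq.zero_apply (n : ℤ) : (0 : RapidSeq) n = 0 := rfl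

@[simp] theorem RapidSeq.neg_apply (c : RapidSeq) (n : ℤ) : (-c) n = - c n := rfl

@[simp] theorem RapidSeq.sub_apply (c d : RapidSeq) (n : ℤ) : (c - d) n = c n - d n := rfl

theorem RapidSeq.bddAbove (c : RapidSeq) (k : ℕ) :
    BddAbove (Set.range (fun n : ℤ => (1 + |(n : ℝ)|) ^ k * ‖c n‖)) := by
  obtain ⟨C, hC⟩ := c.2 k
  exact ⟨C, by rintro _ ⟨n, rfl⟩; exact hC n⟩

/-- The seminorm `c ↦ sup_n (1+|n|)^k |c_n|` on `s`. -/
noncomputable def RapidSeq.seminorm (k : ℕ) : Seminorm ℂ RapidSeq :=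
  Seminorm.of (fun c : RapidSeq => ⨆ n : ℤ, (1 + |(n : ℝ)|) ^ k * ‖c n‖)
    (by
      intro c d
      refine ciSup_le fun n => ?_
      have h0 : (0 : ℝ) ≤ (1 + |(n : ℝ)|) ^ k := by positivity
      calc (1 + |(n : ℝ)|) ^ k * ‖(c + d) n‖ ≤ (1 + |(n : ℝ)|) ^ k * (‖c n‖ + ‖d n‖) :=
            mul_le_mul_of_nonneg_left (norm_add_le _ _) h0
        _ = (1 + |(n : ℝ)|) ^ k * ‖c n‖ + (1 + |(n : ℝ)|) ^ k * ‖d n‖ := by ring
        _ ≤ _ := add_le_add (le_ciSup (RapidSeq.bddAbove c k) n)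
            (le_ciSup (RapidSeq.bddAbove d k) n))
    (by
      intro r c
      simp only [RapidSeq.smul_apply, norm_mul]
      rw [Real.mul_iSup_of_nonneg (norm_nonneg r)]
      congr 1
      funext n
      ring)

theorem RapidSeq.seminorm_apply (k : ℕ) (c : RapidSeq) :
    RapidSeq.seminorm k c = ⨆ n : ℤ, (1 + |(n : ℝ)|) ^ k * ‖c n‖ := rfl

theorem RapidSeq.le_seminorm (k : ℕ) (c : RapidSeq) (n : ℤ) :
    (1 + |(n : ℝ)|) ^ k * ‖c n‖ ≤ RapidSeq.seminorm k c :=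
  le_ciSup (RapidSeq.bddAbove c k) n

theorem RapidSeq.seminorm_le {k : ℕ} {c : RapidSeq} {M : ℝ}
    (h : ∀ n : ℤ, (1 + |(n : ℝ)|) ^ k * ‖c n‖ ≤ M) : RapidSeq.seminorm k c ≤ M :=
  ciSup_le h

/-- The Fréchet topology of `s`: the one generated by the seminorms `RapidSeq.seminorm k`. -/
noncomputable instance : TopologicalSpace RapidSeq :=
  SeminormFamily.moduleFilterBasis (𝕜 := ℂ) (fun k : ℕ => RapidSeq.seminorm k) |>.topology

theorem RapidSeq.withSeminorms :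
    WithSeminorms (fun k : ℕ => RapidSeq.seminorm k) := ⟨rfl⟩

instance : IsTopologicalAddGroup RapidSeq := RapidSeq.withSeminorms.topologicalAddGroup

instance : ContinuousSMul ℂ RapidSeq := RapidSeq.withSeminorms.continuousSMul

/-- One of the two sequences of a supercritical pair: `x` is non-decreasing, `|x_n| → ∞` as
`|n| → ∞`, and `limsup_{|n| → ∞} |x_n|^(p-1) |x_{n+1} - x_n| < 1/2`. The limit superior is
taken in the extended reals. -/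
def Supercritical (p : ℝ) (x : ℤ → ℝ) : Prop :=
  Monotone x ∧ Tendsto (fun n => |x n|) cofinite atTop ∧
    Filter.limsup (fun n : ℤ => ((|x n| ^ (p - 1) * |x (n + 1) - x n| : ℝ) : EReal)) cofinite
      < (((1 : ℝ) / 2 : ℝ) : EReal)

/-- `R` is the analysis operator of the pair `(x, y)`:
`R f = ((f(x_n))_n, (𝓕 f (y_n))_n)`. -/
def IsAnalysis (x y : ℤ → ℝ) (R : 𝓢(ℝ, ℂ) →ₗ[ℂ] RapidSeq × RapidSeq) : Prop :=
  ∀ (f : 𝓢(ℝ, ℂ)) (n : ℤ), (R f).1 n = f (x n) ∧ (R f).2 n = (𝓕 f) (y n)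

/-- The functionals `δ_{x_n}`, `δ_{y_n} ∘ 𝓕` form an `s`-frame: the analysis operator maps the
Schwartz space into `s ⊕ s` and is a topological isomorphism onto its range. -/
def IsSFrame (x y : ℤ → ℝ) : Prop :=
  ∃ R : 𝓢(ℝ, ℂ) →ₗ[ℂ] RapidSeq × RapidSeq, IsAnalysis x y R ∧ Topology.IsEmbedding R

/-- The `s`-frame is strong: moreover the range of the analysis operator is complemented, and
the analysis operator has a continuous linear left inverse. -/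
def IsStrongSFrame (x y : ℤ → ℝ) : Prop :=
  ∃ R : 𝓢(ℝ, ℂ) →ₗ[ℂ] RapidSeq × RapidSeq, IsAnalysis x y R ∧ Topology.IsEmbedding R ∧
    (LinearMap.range R).ClosedComplemented ∧
    ∃ L : RapidSeq × RapidSeq →L[ℂ] 𝓢(ℝ, ℂ), ∀ f : 𝓢(ℝ, ℂ), L (R f) = f

/-! ### Auxiliary notions used in the proof -/

/-- Normalised form of supercriticality. -/
def GoodNodes (p ρ R : ℝ) (x : ℤ → ℝ) : Prop :=
  Monotone x ∧ Tendsto x atTop atTop ∧ Tendsto x atBot atBot ∧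
  (∀ n, R ≤ x (n + 1) → (x (n + 1) - x n) * (x (n + 1)) ^ (p - 1) ≤ ρ) ∧
  (∀ n, x n ≤ -R → (x (n + 1) - x n) * |x n| ^ (p - 1) ≤ ρ)

/-- The weight `t ↦ t^k min(t,T)^j`. -/
noncomputable def wt (k j : ℕ) (T t : ℝ) : ℝ := t ^ k * (min t T) ^ j

/-- The weight `x ↦ wt (max(1,|x|)^r)`. -/
noncomputable def W (r : ℝ) (k j : ℕ) (T x : ℝ) : ℝ := wt k j T ((max 1 |x|) ^ r)

/-- The weighted `ℓ^1` quantity on `s ⊕ s`. -/
noncomputable def Q (p q : ℝ) (x y : ℤ → ℝ) (k j : ℕ) (T : ℝ) (c : RapidSeq × RapidSeq) : ℝ :=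
  (∑' n : ℤ, W p k j T (x n) * ‖c.1 n‖) + (∑' n : ℤ, W q k j T (y n) * ‖c.2 n‖)

/-- The limiting weighted `ℓ^1` quantity on `s ⊕ s`. -/
noncomputable def QI (p q : ℝ) (x y : ℤ → ℝ) (m : ℕ) (c : RapidSeq × RapidSeq) : ℝ :=
  (∑' n : ℤ, ((max 1 |x n|) ^ p) ^ m * ‖c.1 n‖) + (∑' n : ℤ, ((max 1 |y n|) ^ q) ^ m * ‖c.2 n‖)

/-- The weighted `L^2` quantity on Schwartz functions. -/
noncomputable def NW (p q : ℝ) (k j : ℕ) (T : ℝ) (f : 𝓢(ℝ, ℂ)) : ℝ :=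
  Real.sqrt (∫ t, W p k j T t ^ 2 * ‖f t‖ ^ 2) + Real.sqrt (∫ ξ, W q k j T ξ ^ 2 * ‖(𝓕 f) ξ‖ ^ 2)

/-- The scale attached to the index `(i, l)`. -/
noncomputable def Tsc (p q : ℝ) (i : ℤ × ℤ) : ℝ :=
  max ((max 1 (|(i.1 : ℝ)| / 4)) ^ p) ((max 1 |(i.2 : ℝ)|) ^ q)

end SF
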