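import Pool.Agent.N246.SF.Defs

/-!
# Project SF, piece E1 (helper897): calculus of the radial weight
-/

set_option autoImplicit false

open MeasureTheory Filter Set SchwartzMap FourierTransform
open scoped ENNReal NNReal Topology

namespace SF.E1aux

/-- one piece -/
theorem piece {r X c e : ℝ} (hr : 0 < r) (hrX : r ≤ X) (hc : 0 ≤ c) (he : 0 < e) :
    ∫⁻ s in Icc r X, ENNReal.ofReal (c * s ^ (e - 1)) =
      ENNReal.ofReal (c / e * (X ^ e - r ^ e)) := by
  have hcont : ContinuousOn (fun s : ℝ => c * s ^ (e - 1)) (Icc r X) := by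
    intro s hs
    have : s ≠ 0 := (hr.trans_le hs.1).ne'
    exact ((Real.continuousAt_rpow_const s (e - 1) (Or.inl this)).const_mul c).continuousWithinAt
  have hint : IntegrableOn (fun s : ℝ => c * s ^ (e - 1)) (Icc r X) :=
    hcont.integrableOn_compact isCompact_Icc
  rw [← ofReal_integral_eq_lintegral_ofReal hint]
  · congr 1
    rw [integral_Icc_eq_integral_Ioc, ← intervalIntegral.integral_of_le hrX,
      intervalIntegral.integral_const_mul, integral_rpow]
    · rw [sub_add_cancel]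
      ring
    · right
      refine ⟨by linarith, ?_⟩
      rw [uIcc_of_le hrX]
      intro h
      exact absurd h.1 (not_le.2 hr)
  · rw [EventuallyLE, ae_restrict_iff' measurableSet_Icc]
    refine Eventually.of_forall fun s hs => ?_
    have : 0 ≤ s := hr.le.trans hs.1
    positivity

/-- one piece, with a power -/
theorem piece2 {r X C E q : ℝ} (hr : 0 < r) (hrX : r ≤ X) (hC : 0 ≤ C) (hE : 0 < E) (hq : q < E) :
    ∫⁻ s in Icc r X, ENNReal.ofReal (E * C * s ^ (E - 1) * s ^ (-q)) =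
      ENNReal.ofReal (E / (E - q) * (C * X ^ E * X ^ (-q) - C * r ^ E * r ^ (-q))) := by
  have hX : 0 < X := hr.trans_le hrX
  have h1 : ∫⁻ s in Icc r X, ENNReal.ofReal (E * C * s ^ (E - 1) * s ^ (-q)) =
      ∫⁻ s in Icc r X, ENNReal.ofReal (E * C * s ^ (E - q - 1)) := by
    apply setLIntegral_congr_fun measurableSet_Icc
    intro s hs
    have hs0 : 0 < s := hr.trans_le hs.1
    simp only
    rw [mul_assoc, ← Real.rpow_add hs0]
    congr 3
    ring
  rw [h1, piece hr hrX (by positivity) (by linarith)]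
  congr 1
  rw [mul_assoc C, ← Real.rpow_add hX, mul_assoc C, ← Real.rpow_add hr, ← sub_eq_add_neg]
  ring

/-- the pieces are monotone -/
theorem piece_mono {r X C E q : ℝ} (hr : 0 < r) (hrX : r ≤ X) (hC : 0 ≤ C) (hq : q < E) :
    C * r ^ E * r ^ (-q) ≤ C * X ^ E * X ^ (-q) := by
  have hX : 0 < X := hr.trans_le hrX
  rw [mul_assoc C, mul_assoc C, ← Real.rpow_add hr, ← Real.rpow_add hX]
  exact mul_le_mul_of_nonneg_left (Real.rpow_le_rpow hr.le hrX (by linarith)) hC

/-- additivity -/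
theorem add_pieces {h : ℝ → ℝ≥0∞} {r c X : ℝ} (h1 : r ≤ c) (h2 : c ≤ X) :
    ∫⁻ s in Icc r X, h s = (∫⁻ s in Icc r c, h s) + ∫⁻ s in Icc c X, h s := by
  rw [← Icc_union_Ioc_eq_Icc h1 h2, lintegral_union measurableSet_Ioc]
  · congr 1
    exact setLIntegral_congr Ioc_ae_eq_Icc
  · rw [Set.disjoint_left]
    intro s hs1 hs2
    exact absurd hs1.2 (not_le.2 hs2.1)

end SF.E1aux

namespace SF

open SF.E1aux

/-- E1 -/
theorem E1_weight {p : ℝ} (hp : 1 < p) (k j : ℕ) (hk : 2 ≤ k) {T : ℝ} (hT : 1 ≤ T) :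
    ∃ a : ℝ → ℝ, Measurable a ∧ (∀ s, 0 ≤ a s) ∧
    (∀ r X : ℝ, 1 ≤ r → r ≤ X →
      ∫⁻ s in Icc r X, ENNReal.ofReal (a s) =
        ENNReal.ofReal (wt k j T (X ^ p) ^ 2 - wt k j T (r ^ p) ^ 2)) ∧
    (∀ r X : ℝ, 1 ≤ r → r ≤ X →
      ∫⁻ s in Icc r X, ENNReal.ofReal (a s * s ^ (-(2 * (p - 1)))) ≤
        ENNReal.ofReal (2 * wt k j T (X ^ p) ^ 2 * X ^ (-(2 * (p - 1))))) ∧
    (∫⁻ s in Ici 1, ENNReal.ofReal (a s * s ^ (-(2 * p * ((k + j + 1 : ℕ) : ℝ)))) ≤
        ENNReal.ofReal ((k + j : ℕ) : ℝ)) := by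
  have hp0 : 0 < p := by linarith
  have hT0 : 0 < T := by linarith
  have hkR : (2 : ℝ) ≤ k := by exact_mod_cast hk
  set m : ℝ := ((k + j : ℕ) : ℝ) with hm
  have hmk : (k : ℝ) ≤ m := by
    rw [hm]
    push_cast
    linarith [(Nat.cast_nonneg j : (0 : ℝ) ≤ j)]
  set s0 : ℝ := T ^ (1 / p) with hs0
  have s0pos : 0 < s0 := Real.rpow_pos_of_pos hT0 _
  have s0p : s0 ^ p = T := by
    rw [hs0, ← Real.rpow_mul hT0.le, one_div, inv_mul_cancel₀ hp0.ne', Real.rpow_one]
  have le1 : ∀ s : ℝ, 0 < s → s ≤ s0 → s ^ p ≤ T := by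
    intro s hs h
    rw [← s0p]
    exact Real.rpow_le_rpow hs.le h hp0.le
  have le2 : ∀ s : ℝ, s0 ≤ s → T ≤ s ^ p := by
    intro s h
    rw [← s0p]
    exact Real.rpow_le_rpow s0pos.le h hp0.le
  -- the weight
  have W1 : ∀ s : ℝ, 0 < s → s ≤ s0 → wt k j T (s ^ p) ^ 2 = s ^ (2 * p * m) := by
    intro s hs h
    unfold wt
    rw [min_eq_left (le1 s hs h), ← pow_add, ← pow_mul, ← Real.rpow_natCast, ← Real.rpow_mul hs.le]
    congr 1
    rw [hm]
    push_cast
    ring
  have W2 : ∀ s : ℝ, 0 < s → s0 ≤ s → wt k j T (s ^ p) ^ 2 = T ^ (2 * j) * s ^ (2 * p * k) := by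
    intro s hs h
    unfold wt
    rw [min_eq_right (le2 s h), mul_pow, ← pow_mul, ← pow_mul, ← Real.rpow_natCast (s ^ p),
      ← Real.rpow_mul hs.le, mul_comm, mul_comm j 2]
    congr 2
    push_cast
    ring
  set a : ℝ → ℝ := fun s => if s ≤ 0 then 0 else if s < s0 then 2 * p * m * s ^ (2 * p * m - 1)
    else 2 * p * k * T ^ (2 * j) * s ^ (2 * p * k - 1) with ha
  have a1 : ∀ s : ℝ, 0 < s → s < s0 → a s = 2 * p * m * s ^ (2 * p * m - 1) := by
    intro s h1 h2
    simp only [ha]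
    rw [if_neg (not_le.2 h1), if_pos h2]
  have a2 : ∀ s : ℝ, 0 < s → s0 ≤ s → a s = 2 * p * k * T ^ (2 * j) * s ^ (2 * p * k - 1) := by
    intro s h1 h2
    simp only [ha]
    rw [if_neg (not_le.2 h1), if_neg (not_lt.2 h2)]
  have anon : ∀ s, 0 ≤ a s := by
    intro s
    simp only [ha]
    split_ifs with h1 h2
    · exact le_rfl
    · push Not at h1
      positivity
    · push Not at h1
      positivity
  have mpos : 0 < m := by linarith
  have Kpos : 0 < 2 * p * (k : ℝ) := by positivity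
  have KM : 2 * p * (k : ℝ) ≤ 2 * p * m := by nlinarith
  -- pieces
  have key : ∀ (q : ℝ), 0 ≤ q → q < 2 * p * k → ∀ r X : ℝ, 1 ≤ r → r ≤ X →
      (X ≤ s0 ∨ s0 ≤ r) →
      ∃ E : ℝ, 2 * p * k ≤ E ∧ wt k j T (r ^ p) ^ 2 * r ^ (-q) ≤ wt k j T (X ^ p) ^ 2 * X ^ (-q) ∧
      ∫⁻ s in Icc r X, ENNReal.ofReal (a s * s ^ (-q)) =
        ENNReal.ofReal (E / (E - q) *
          (wt k j T (X ^ p) ^ 2 * X ^ (-q) - wt k j T (r ^ p) ^ 2 * r ^ (-q))) := by
    intro q hq0 hq r X hr hrX hcase
    have hr0 : 0 < r := by linarith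
    have hX0 : 0 < X := by linarith
    rcases hcase with h | h
    · refine ⟨2 * p * m, KM, ?_, ?_⟩
      · rw [W1 r hr0 (hrX.trans h), W1 X hX0 h]
        have := piece_mono (C := 1) (E := 2 * p * m) (q := q) hr0 hrX zero_le_one (by linarith)
        rwa [one_mul, one_mul] at this
      · rw [W1 r hr0 (hrX.trans h), W1 X hX0 h]
        have h1 := piece2 (C := 1) (E := 2 * p * m) (q := q) hr0 hrX zero_le_one (by linarith)
          (by linarith)
        simp only [mul_one, one_mul] at h1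
        rw [← h1, ← setLIntegral_congr (Ico_ae_eq_Icc (a := r) (b := X)),
          ← setLIntegral_congr (Ico_ae_eq_Icc (a := r) (b := X))]
        apply setLIntegral_congr_fun measurableSet_Ico
        intro s hs
        simp only
        rw [a1 s (hr0.trans_le hs.1) (hs.2.trans_le h)]
    · refine ⟨2 * p * k, le_rfl, ?_, ?_⟩
      · rw [W2 r hr0 h, W2 X hX0 (h.trans hrX)]
        exact piece_mono hr0 hrX (by positivity) hq
      · rw [W2 r hr0 h, W2 X hX0 (h.trans hrX), ← piece2 hr0 hrX (by positivity) Kpos hq]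
        apply setLIntegral_congr_fun measurableSet_Icc
        intro s hs
        simp only
        rw [a2 s (hr0.trans_le hs.1) (h.trans hs.1)]
  have Vnon : ∀ (q r : ℝ), 0 < r → 0 ≤ wt k j T (r ^ p) ^ 2 * r ^ (-q) := fun q r hr => by
    positivity
  refine ⟨a, ?_, anon, ?_, ?_, ?_⟩
  · refine Measurable.ite measurableSet_Iic measurable_const (Measurable.ite measurableSet_Iio ?_ ?_)
    · exact (measurable_id.pow_const _).const_mul _
    · exact (measurable_id.pow_const _).const_mul _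
  · -- the integral of `a`
    have h0 : ∀ r X : ℝ, 1 ≤ r → r ≤ X → (X ≤ s0 ∨ s0 ≤ r) →
        wt k j T (r ^ p) ^ 2 ≤ wt k j T (X ^ p) ^ 2 ∧ ∫⁻ s in Icc r X, ENNReal.ofReal (a s) =
        ENNReal.ofReal (wt k j T (X ^ p) ^ 2 - wt k j T (r ^ p) ^ 2) := by
      intro r X hr hrX hc
      obtain ⟨E, hE, h1, h2⟩ := key 0 le_rfl Kpos r X hr hrX hc
      simp only [neg_zero, Real.rpow_zero, mul_one, sub_zero] at h1 h2
      rw [div_self (by linarith : 0 < E).ne', one_mul] at h2
      exact ⟨h1, h2⟩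
    intro r X hr hrX
    by_cases c1 : X ≤ s0
    · exact (h0 r X hr hrX (Or.inl c1)).2
    by_cases c2 : s0 ≤ r
    · exact (h0 r X hr hrX (Or.inr c2)).2
    push Not at c1 c2
    obtain ⟨g1, g2⟩ := h0 r s0 hr c2.le (Or.inl le_rfl)
    obtain ⟨g3, g4⟩ := h0 s0 X (by linarith) c1.le (Or.inr le_rfl)
    rw [add_pieces c2.le c1.le, g2, g4, ← ENNReal.ofReal_add (by linarith) (by linarith)]
    congr 1
    ring
  · -- the second integral
    set q := 2 * (p - 1) with hqdef
    have hq0 : 0 ≤ q := by rw [hqdef]; linarith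
    have hqK : 2 * q ≤ 2 * p * k := by
      rw [hqdef]
      nlinarith
    have hq : q < 2 * p * k := by linarith
    have h0 : ∀ r X : ℝ, 1 ≤ r → r ≤ X → (X ≤ s0 ∨ s0 ≤ r) →
        wt k j T (r ^ p) ^ 2 * r ^ (-q) ≤ wt k j T (X ^ p) ^ 2 * X ^ (-q) ∧
        ∫⁻ s in Icc r X, ENNReal.ofReal (a s * s ^ (-q)) ≤
        ENNReal.ofReal (2 * (wt k j T (X ^ p) ^ 2 * X ^ (-q) - wt k j T (r ^ p) ^ 2 * r ^ (-q))) := by
      intro r X hr hrX hc
      obtain ⟨E, hE, h1, h2⟩ := key q hq0 hq r X hr hrX hc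
      refine ⟨h1, ?_⟩
      rw [h2]
      apply ENNReal.ofReal_le_ofReal
      refine mul_le_mul_of_nonneg_right ?_ (by linarith)
      rw [div_le_iff₀ (by linarith)]
      linarith
    intro r X hr hrX
    have hfin : ∀ r' : ℝ, 0 < r' →
        ENNReal.ofReal (2 * (wt k j T (X ^ p) ^ 2 * X ^ (-q) - wt k j T (r' ^ p) ^ 2 * r' ^ (-q))) ≤
        ENNReal.ofReal (2 * wt k j T (X ^ p) ^ 2 * X ^ (-q)) := by
      intro r' hr'
      apply ENNReal.ofReal_le_ofReal
      have := Vnon q r' hr'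
      nlinarith
    by_cases c1 : X ≤ s0
    · exact ((h0 r X hr hrX (Or.inl c1)).2).trans (hfin r (by linarith))
    by_cases c2 : s0 ≤ r
    · exact ((h0 r X hr hrX (Or.inr c2)).2).trans (hfin r (by linarith))
    push Not at c1 c2
    obtain ⟨g1, g2⟩ := h0 r s0 hr c2.le (Or.inl le_rfl)
    obtain ⟨g3, g4⟩ := h0 s0 X (by linarith) c1.le (Or.inr le_rfl)
    rw [add_pieces c2.le c1.le]
    refine (add_le_add g2 g4).trans ?_
    rw [← ENNReal.ofReal_add (by linarith) (by linarith)]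
    refine le_trans (le_of_eq ?_) (hfin r (by linarith))
    congr 1
    ring
  · -- the last integral
    have hb : ∀ s : ℝ, 1 ≤ s → a s * s ^ (-(2 * p * ((k + j + 1 : ℕ) : ℝ))) ≤
        2 * p * m * s ^ (-(2 * p) - 1) := by
      intro s hs
      have hs0 : 0 < s := by linarith
      have h1 : a s ≤ 2 * p * m * s ^ (2 * p * m - 1) := by
        rcases lt_or_ge s s0 with h | h
        · exact (a1 s hs0 h).le
        · rw [a2 s hs0 h]
          have h2 : T ^ (2 * j) ≤ s ^ (2 * p * j) := by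
            calc T ^ (2 * j) ≤ (s ^ p) ^ (2 * j) := pow_le_pow_left₀ hT0.le (le2 s h) _
              _ = s ^ (2 * p * j) := by
                rw [← Real.rpow_natCast, ← Real.rpow_mul hs0.le]
                congr 1
                push_cast
                ring
          have e : s ^ (2 * p * m - 1) = s ^ (2 * p * j) * s ^ (2 * p * k - 1) := by
            rw [← Real.rpow_add hs0, hm]
            congr 1
            push_cast
            ring
          rw [e]
          have h3 : 0 < s ^ (2 * p * k - 1) := Real.rpow_pos_of_pos hs0 _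
          calc 2 * p * k * T ^ (2 * j) * s ^ (2 * p * k - 1)
              ≤ 2 * p * m * s ^ (2 * p * j) * s ^ (2 * p * k - 1) := by
                refine mul_le_mul_of_nonneg_right ?_ h3.le
                exact mul_le_mul KM h2 (by positivity) (by positivity)
            _ = _ := by ring
      calc a s * s ^ (-(2 * p * ((k + j + 1 : ℕ) : ℝ)))
          ≤ 2 * p * m * s ^ (2 * p * m - 1) * s ^ (-(2 * p * ((k + j + 1 : ℕ) : ℝ))) :=
            mul_le_mul_of_nonneg_right h1 (Real.rpow_nonneg hs0.le _)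
        _ = 2 * p * m * s ^ (-(2 * p) - 1) := by
          rw [mul_assoc, ← Real.rpow_add hs0]
          congr 2
          rw [hm]
          push_cast
          ring
    calc ∫⁻ s in Ici 1, ENNReal.ofReal (a s * s ^ (-(2 * p * ((k + j + 1 : ℕ) : ℝ))))
        ≤ ∫⁻ s in Ici 1, ENNReal.ofReal (2 * p * m * s ^ (-(2 * p) - 1)) :=
          setLIntegral_mono' measurableSet_Ici (fun s hs => ENNReal.ofReal_le_ofReal (hb s hs))
      _ = ∫⁻ s in Ioi 1, ENNReal.ofReal (2 * p * m * s ^ (-(2 * p) - 1)) :=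
          (setLIntegral_congr Ioi_ae_eq_Ici).symm
      _ = ENNReal.ofReal m := by
        have hint : IntegrableOn (fun s : ℝ => 2 * p * m * s ^ (-(2 * p) - 1)) (Ioi 1) :=
          (integrableOn_Ioi_rpow_of_lt (by linarith) one_pos).const_mul _
        rw [← ofReal_integral_eq_lintegral_ofReal hint]
        · congr 1
          rw [integral_const_mul, integral_Ioi_rpow_of_lt (by linarith) one_pos, Real.one_rpow]
          have : (2 * p) ≠ 0 := by positivity
          field_simp
          ring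
        · rw [EventuallyLE, ae_restrict_iff' measurableSet_Ioi]
          refine Eventually.of_forall fun s hs => ?_
          have : 0 ≤ s := by
            have : (1 : ℝ) < s := hs
            linarith
          have := Real.rpow_nonneg this (-(2 * p) - 1)
          show 0 ≤ 2 * p * m * s ^ (-(2 * p) - 1)
          positivity
      _ ≤ ENNReal.ofReal m := le_rfl

end SF
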