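import Pool.Agent.N246.SF.Defs

/-!
# E2: elementary growth of the weights
-/

open MeasureTheory Filter Set SchwartzMap FourierTransform
open scoped ENNReal NNReal Topology

namespace SF.E2aux

theorem wt_mono {k j : ℕ} {T t t' : ℝ} (hT : 0 ≤ T) (h0 : 0 ≤ t) (h : t ≤ t') :
    wt k j T t ≤ wt k j T t' := by
  unfold wt
  have h1 : 0 ≤ min t T := le_min h0 hT
  have h2 : min t T ≤ min t' T := min_le_min_right _ h
  exact mul_le_mul (pow_le_pow_left₀ h0 h k) (pow_le_pow_left₀ h1 h2 j) (by positivity)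
    (pow_nonneg (h0.trans h) k)

theorem wt_le {k j : ℕ} {T t : ℝ} (hT : 0 ≤ T) (h0 : 0 ≤ t) : wt k j T t ≤ t ^ (k + j) := by
  unfold wt
  rw [pow_add]
  exact mul_le_mul_of_nonneg_left (pow_le_pow_left₀ (le_min h0 hT) (min_le_left _ _) j)
    (pow_nonneg h0 k)

theorem le_wt {k j : ℕ} {T t : ℝ} (hT : 1 ≤ T) (h0 : 1 ≤ t) : t ^ k ≤ wt k j T t := by
  unfold wt
  exact le_mul_of_one_le_right (by positivity) (one_le_pow₀ (le_min h0 hT))

theorem wt_nonneg {k j : ℕ} {T t : ℝ} (hT : 0 ≤ T) (h0 : 0 ≤ t) : 0 ≤ wt k j T t := by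
  unfold wt
  exact mul_nonneg (pow_nonneg h0 k) (pow_nonneg (le_min h0 hT) j)

theorem base_pos (x r : ℝ) : 0 < (max 1 |x|) ^ r :=
  Real.rpow_pos_of_pos (lt_of_lt_of_le one_pos (le_max_left _ _)) r

theorem one_le_base {r : ℝ} (hr : 0 ≤ r) (x : ℝ) : 1 ≤ (max 1 |x|) ^ r :=
  Real.one_le_rpow (le_max_left _ _) hr

end SF.E2aux

namespace SF

open E2aux

theorem E2_growth (k j : ℕ) {T : ℝ} (hT : 1 ≤ T) :
    (∀ t lam : ℝ, 0 ≤ t → 1 ≤ lam → wt k j T (lam * t) ≤ lam ^ (k + j) * wt k j T t) ∧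
    (∀ t lam : ℝ, 0 ≤ t → 1 ≤ lam → lam ^ k * wt k j T (t / lam) ≤ wt k j T t) ∧
    (∀ t t' : ℝ, 0 ≤ t → t ≤ t' → wt k j T t ≤ wt k j T t') ∧
    (∀ t : ℝ, 1 ≤ t → t ^ k ≤ wt k j T t) ∧ wt k j T T = T ^ (k + j) ∧
    (∀ t : ℝ, 0 ≤ t → wt k j T t ≤ t ^ (k + j)) ∧
    (∀ (t : ℝ) (l : ℕ), 0 ≤ t → l ≤ j → wt k j T t ≤ t ^ (k + l) * T ^ (j - l)) := by
  have hT0 : 0 ≤ T := by linarith
  refine ⟨?_, ?_, fun t t' h0 h => wt_mono hT0 h0 h, fun t ht => le_wt hT ht, ?_,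
    fun t h0 => wt_le hT0 h0, ?_⟩
  · intro t lam ht hl
    have hl0 : 0 ≤ lam := by linarith
    have h1 : min (lam * t) T ≤ lam * min t T := by
      rw [mul_min_of_nonneg _ _ hl0]
      exact min_le_min_left _ (le_mul_of_one_le_left hT0 hl)
    have h0 : 0 ≤ min (lam * t) T := le_min (mul_nonneg hl0 ht) hT0
    unfold wt
    calc (lam * t) ^ k * min (lam * t) T ^ j ≤ (lam * t) ^ k * (lam * min t T) ^ j :=
          mul_le_mul_of_nonneg_left (pow_le_pow_left₀ h0 h1 j)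
            (pow_nonneg (mul_nonneg hl0 ht) k)
      _ = lam ^ (k + j) * (t ^ k * min t T ^ j) := by
          rw [mul_pow, mul_pow, pow_add]; ring
  · intro t lam ht hl
    have hl0 : 0 < lam := by linarith
    have h1 : t / lam ≤ t := div_le_self ht hl
    have h2 : min (t / lam) T ≤ min t T := min_le_min_right _ h1
    have h3 : 0 ≤ min (t / lam) T := le_min (div_nonneg ht hl0.le) hT0
    unfold wt
    rw [← mul_assoc, ← mul_pow, mul_div_cancel₀ _ hl0.ne']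
    exact mul_le_mul_of_nonneg_left (pow_le_pow_left₀ h3 h2 j) (pow_nonneg ht k)
  · unfold wt
    rw [min_self, pow_add]
  · intro t l ht hl
    unfold wt
    have h0 : 0 ≤ min t T := le_min ht hT0
    have e : j = l + (j - l) := by omega
    calc t ^ k * min t T ^ j = t ^ k * (min t T ^ l * min t T ^ (j - l)) := by
          rw [← pow_add, ← e]
      _ ≤ t ^ k * (t ^ l * T ^ (j - l)) := by
          refine mul_le_mul_of_nonneg_left ?_ (pow_nonneg ht k)
          exact mul_le_mul (pow_le_pow_left₀ h0 (min_le_left _ _) l)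
            (pow_le_pow_left₀ h0 (min_le_right _ _) _) (pow_nonneg h0 _) (pow_nonneg ht l)
      _ = t ^ (k + l) * T ^ (j - l) := by rw [pow_add, mul_assoc]

theorem W_neg (r : ℝ) (k j : ℕ) (T x : ℝ) : W r k j T (-x) = W r k j T x := by
  unfold W
  rw [abs_neg]

theorem W_nonneg {T : ℝ} (hT : 0 ≤ T) (r : ℝ) (k j : ℕ) (x : ℝ) : 0 ≤ W r k j T x := by
  unfold W
  exact wt_nonneg hT (base_pos x r).le

theorem W_le {T : ℝ} (hT : 1 ≤ T) (r : ℝ) (k j : ℕ) (x : ℝ) :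
    W r k j T x ≤ ((max 1 |x|) ^ r) ^ (k + j) := by
  unfold W
  exact wt_le (by linarith) (base_pos x r).le

theorem le_W {T r : ℝ} (hT : 1 ≤ T) (hr : 0 ≤ r) (k j : ℕ) (x : ℝ) :
    ((max 1 |x|) ^ r) ^ k ≤ W r k j T x := by
  unfold W
  exact le_wt hT (one_le_base hr x)

theorem one_le_W {T r : ℝ} (hT : 1 ≤ T) (hr : 0 ≤ r) (k j : ℕ) (x : ℝ) : 1 ≤ W r k j T x :=
  (one_le_pow₀ (one_le_base hr x)).trans (le_W hT hr k j x)

theorem continuous_W {r : ℝ} (hr : 0 ≤ r) (k j : ℕ) (T : ℝ) : Continuous (W r k j T) := by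
  unfold W wt
  have h1 : Continuous fun x : ℝ => (max 1 |x|) ^ r :=
    (continuous_const.max continuous_abs).rpow_const fun x => Or.inr hr
  exact (h1.pow k).mul ((h1.min continuous_const).pow j)

theorem measurable_W (r : ℝ) (k j : ℕ) (T : ℝ) : Measurable (W r k j T) := by
  unfold W wt
  have h1 : Measurable fun x : ℝ => (max 1 |x|) ^ r :=
    (measurable_const.max continuous_abs.measurable).pow_const r
  exact (h1.pow_const k).mul ((h1.min measurable_const).pow_const j)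

end SF
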