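import Pool.Agent.N246.SF.Defs
import Pool.Agent.N246.SF.E1
import Pool.Agent.N246.SF.E2

/-!
# Project SF: the layer-cake lemma
-/

open MeasureTheory Filter Set SchwartzMap FourierTransform
open scoped ENNReal NNReal Topology

namespace SF

namespace E3aux

/-- the integral over the superlevel set -/
noncomputable def I (F : ℝ → ℝ≥0∞) (φ : ℝ → ℝ) (s : ℝ) : ℝ≥0∞ := ∫⁻ t in {t | s ≤ φ t}, F t

section tonelli

variable {F a : ℝ → ℝ≥0∞} {φ : ℝ → ℝ}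

lemma meas_set (hφ : Measurable φ) (s : ℝ) : MeasurableSet {t | s ≤ φ t} :=
  measurableSet_le measurable_const hφ

lemma meas_ind (hF : Measurable F) (hφ : Measurable φ) :
    Measurable fun p : ℝ × ℝ => {t | p.1 ≤ φ t}.indicator F p.2 := by
  have h : (fun p : ℝ × ℝ => {t | p.1 ≤ φ t}.indicator F p.2) =
      {p : ℝ × ℝ | p.1 ≤ φ p.2}.indicator fun p => F p.2 := by
    funext p
    rfl
  rw [h]
  exact (hF.comp measurable_snd).indicator
    (measurableSet_le measurable_fst (hφ.comp measurable_snd))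

lemma I_eq (hφ : Measurable φ) (s : ℝ) : I F φ s = ∫⁻ t, {t | s ≤ φ t}.indicator F t := by
  unfold I
  rw [lintegral_indicator (meas_set hφ s)]

lemma I_meas (hF : Measurable F) (hφ : Measurable φ) : Measurable (I F φ) := by
  have h : I F φ = fun s => ∫⁻ t, {t | s ≤ φ t}.indicator F t := funext fun s => I_eq hφ s
  rw [h]
  exact (meas_ind hF hφ).lintegral_prod_right'

lemma half {R X : ℝ} (c : ℝ≥0∞) (ha : Measurable a) :
    ∫⁻ s in Ici R, a s * (if s ≤ X then c else 0) = c * ∫⁻ s in Icc R X, a s := by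
  have h : (fun s => a s * (if s ≤ X then c else 0)) = (Iic X).indicator fun s => a s * c := by
    funext s
    by_cases hs : s ≤ X
    · rw [if_pos hs, indicator_of_mem (show s ∈ Iic X from hs)]
    · rw [if_neg hs, mul_zero, indicator_of_notMem (show s ∉ Iic X from hs)]
  rw [h, lintegral_indicator measurableSet_Iic, Measure.restrict_restrict measurableSet_Iic,
    Iic_inter_Ici, lintegral_mul_const _ ha, mul_comm]

lemma tonelli {R : ℝ} (ha : Measurable a) (hF : Measurable F) (hφ : Measurable φ) :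
    ∫⁻ s in Ici R, a s * I F φ s = ∫⁻ t, F t * ∫⁻ s in Icc R (φ t), a s := by
  have hm := meas_ind hF hφ
  have h1 : ∀ s, a s * I F φ s = ∫⁻ t, a s * {t | s ≤ φ t}.indicator F t := by
    intro s
    rw [I_eq hφ, lintegral_const_mul]
    exact hF.indicator (meas_set hφ s)
  simp_rw [h1]
  rw [lintegral_lintegral_swap]
  · refine lintegral_congr fun t => ?_
    rw [← half (F t) ha]
    refine lintegral_congr fun s => ?_
    congr 1
  · exact ((ha.comp measurable_fst).mul hm).aemeasurable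

end tonelli

lemma ofReal_const_mul {x y : ℝ} (hx : 0 ≤ x) : ENNReal.ofReal (x * y) =
    ENNReal.ofReal x * ENNReal.ofReal y := ENNReal.ofReal_mul hx

theorem main {p q : ℝ} (hp : 1 < p) (hq : 1 < q) (hpq : 1 / p + 1 / q = 1)
    {θ δ κ R1 : ℝ} (hθ : 0 ≤ θ) (hδ : 0 < δ) (hκ : 0 < κ) (hκ1 : κ ≤ 1 / 2) (hR1 : 2 ≤ R1)
    (k j : ℕ)
    (E1 : ∀ {T : ℝ}, 1 ≤ T → ∃ a : ℝ → ℝ, Measurable a ∧ (∀ s, 0 ≤ a s) ∧
      (∀ r X : ℝ, 1 ≤ r → r ≤ X →
        ∫⁻ s in Icc r X, ENNReal.ofReal (a s) =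
          ENNReal.ofReal (wt k j T (X ^ p) ^ 2 - wt k j T (r ^ p) ^ 2)) ∧
      (∀ r X : ℝ, 1 ≤ r → r ≤ X →
        ∫⁻ s in Icc r X, ENNReal.ofReal (a s * s ^ (-(2 * (p - 1)))) ≤
          ENNReal.ofReal (2 * wt k j T (X ^ p) ^ 2 * X ^ (-(2 * (p - 1))))) ∧
      (∫⁻ s in Ici 1, ENNReal.ofReal (a s * s ^ (-(2 * p * ((k + j + 1 : ℕ) : ℝ)))) ≤
          ENNReal.ofReal ((k + j : ℕ) : ℝ)))
    (E2 : ∀ {T : ℝ}, 1 ≤ T →
      (∀ t lam : ℝ, 0 ≤ t → 1 ≤ lam → wt k j T (lam * t) ≤ lam ^ (k + j) * wt k j T t) ∧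
      (∀ t lam : ℝ, 0 ≤ t → 1 ≤ lam → lam ^ k * wt k j T (t / lam) ≤ wt k j T t) ∧
      (∀ t t' : ℝ, 0 ≤ t → t ≤ t' → wt k j T t ≤ wt k j T t') ∧
      (∀ t : ℝ, 0 ≤ t → wt k j T t ≤ t ^ (k + j)))
    (C1 C2 : ℝ≥0) : ∃ C3 : ℝ≥0, ∀ T : ℝ, 1 ≤ T →
    ∀ (F G : ℝ → ℝ≥0∞) (b : ℤ → ℝ≥0∞) (x : ℤ → ℝ), Measurable F → Measurable G →
    (∀ s : ℝ, R1 ≤ s → ∫⁻ t in {t | s ≤ |t|}, F t ≤
      ENNReal.ofReal θ * (∫⁻ t in {t | (1 - κ) * s ≤ |t|}, F t)
      + C1 * ENNReal.ofReal (s ^ (-(2 * (p - 1)))) *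
        (∫⁻ ξ in {ξ | (1 + δ) * s ^ (p - 1) ≤ |ξ|}, ENNReal.ofReal (ξ ^ 2) * G ξ)
      + C2 * (∑' n : ℤ, (if (1 - κ) * s ≤ |x n| then b n else 0))
      + C2 * ENNReal.ofReal (s ^ (-(2 * p * ((k + j + 1 : ℕ) : ℝ)))) * ∫⁻ t, F t) →
    ∫⁻ t, ENNReal.ofReal (W p k j T t ^ 2) * F t ≤
      ENNReal.ofReal (θ * (1 - κ) ^ (-(2 * p * ((k + j : ℕ) : ℝ)))) *
        (∫⁻ t, ENNReal.ofReal (W p k j T t ^ 2) * F t)
      + C1 * ENNReal.ofReal (2 * (1 + δ) ^ 2 * (1 + δ) ^ (-(2 * q * (k : ℝ)))) *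
        (∫⁻ ξ, ENNReal.ofReal (W q k j T ξ ^ 2) * G ξ)
      + C3 * ((∑' n : ℤ, ENNReal.ofReal (W p k j T (x n) ^ 2) * b n) + ∫⁻ t, F t) := by
  have hκ0 : 0 < 1 - κ := by linarith
  have hp0 : 0 < p := by linarith
  have hq0 : 0 < q := by linarith
  have hp1 : 0 < p - 1 := by linarith
  have hR0 : 0 < R1 := by linarith
  have hδ1 : 0 < 1 + δ := by linarith
  obtain ⟨cκ, hcκ⟩ : ∃ c : ℝ, c = (1 - κ) ^ (-(2 * p * ((k + j : ℕ) : ℝ))) := ⟨_, rfl⟩
  have hcκ0 : 0 ≤ cκ := by rw [hcκ]; positivity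
  obtain ⟨cR, hcR⟩ : ∃ c : ℝ, c = ((R1 ^ p) ^ (k + j)) ^ 2 := ⟨_, rfl⟩
  have hcR0 : 0 ≤ cR := by rw [hcR]; positivity
  refine ⟨Real.toNNReal cR + C2 * Real.toNNReal cκ + C2 * ((k + j : ℕ) : ℝ≥0), ?_⟩
  intro T hT F G b x hF hG hyp
  obtain ⟨a, ham, ha0, ha1, ha2, ha3⟩ := E1 hT
  obtain ⟨e1, e2, e3, e6⟩ := E2 hT
  have hT0 : 0 ≤ T := by linarith
  have hwt0 : ∀ t : ℝ, 0 ≤ t → 0 ≤ wt k j T t := by
    intro t ht
    unfold wt
    have : 0 ≤ min t T := le_min ht hT0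
    positivity
  have hwm : ∀ X Y : ℝ, 0 ≤ X → X ≤ Y → wt k j T (X ^ p) ^ 2 ≤ wt k j T (Y ^ p) ^ 2 := by
    intro X Y hX hXY
    refine pow_le_pow_left₀ (hwt0 _ (Real.rpow_nonneg hX p)) (e3 _ _ (Real.rpow_nonneg hX p) ?_) 2
    exact Real.rpow_le_rpow hX hXY hp0.le
  obtain ⟨a', ha'⟩ : ∃ a' : ℝ → ℝ≥0∞, a' = fun s => ENNReal.ofReal (a s) := ⟨_, rfl⟩
  have ha'm : Measurable a' := by rw [ha']; exact ham.ennreal_ofReal
  have habs : Measurable fun t : ℝ => |t| := continuous_abs.measurable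
  have hφ1 : Measurable fun t : ℝ => |t| / (1 - κ) := habs.div_const _
  have hφ2 : Measurable fun t : ℝ => (|t| / (1 + δ)) ^ (1 / (p - 1)) :=
    (habs.div_const _).pow_const _
  -- the integral of `a` up to `X`
  obtain ⟨A, hA⟩ : ∃ A : ℝ → ℝ≥0∞, A = fun X => ∫⁻ s in Icc R1 X, a' s := ⟨_, rfl⟩
  have hA1 : ∀ X, R1 ≤ X → A X = ENNReal.ofReal (wt k j T (X ^ p) ^ 2 - wt k j T (R1 ^ p) ^ 2) := by
    intro X hX
    rw [hA, ha']
    exact ha1 R1 X (by linarith) hX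
  have hA0 : ∀ X, X < R1 → A X = 0 := by
    intro X hX
    rw [hA]
    simp only
    rw [Icc_eq_empty (not_le.2 hX), Measure.restrict_empty, lintegral_zero_measure]
  have hWp : ∀ t : ℝ, 1 ≤ |t| → W p k j T t = wt k j T (|t| ^ p) := by
    intro t ht
    unfold W
    rw [max_eq_right ht]
  have hWq : ∀ t : ℝ, 1 ≤ |t| → W q k j T t = wt k j T (|t| ^ q) := by
    intro t ht
    unfold W
    rw [max_eq_right ht]
  -- the left side
  have hL : ∀ t, ENNReal.ofReal (W p k j T t ^ 2) ≤ A |t| + ENNReal.ofReal cR := by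
    intro t
    have hR : wt k j T (R1 ^ p) ^ 2 ≤ cR := by
      rw [hcR]
      exact pow_le_pow_left₀ (hwt0 _ (by positivity)) (e6 _ (by positivity)) 2
    rcases le_or_gt R1 |t| with h | h
    · rw [hA1 _ h, hWp t (by linarith), ← ENNReal.ofReal_add _ hcR0]
      · exact ENNReal.ofReal_le_ofReal (by linarith)
      · have := hwm R1 |t| hR0.le h
        linarith
    · refine le_add_left (ENNReal.ofReal_le_ofReal ?_)
      refine le_trans ?_ hR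
      unfold W
      exact hwm (max 1 |t|) R1 (by positivity) (max_le (by linarith) h.le)
  -- the first term on the right
  have hA2 : ∀ t, A (|t| / (1 - κ)) ≤ ENNReal.ofReal cκ * ENNReal.ofReal (W p k j T t ^ 2) := by
    intro t
    rcases le_or_gt R1 (|t| / (1 - κ)) with h | h
    · rw [hA1 _ h, ← ENNReal.ofReal_mul hcκ0]
      refine ENNReal.ofReal_le_ofReal ?_
      have h1 : 1 ≤ |t| := by
        rw [le_div_iff₀ hκ0] at h
        nlinarith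
      rw [hWp t h1]
      have h2 : (|t| / (1 - κ)) ^ p = ((1 - κ) ^ (-p)) * |t| ^ p := by
        rw [Real.div_rpow (abs_nonneg _) hκ0.le, Real.rpow_neg hκ0.le, div_eq_mul_inv, mul_comm]
      have h3 : 1 ≤ (1 - κ) ^ (-p) := by
        apply Real.one_le_rpow_of_pos_of_le_one_of_nonpos hκ0 (by linarith) (by linarith)
      have h4 := e1 (|t| ^ p) ((1 - κ) ^ (-p)) (by positivity) h3
      rw [← h2] at h4
      have h5 : 0 ≤ wt k j T ((|t| / (1 - κ)) ^ p) := hwt0 _ (by positivity)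
      have h6 := pow_le_pow_left₀ h5 h4 2
      have h7 : (((1 - κ) ^ (-p)) ^ (k + j) * wt k j T (|t| ^ p)) ^ 2 =
          cκ * wt k j T (|t| ^ p) ^ 2 := by
        rw [mul_pow, ← pow_mul, ← Real.rpow_natCast, ← Real.rpow_mul hκ0.le, hcκ]
        congr 2
        push_cast
        ring
      rw [h7] at h6
      have h8 := sq_nonneg (wt k j T (R1 ^ p))
      linarith
    · rw [hA0 _ h]
      exact zero_le
  -- the second term
  have hB : ∀ ξ, ENNReal.ofReal (ξ ^ 2) *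
      ∫⁻ s in Icc R1 ((|ξ| / (1 + δ)) ^ (1 / (p - 1))),
        ENNReal.ofReal (a s * s ^ (-(2 * (p - 1)))) ≤
      ENNReal.ofReal (2 * (1 + δ) ^ 2 * (1 + δ) ^ (-(2 * q * (k : ℝ)))) *
        ENNReal.ofReal (W q k j T ξ ^ 2) := by
    intro ξ
    obtain ⟨S, hS⟩ : ∃ S : ℝ, S = (|ξ| / (1 + δ)) ^ (1 / (p - 1)) := ⟨_, rfl⟩
    rw [← hS]
    rcases le_or_gt R1 S with h | h
    · have h1 := ha2 R1 S (by linarith) h
      refine (mul_le_mul_right h1 _).trans ?_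
      rw [← ENNReal.ofReal_mul (sq_nonneg _), ← ENNReal.ofReal_mul (by positivity)]
      refine ENNReal.ofReal_le_ofReal ?_
      have hx0 : 0 ≤ |ξ| / (1 + δ) := by positivity
      have hS0 : 0 < S := by linarith
      have hSp : S ^ (p - 1) = |ξ| / (1 + δ) := by
        rw [hS, ← Real.rpow_mul hx0, one_div, inv_mul_cancel₀ hp1.ne', Real.rpow_one]
      have h2 : 1 ≤ S ^ (p - 1) := Real.one_le_rpow (by linarith) hp1.le
      have h3 : 1 ≤ |ξ| := by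
        rw [hSp, le_div_iff₀ hδ1] at h2
        linarith
      have h4 : S ^ (-(2 * (p - 1))) = ((|ξ| / (1 + δ)) ^ 2)⁻¹ := by
        rw [Real.rpow_neg hS0.le, mul_comm, Real.rpow_mul hS0.le, hSp]
        norm_num
      have h5 : S ^ p = (|ξ| / (1 + δ)) ^ q := by
        rw [hS, ← Real.rpow_mul hx0]
        congr 1
        have : 1 / q = 1 - 1 / p := by linarith
        have h6 : q = p / (p - 1) := by
          field_simp at hpq ⊢
          linarith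
        rw [h6]
        ring
      have h6 : (|ξ| / (1 + δ)) ^ q = |ξ| ^ q / (1 + δ) ^ q := Real.div_rpow (abs_nonneg _) hδ1.le q
      have h7 := e2 (|ξ| ^ q) ((1 + δ) ^ q) (by positivity) (Real.one_le_rpow (by linarith) hq0.le)
      rw [← h6, ← h5] at h7
      have h8 : wt k j T (S ^ p) ^ 2 ≤ (1 + δ) ^ (-(2 * q * (k : ℝ))) * W q k j T ξ ^ 2 := by
        rw [hWq ξ h3]
        have h9 : 0 ≤ wt k j T (S ^ p) := hwt0 _ (by positivity)
        have h10 : 0 ≤ ((1 + δ) ^ q) ^ k * wt k j T (S ^ p) := by positivity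
        have h11 := pow_le_pow_left₀ h10 h7 2
        rw [mul_pow] at h11
        have h12 : (((1 + δ) ^ q) ^ k) ^ 2 = ((1 + δ) ^ (-(2 * q * (k : ℝ))))⁻¹ := by
          rw [← Real.rpow_neg hδ1.le, neg_neg, ← pow_mul, ← Real.rpow_natCast,
            ← Real.rpow_mul hδ1.le]
          congr 1
          push_cast
          ring
        rw [h12] at h11
        have h13 : 0 < (1 + δ) ^ (-(2 * q * (k : ℝ))) := by positivity
        calc wt k j T (S ^ p) ^ 2 = (1 + δ) ^ (-(2 * q * (k : ℝ))) *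
              (((1 + δ) ^ (-(2 * q * (k : ℝ))))⁻¹ * wt k j T (S ^ p) ^ 2) := by
              field_simp
          _ ≤ _ := mul_le_mul_of_nonneg_left h11 h13.le
      rw [h4]
      have h9 : ξ ^ 2 * (2 * wt k j T (S ^ p) ^ 2 * ((|ξ| / (1 + δ)) ^ 2)⁻¹) =
          2 * (1 + δ) ^ 2 * wt k j T (S ^ p) ^ 2 := by
        have h10 : ξ ^ 2 = |ξ| ^ 2 := (sq_abs ξ).symm
        have h11 : |ξ| ≠ 0 := by linarith
        rw [h10]
        field_simp
      rw [h9, mul_assoc (2 * (1 + δ) ^ 2)]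
      exact mul_le_mul_of_nonneg_left h8 (by positivity)
    · rw [Icc_eq_empty (not_le.2 h), Measure.restrict_empty, lintegral_zero_measure, mul_zero]
      exact zero_le
  -- integration of the hypothesis
  have hmain : ∫⁻ t, F t * A |t| ≤
      ENNReal.ofReal θ * (∫⁻ t, F t * A (|t| / (1 - κ))) +
      C1 * (∫⁻ ξ, (ENNReal.ofReal (ξ ^ 2) * G ξ) *
        ∫⁻ s in Icc R1 ((|ξ| / (1 + δ)) ^ (1 / (p - 1))),
          ENNReal.ofReal (a s * s ^ (-(2 * (p - 1))))) +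
      C2 * (∑' n, b n * A (|x n| / (1 - κ))) +
      C2 * (ENNReal.ofReal ((k + j : ℕ) : ℝ) * ∫⁻ t, F t) := by
    obtain ⟨G', hG'⟩ : ∃ G' : ℝ → ℝ≥0∞, G' = fun ξ => ENNReal.ofReal (ξ ^ 2) * G ξ := ⟨_, rfl⟩
    have hG'm : Measurable G' := by
      rw [hG']
      exact (by fun_prop : Measurable fun ξ : ℝ => ξ ^ 2).ennreal_ofReal.mul hG
    obtain ⟨a2, ha2'⟩ : ∃ a2 : ℝ → ℝ≥0∞,
        a2 = fun s => ENNReal.ofReal (a s * s ^ (-(2 * (p - 1)))) := ⟨_, rfl⟩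
    have ha2m : Measurable a2 := by
      rw [ha2']
      exact (ham.mul (measurable_id.pow_const _)).ennreal_ofReal
    obtain ⟨a4, ha4⟩ : ∃ a4 : ℝ → ℝ≥0∞,
        a4 = fun s => ENNReal.ofReal (a s * s ^ (-(2 * p * ((k + j + 1 : ℕ) : ℝ)))) := ⟨_, rfl⟩
    have ha4m : Measurable a4 := by
      rw [ha4]
      exact (ham.mul (measurable_id.pow_const _)).ennreal_ofReal
    have hm1 : Measurable fun s => ENNReal.ofReal θ * (a' s * I F (fun t => |t| / (1 - κ)) s) :=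
      (ha'm.mul (I_meas hF hφ1)).const_mul _
    have hm2 : Measurable fun s =>
        (C1 : ℝ≥0∞) * (a2 s * I G' (fun t => (|t| / (1 + δ)) ^ (1 / (p - 1))) s) :=
      (ha2m.mul (I_meas hG'm hφ2)).const_mul _
    have hm3' : ∀ n : ℤ, Measurable fun s : ℝ =>
        a' s * (if s ≤ |x n| / (1 - κ) then b n else 0) := by
      intro n
      refine ha'm.mul ?_
      exact Measurable.ite (measurableSet_le measurable_id measurable_const) measurable_const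
        measurable_const
    have hm3 : Measurable fun s : ℝ =>
        (C2 : ℝ≥0∞) * ∑' n : ℤ, a' s * (if s ≤ |x n| / (1 - κ) then b n else 0) :=
      (Measurable.ennreal_tsum hm3').const_mul _
    have hm4 : Measurable fun s => (C2 : ℝ≥0∞) * (a4 s * ∫⁻ t, F t) :=
      (ha4m.mul_const _).const_mul _
    have hstep : ∫⁻ s in Ici R1, a' s * I F (fun t => |t|) s ≤
        ∫⁻ s in Ici R1, (ENNReal.ofReal θ * (a' s * I F (fun t => |t| / (1 - κ)) s) +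
          C1 * (a2 s * I G' (fun t => (|t| / (1 + δ)) ^ (1 / (p - 1))) s) +
          C2 * (∑' n : ℤ, a' s * (if s ≤ |x n| / (1 - κ) then b n else 0)) +
          C2 * (a4 s * ∫⁻ t, F t)) := by
      refine setLIntegral_mono' measurableSet_Ici fun s hs => ?_
      have hs' : R1 ≤ s := hs
      have hs0 : 0 < s := by linarith
      have h1 := hyp s hs'
      have h2 : {t : ℝ | (1 - κ) * s ≤ |t|} = {t : ℝ | s ≤ |t| / (1 - κ)} := by
        ext t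
        simp only [mem_ofPred_eq]
        rw [le_div_iff₀ hκ0, mul_comm]
      have h3 : {ξ : ℝ | (1 + δ) * s ^ (p - 1) ≤ |ξ|} =
          {ξ : ℝ | s ≤ (|ξ| / (1 + δ)) ^ (1 / (p - 1))} := by
        ext t
        simp only [mem_ofPred_eq]
        rw [one_div, Real.le_rpow_inv_iff_of_pos hs0.le (by positivity) hp1, le_div_iff₀ hδ1,
          mul_comm]
      have h4 : ∀ n : ℤ, (if (1 - κ) * s ≤ |x n| then b n else 0) =
          if s ≤ |x n| / (1 - κ) then b n else 0 := by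
        intro n
        have : (1 - κ) * s ≤ |x n| ↔ s ≤ |x n| / (1 - κ) := by
          rw [le_div_iff₀ hκ0, mul_comm]
        simp only [this]
      rw [h2, h3] at h1
      simp_rw [h4] at h1
      refine (mul_le_mul_right h1 (a' s)).trans (le_of_eq ?_)
      have h5 : a2 s = a' s * ENNReal.ofReal (s ^ (-(2 * (p - 1)))) := by
        rw [ha2', ha']
        exact ENNReal.ofReal_mul (ha0 s)
      have h6 : a4 s = a' s * ENNReal.ofReal (s ^ (-(2 * p * ((k + j + 1 : ℕ) : ℝ)))) := by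
        rw [ha4, ha']
        exact ENNReal.ofReal_mul (ha0 s)
      rw [h5, h6, ENNReal.tsum_mul_left, hG']
      unfold I
      ring
    rw [tonelli ha'm hF habs] at hstep
    have hA' : ∀ X, ∫⁻ s in Icc R1 X, a' s = A X := fun X => by rw [hA]
    simp_rw [hA'] at hstep
    refine hstep.trans ?_
    have q1 : ∫⁻ s in Ici R1, ENNReal.ofReal θ * (a' s * I F (fun t => |t| / (1 - κ)) s) =
        ENNReal.ofReal θ * ∫⁻ t, F t * A (|t| / (1 - κ)) := by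
      have h7 : ∫⁻ s in Ici R1, a' s * I F (fun t => |t| / (1 - κ)) s =
          ∫⁻ t, F t * A (|t| / (1 - κ)) := by
        rw [tonelli ha'm hF hφ1]
        simp_rw [hA']
      rw [← h7]
      exact lintegral_const_mul _ (ha'm.mul (I_meas hF hφ1))
    have q2 : ∫⁻ s in Ici R1, (C1 : ℝ≥0∞) *
        (a2 s * I G' (fun t => (|t| / (1 + δ)) ^ (1 / (p - 1))) s) =
        C1 * ∫⁻ ξ, G' ξ * ∫⁻ s in Icc R1 ((|ξ| / (1 + δ)) ^ (1 / (p - 1))), a2 s := by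
      rw [← tonelli ha2m hG'm hφ2]
      exact lintegral_const_mul _ (ha2m.mul (I_meas hG'm hφ2))
    have q3 : ∫⁻ s in Ici R1, (C2 : ℝ≥0∞) *
        ∑' n : ℤ, a' s * (if s ≤ |x n| / (1 - κ) then b n else 0) =
        C2 * ∑' n : ℤ, b n * A (|x n| / (1 - κ)) := by
      have h7 : ∫⁻ s in Ici R1, ∑' n : ℤ, a' s * (if s ≤ |x n| / (1 - κ) then b n else 0) =
          ∑' n : ℤ, b n * A (|x n| / (1 - κ)) := by
        rw [lintegral_tsum fun n => (hm3' n).aemeasurable]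
        simp_rw [half _ ha'm, hA']
      rw [← h7]
      exact lintegral_const_mul _ (Measurable.ennreal_tsum hm3')
    have q4 : ∫⁻ s in Ici R1, (C2 : ℝ≥0∞) * (a4 s * ∫⁻ t, F t) =
        C2 * ((∫⁻ s in Ici R1, a4 s) * ∫⁻ t, F t) := by
      rw [← lintegral_mul_const _ ha4m]
      exact lintegral_const_mul _ (ha4m.mul_const _)
    rw [lintegral_add_right _ hm4, lintegral_add_right _ hm3, lintegral_add_right _ hm2, q1, q2,
      q3, q4]
    have h4 : ∫⁻ s in Ici R1, a4 s ≤ ENNReal.ofReal ((k + j : ℕ) : ℝ) := by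
      refine le_trans ?_ ha3
      rw [ha4]
      exact lintegral_mono_set (Ici_subset_Ici.2 (by linarith))
    rw [hG', ha2']
    gcongr
  -- conclusion
  have hfin : ∫⁻ t, ENNReal.ofReal (W p k j T t ^ 2) * F t ≤
      (∫⁻ t, F t * A |t|) + ENNReal.ofReal cR * ∫⁻ t, F t := by
    rw [← lintegral_const_mul _ hF, ← lintegral_add_right _ (hF.const_mul _)]
    refine lintegral_mono fun t => ?_
    calc ENNReal.ofReal (W p k j T t ^ 2) * F t ≤ (A |t| + ENNReal.ofReal cR) * F t :=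
          mul_le_mul_left (hL t) _
      _ = F t * A |t| + ENNReal.ofReal cR * F t := by ring
  refine hfin.trans ((add_le_add_left hmain _).trans ?_)
  have g1 : ∫⁻ t, F t * A (|t| / (1 - κ)) ≤
      ENNReal.ofReal cκ * ∫⁻ t, ENNReal.ofReal (W p k j T t ^ 2) * F t := by
    rw [← lintegral_const_mul' _ _ ENNReal.ofReal_ne_top]
    refine lintegral_mono fun t => ?_
    calc F t * A (|t| / (1 - κ)) ≤ F t * (ENNReal.ofReal cκ * ENNReal.ofReal (W p k j T t ^ 2)) :=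
          mul_le_mul_right (hA2 t) _
      _ = _ := by ring
  have g2 : ∫⁻ ξ, (ENNReal.ofReal (ξ ^ 2) * G ξ) *
        ∫⁻ s in Icc R1 ((|ξ| / (1 + δ)) ^ (1 / (p - 1))),
          ENNReal.ofReal (a s * s ^ (-(2 * (p - 1)))) ≤
      ENNReal.ofReal (2 * (1 + δ) ^ 2 * (1 + δ) ^ (-(2 * q * (k : ℝ)))) *
        ∫⁻ ξ, ENNReal.ofReal (W q k j T ξ ^ 2) * G ξ := by
    rw [← lintegral_const_mul' _ _ ENNReal.ofReal_ne_top]
    refine lintegral_mono fun ξ => ?_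
    calc (ENNReal.ofReal (ξ ^ 2) * G ξ) *
        ∫⁻ s in Icc R1 ((|ξ| / (1 + δ)) ^ (1 / (p - 1))),
          ENNReal.ofReal (a s * s ^ (-(2 * (p - 1)))) =
        (ENNReal.ofReal (ξ ^ 2) * ∫⁻ s in Icc R1 ((|ξ| / (1 + δ)) ^ (1 / (p - 1))),
          ENNReal.ofReal (a s * s ^ (-(2 * (p - 1))))) * G ξ := by ring
      _ ≤ (ENNReal.ofReal (2 * (1 + δ) ^ 2 * (1 + δ) ^ (-(2 * q * (k : ℝ)))) *
        ENNReal.ofReal (W q k j T ξ ^ 2)) * G ξ := mul_le_mul_left (hB ξ) _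
      _ = _ := by ring
  have g3 : ∑' n, b n * A (|x n| / (1 - κ)) ≤
      ENNReal.ofReal cκ * ∑' n : ℤ, ENNReal.ofReal (W p k j T (x n) ^ 2) * b n := by
    rw [← ENNReal.tsum_mul_left]
    refine ENNReal.tsum_le_tsum fun n => ?_
    calc b n * A (|x n| / (1 - κ)) ≤
          b n * (ENNReal.ofReal cκ * ENNReal.ofReal (W p k j T (x n) ^ 2)) :=
          mul_le_mul_right (hA2 (x n)) _
      _ = _ := by ring
  have hC3 : ((Real.toNNReal cR + C2 * Real.toNNReal cκ + C2 * ((k + j : ℕ) : ℝ≥0) : ℝ≥0) :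
      ℝ≥0∞) = ENNReal.ofReal cR + C2 * ENNReal.ofReal cκ +
        C2 * ENNReal.ofReal ((k + j : ℕ) : ℝ) := by
    rw [ENNReal.coe_add, ENNReal.coe_add, ENNReal.coe_mul, ENNReal.coe_mul,
      ENNReal.ofReal_natCast]
    simp [ENNReal.ofReal]
  rw [hC3, ENNReal.ofReal_mul hθ, ← hcκ]
  obtain ⟨X, hX⟩ : ∃ X : ℝ≥0∞, X = ∫⁻ t, ENNReal.ofReal (W p k j T t ^ 2) * F t := ⟨_, rfl⟩
  obtain ⟨Y, hY⟩ : ∃ Y : ℝ≥0∞, Y = ∫⁻ ξ, ENNReal.ofReal (W q k j T ξ ^ 2) * G ξ := ⟨_, rfl⟩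
  obtain ⟨Z, hZ⟩ : ∃ Z : ℝ≥0∞,
    Z = ∑' n : ℤ, ENNReal.ofReal (W p k j T (x n) ^ 2) * b n := ⟨_, rfl⟩
  obtain ⟨J, hJ⟩ : ∃ J : ℝ≥0∞, J = ∫⁻ t, F t := ⟨_, rfl⟩
  rw [← hX] at g1 ⊢
  rw [← hY] at g2 ⊢
  rw [← hZ] at g3 ⊢
  rw [← hJ]
  calc _ ≤ ENNReal.ofReal θ * (ENNReal.ofReal cκ * X) +
        C1 * (ENNReal.ofReal (2 * (1 + δ) ^ 2 * (1 + δ) ^ (-(2 * q * (k : ℝ)))) * Y) +
        C2 * (ENNReal.ofReal cκ * Z) + C2 * (ENNReal.ofReal ((k + j : ℕ) : ℝ) * J) +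
        ENNReal.ofReal cR * J := by gcongr
    _ ≤ ENNReal.ofReal θ * (ENNReal.ofReal cκ * X) +
        C1 * (ENNReal.ofReal (2 * (1 + δ) ^ 2 * (1 + δ) ^ (-(2 * q * (k : ℝ)))) * Y) +
        C2 * (ENNReal.ofReal cκ * Z) + C2 * (ENNReal.ofReal ((k + j : ℕ) : ℝ) * J) +
        ENNReal.ofReal cR * J + (ENNReal.ofReal cR * Z + C2 * ENNReal.ofReal cκ * J +
          C2 * ENNReal.ofReal ((k + j : ℕ) : ℝ) * Z) := le_self_add
    _ = _ := by ring

end E3aux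

/-- E3: the layer-cake lemma. -/
theorem E3_layer {p q : ℝ} (hp : 1 < p) (hq : 1 < q) (hpq : 1 / p + 1 / q = 1)
    {θ δ κ R1 : ℝ} (hθ : 0 ≤ θ) (hδ : 0 < δ) (hκ : 0 < κ) (hκ1 : κ ≤ 1 / 2) (hR1 : 2 ≤ R1)
    (k j : ℕ) (hk : 2 ≤ k) (C1 C2 : ℝ≥0) : ∃ C3 : ℝ≥0, ∀ T : ℝ, 1 ≤ T →
    ∀ (F G : ℝ → ℝ≥0∞) (b : ℤ → ℝ≥0∞) (x : ℤ → ℝ), Measurable F → Measurable G →
    (∀ s : ℝ, R1 ≤ s → ∫⁻ t in {t | s ≤ |t|}, F t ≤
      ENNReal.ofReal θ * (∫⁻ t in {t | (1 - κ) * s ≤ |t|}, F t)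
      + C1 * ENNReal.ofReal (s ^ (-(2 * (p - 1)))) *
        (∫⁻ ξ in {ξ | (1 + δ) * s ^ (p - 1) ≤ |ξ|}, ENNReal.ofReal (ξ ^ 2) * G ξ)
      + C2 * (∑' n : ℤ, (if (1 - κ) * s ≤ |x n| then b n else 0))
      + C2 * ENNReal.ofReal (s ^ (-(2 * p * ((k + j + 1 : ℕ) : ℝ)))) * ∫⁻ t, F t) →
    ∫⁻ t, ENNReal.ofReal (W p k j T t ^ 2) * F t ≤
      ENNReal.ofReal (θ * (1 - κ) ^ (-(2 * p * ((k + j : ℕ) : ℝ)))) *
        (∫⁻ t, ENNReal.ofReal (W p k j T t ^ 2) * F t)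
      + C1 * ENNReal.ofReal (2 * (1 + δ) ^ 2 * (1 + δ) ^ (-(2 * q * (k : ℝ)))) *
        (∫⁻ ξ, ENNReal.ofReal (W q k j T ξ ^ 2) * G ξ)
      + C3 * ((∑' n : ℤ, ENNReal.ofReal (W p k j T (x n) ^ 2) * b n) + ∫⁻ t, F t) :=
  E3aux.main hp hq hpq hθ hδ hκ hκ1 hR1 k j (fun {_} hT => SF.E1_weight hp k j hk hT)
    (fun {T} hT => by
      obtain ⟨e1, e2, e3, -, -, e6, -⟩ := SF.E2_growth k j hT
      exact ⟨e1, e2, e3, e6⟩) C1 C2

end SF
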