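import Pool.Agent.N246.SF.Defs
import Pool.Agent.N246.SF.D1
import Pool.Agent.N246.SF.E3

/-!
# Project SF: half of the a priori inequality
-/

open MeasureTheory Filter Set SchwartzMap FourierTransform
open scoped ENNReal NNReal Topology

namespace SF

namespace F1aux

theorem W_nonneg (p : ℝ) (k j : ℕ) {T : ℝ} (hT : 1 ≤ T) (t : ℝ) : 0 ≤ W p k j T t := by
  have h1 : (0 : ℝ) ≤ (max 1 |t|) ^ p := by positivity
  unfold W wt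
  have h2 : (0 : ℝ) ≤ min ((max 1 |t|) ^ p) T := le_min h1 (by linarith)
  positivity

theorem W_le {p : ℝ} (hp : 0 ≤ p) (k j : ℕ) {T : ℝ} (hT : 1 ≤ T) {M : ℕ}
    (hM : p * (k + j : ℕ) ≤ M) (t : ℝ) : W p k j T t ≤ (max 1 |t|) ^ M := by
  have h0 : (1 : ℝ) ≤ max 1 |t| := le_max_left _ _
  have h1 : (0 : ℝ) ≤ (max 1 |t|) ^ p := by positivity
  have h2 : (0 : ℝ) ≤ min ((max 1 |t|) ^ p) T := le_min h1 (by linarith)
  unfold W wt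
  calc ((max 1 |t|) ^ p) ^ k * (min ((max 1 |t|) ^ p) T) ^ j
      ≤ ((max 1 |t|) ^ p) ^ k * ((max 1 |t|) ^ p) ^ j :=
        mul_le_mul_of_nonneg_left (pow_le_pow_left₀ h2 (min_le_left _ _) _) (by positivity)
    _ = ((max 1 |t|) ^ p) ^ (k + j) := (pow_add _ _ _).symm
    _ = (max 1 |t|) ^ (p * (k + j : ℕ)) := by
        rw [Real.rpow_mul (by positivity), Real.rpow_natCast]
    _ ≤ (max 1 |t|) ^ (M : ℝ) := Real.rpow_le_rpow_of_exponent_le h0 hM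
    _ = (max 1 |t|) ^ M := Real.rpow_natCast _ _

theorem lint_ne_top {p : ℝ} (hp : 0 ≤ p) (k j : ℕ) {T : ℝ} (hT : 1 ≤ T) (f : 𝓢(ℝ, ℂ)) :
    ∫⁻ t, ENNReal.ofReal (W p k j T t ^ 2) * ‖f t‖ₑ ^ 2 ≠ ∞ := by
  obtain ⟨M, hM⟩ := exists_nat_ge (p * (k + j : ℕ))
  obtain ⟨C0, hC0⟩ : ∃ C0 : ℝ, ∀ t, ‖f t‖ ≤ C0 :=
    ⟨SchwartzMap.seminorm ℂ 0 0 f, fun t => by
      have := SchwartzMap.le_seminorm ℂ 0 0 f t
      simpa using this⟩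
  have hint : Integrable (fun t : ℝ => C0 * (‖t‖ ^ 0 * ‖f t‖ + ‖t‖ ^ (2 * M) * ‖f t‖)) := by
    refine (Integrable.add ?_ ?_).const_mul C0
    · exact SchwartzMap.integrable_pow_mul volume f 0
    · exact SchwartzMap.integrable_pow_mul volume f (2 * M)
  refine ne_of_lt (lt_of_le_of_lt ?_ hint.lintegral_lt_top)
  refine lintegral_mono fun t => ?_
  rw [← ofReal_norm, ← ENNReal.ofReal_pow (norm_nonneg _),
    ← ENNReal.ofReal_mul (by positivity)]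
  refine ENNReal.ofReal_le_ofReal ?_
  have h1 : W p k j T t ^ 2 ≤ (max 1 |t|) ^ (2 * M) := by
    rw [mul_comm, pow_mul]
    exact pow_le_pow_left₀ (W_nonneg p k j hT t) (W_le hp k j hT hM t) 2
  have h2 : (max 1 |t|) ^ (2 * M) ≤ ‖t‖ ^ 0 + ‖t‖ ^ (2 * M) := by
    rw [Real.norm_eq_abs, pow_zero]
    rcases le_total 1 |t| with h | h
    · rw [max_eq_right h]; linarith
    · rw [max_eq_left h, one_pow]
      have : 0 ≤ |t| ^ (2 * M) := by positivity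
      linarith
  have h3 : (0 : ℝ) ≤ ‖t‖ ^ 0 + ‖t‖ ^ (2 * M) := by positivity
  calc W p k j T t ^ 2 * ‖f t‖ ^ 2 ≤ (‖t‖ ^ 0 + ‖t‖ ^ (2 * M)) * ‖f t‖ ^ 2 :=
        mul_le_mul_of_nonneg_right (h1.trans h2) (by positivity)
    _ = (‖t‖ ^ 0 + ‖t‖ ^ (2 * M)) * ‖f t‖ * ‖f t‖ := by ring
    _ ≤ (‖t‖ ^ 0 + ‖t‖ ^ (2 * M)) * ‖f t‖ * C0 :=
        mul_le_mul_of_nonneg_left (hC0 t) (by positivity)
    _ = C0 * (‖t‖ ^ 0 * ‖f t‖ + ‖t‖ ^ (2 * M) * ‖f t‖) := by ring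

theorem absorb {X Y Z C : ℝ≥0∞} {θ : ℝ} (hθ0 : 0 ≤ θ) (hθ1 : θ < 1) (hX : X ≠ ∞)
    (h : X ≤ ENNReal.ofReal ((1 + θ) / 2) * X + ENNReal.ofReal ((1 - θ) / 4) * Y + C * Z) :
    X ≤ (1 / 2) * Y + C * ENNReal.ofReal (2 / (1 - θ)) * Z := by
  have h0 : (0 : ℝ) < 1 - θ := by linarith
  have h1 : ENNReal.ofReal ((1 + θ) / 2) * X + ENNReal.ofReal ((1 - θ) / 2) * X = X := by
    rw [← add_mul, ← ENNReal.ofReal_add (by linarith) (by linarith)]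
    have : (1 + θ) / 2 + (1 - θ) / 2 = 1 := by ring
    rw [this, ENNReal.ofReal_one, one_mul]
  have h2 : ENNReal.ofReal ((1 - θ) / 2) * X ≤ ENNReal.ofReal ((1 - θ) / 4) * Y + C * Z := by
    have h3 : ENNReal.ofReal ((1 + θ) / 2) * X ≠ ∞ := ENNReal.mul_ne_top ENNReal.ofReal_ne_top hX
    refine (ENNReal.add_le_add_iff_left h3).mp ?_
    rw [h1, ← add_assoc]
    exact h
  have h4 : ENNReal.ofReal (2 / (1 - θ)) * (ENNReal.ofReal ((1 - θ) / 2) * X) = X := by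
    rw [← mul_assoc, ← ENNReal.ofReal_mul (by positivity)]
    have : 2 / (1 - θ) * ((1 - θ) / 2) = 1 := by field_simp
    rw [this, ENNReal.ofReal_one, one_mul]
  have h5 : ENNReal.ofReal (2 / (1 - θ)) * (ENNReal.ofReal ((1 - θ) / 4) * Y) = (1 / 2) * Y := by
    rw [← mul_assoc, ← ENNReal.ofReal_mul (by positivity)]
    have : 2 / (1 - θ) * ((1 - θ) / 4) = 1 / 2 := by field_simp; norm_num
    rw [this, ENNReal.ofReal_div_of_pos (by norm_num)]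
    simp
  calc X = ENNReal.ofReal (2 / (1 - θ)) * (ENNReal.ofReal ((1 - θ) / 2) * X) := h4.symm
    _ ≤ ENNReal.ofReal (2 / (1 - θ)) * (ENNReal.ofReal ((1 - θ) / 4) * Y + C * Z) := by gcongr
    _ = (1 / 2) * Y + C * ENNReal.ofReal (2 / (1 - θ)) * Z := by
        rw [mul_add, h5]; ring

theorem exists_k0 {q δ ε : ℝ} (hq : 1 < q) (hδ : 0 < δ) (hε : 0 < ε) (C1 : ℝ≥0) :
    ∃ k0 : ℕ, 2 ≤ k0 ∧ ∀ k : ℕ, k0 ≤ k →
      (C1 : ℝ≥0∞) * ENNReal.ofReal (2 * (1 + δ) ^ 2 * (1 + δ) ^ (-(2 * q * (k : ℝ)))) ≤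
        ENNReal.ofReal ε := by
  have h1 : Tendsto (fun k : ℕ => (C1 : ℝ) * (2 * (1 + δ) ^ 2 * ((1 + δ)⁻¹) ^ k)) atTop
      (𝓝 ((C1 : ℝ) * (2 * (1 + δ) ^ 2 * 0))) := by
    refine Tendsto.const_mul _ (Tendsto.const_mul _ ?_)
    exact tendsto_pow_atTop_nhds_zero_of_lt_one (by positivity) (inv_lt_one_of_one_lt₀ (by linarith))
  rw [mul_zero, mul_zero] at h1
  obtain ⟨K, hK⟩ := (h1.eventually (gt_mem_nhds hε)).exists_forall_of_atTop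
  refine ⟨max K 2, le_max_right _ _, fun k hk => ?_⟩
  have h2 := hK k ((le_max_left _ _).trans hk)
  rw [← ENNReal.ofReal_coe_nnreal, ← ENNReal.ofReal_mul (by positivity)]
  refine ENNReal.ofReal_le_ofReal (le_trans ?_ h2.le)
  have h3 : (1 + δ) ^ (-(2 * q * (k : ℝ))) ≤ ((1 + δ)⁻¹) ^ k := by
    rw [inv_pow, ← Real.rpow_natCast, ← Real.rpow_neg (by positivity)]
    refine Real.rpow_le_rpow_of_exponent_le (by linarith) ?_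
    have : (0 : ℝ) ≤ k := by positivity
    nlinarith
  gcongr

theorem exists_kappa {p θ : ℝ} (hθ0 : 0 ≤ θ) (hθ1 : θ < 1) (m : ℕ) :
    ∃ κ : ℝ, 0 < κ ∧ κ ≤ 1 / 2 ∧ θ * (1 - κ) ^ (-(2 * p * (m : ℝ))) ≤ (1 + θ) / 2 := by
  have h1 : ContinuousAt (fun κ : ℝ => θ * (1 - κ) ^ (-(2 * p * (m : ℝ)))) 0 := by
    refine ContinuousAt.mul continuousAt_const ?_
    refine ContinuousAt.rpow_const (by fun_prop) (Or.inl (by norm_num))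
  have h2 : (fun κ : ℝ => θ * (1 - κ) ^ (-(2 * p * (m : ℝ)))) 0 < (1 + θ) / 2 := by
    simp only [sub_zero, Real.one_rpow]
    linarith
  have h3 := h1.eventually (gt_mem_nhds h2)
  rw [Metric.eventually_nhds_iff] at h3
  obtain ⟨ε, hε, h4⟩ := h3
  refine ⟨min (ε / 2) (1 / 2), by positivity, min_le_right _ _, ?_⟩
  refine (h4 ?_).le
  rw [Real.dist_eq, sub_zero, abs_of_nonneg (by positivity)]
  exact lt_of_le_of_lt (min_le_left _ _) (by linarith)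

end F1aux

/-- F1: one half. -/
theorem F1_half {p q : ℝ} (hp : 1 < p) (hq : 1 < q) (hpq : 1 / p + 1 / q = 1)
    {ρ R : ℝ} (hρ0 : 0 < ρ) (hρ : ρ < 1 / 2) (hR : 1 ≤ R) : ∃ k0 : ℕ, ∀ k j : ℕ, k0 ≤ k →
    ∃ C : ℝ≥0, ∀ (x : ℤ → ℝ), GoodNodes p ρ R x → ∀ T : ℝ, 1 ≤ T → ∀ f : 𝓢(ℝ, ℂ),
    ∫⁻ t, ENNReal.ofReal (W p k j T t ^ 2) * ‖f t‖ₑ ^ 2 ≤
      (1 / 2) * (∫⁻ ξ, ENNReal.ofReal (W q k j T ξ ^ 2) * ‖(𝓕 f) ξ‖ₑ ^ 2)
      + C * ((∑' n : ℤ, ENNReal.ofReal (W p k j T (x n) ^ 2) * ‖f (x n)‖ₑ ^ 2)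
        + ∫⁻ t, ‖f t‖ₑ ^ 2) := by
  obtain ⟨θ, δ, hθ0, hθ1, hδ, C1, hD⟩ := SF.D1_local hp hρ0 hρ hR
  obtain ⟨k0, hk02, hk0⟩ := F1aux.exists_k0 (q := q) (δ := δ) (ε := (1 - θ) / 4) hq hδ
    (by linarith) C1
  refine ⟨k0, fun k j hk => ?_⟩
  obtain ⟨κ, hκ0, hκ1, hκ⟩ := F1aux.exists_kappa (p := p) hθ0 hθ1 (k + j)
  obtain ⟨R1, hR1, C2, hC2⟩ := hD κ hκ0 (by linarith) (k + j + 1)
  obtain ⟨C3, hC3⟩ := SF.E3_layer hp hq hpq hθ0 hδ hκ0 hκ1 (le_max_right R1 2) k j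
    (hk02.trans hk) C1 C2
  refine ⟨C3 * Real.toNNReal (2 / (1 - θ)), fun x hx T hT f => ?_⟩
  have hE := hC3 T hT (fun t => ‖f t‖ₑ ^ 2) (fun t => ‖(𝓕 f) t‖ₑ ^ 2)
    (fun n => ‖f (x n)‖ₑ ^ 2) x ?_ ?_ ?_
  · have h1 := F1aux.absorb (Y := ∫⁻ ξ, ENNReal.ofReal (W q k j T ξ ^ 2) * ‖(𝓕 f) ξ‖ₑ ^ 2)
      (Z := ((∑' n : ℤ, ENNReal.ofReal (W p k j T (x n) ^ 2) * ‖f (x n)‖ₑ ^ 2)
        + ∫⁻ t, ‖f t‖ₑ ^ 2)) (C := C3) hθ0 hθ1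
      (F1aux.lint_ne_top (p := p) (by linarith) k j hT f) ?_
    · rw [ENNReal.coe_mul]
      exact h1
    · refine hE.trans ?_
      gcongr
      exact hk0 k hk
  · exact f.continuous.enorm.measurable.pow_const 2
  · exact (𝓕 f).continuous.enorm.measurable.pow_const 2
  · intro s hs
    exact hC2 x hx s ((le_max_left _ _).trans hs) f

end SF
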