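import Pool.Agent.N246.SF.Defs
import Pool.Agent.N246.SF.F1

/-!
# Project SF: piece F2 (the a priori inequality)
-/

open MeasureTheory Filter Set SchwartzMap FourierTransform
open scoped ENNReal NNReal Topology

namespace SF

namespace F2aux

theorem W_even (r : ℝ) (k j : ℕ) (T t : ℝ) : W r k j T (-t) = W r k j T t := by
  simp [W, abs_neg]

theorem W_nonneg (r : ℝ) (k j : ℕ) {T : ℝ} (hT : 1 ≤ T) (t : ℝ) : 0 ≤ W r k j T t := by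
  have h1 : (0 : ℝ) ≤ (max 1 |t|) ^ r := Real.rpow_nonneg (le_trans zero_le_one (le_max_left _ _)) _
  unfold W wt
  exact mul_nonneg (pow_nonneg h1 _) (pow_nonneg (le_min h1 (by linarith)) _)

theorem W_le (r : ℝ) (k j : ℕ) {T : ℝ} (hT : 1 ≤ T) :
    ∃ N : ℕ, ∀ t : ℝ, W r k j T t ≤ (1 + |t|) ^ N := by
  obtain ⟨m, hm⟩ := exists_nat_ge r
  refine ⟨m * k + m * j, fun t => ?_⟩
  have hmx : (1 : ℝ) ≤ max 1 |t| := le_max_left _ _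
  have h0 : (0 : ℝ) ≤ (max 1 |t|) ^ r := Real.rpow_nonneg (by linarith) _
  have h1 : (max 1 |t|) ^ r ≤ (1 + |t|) ^ m := by
    calc (max 1 |t|) ^ r ≤ (max 1 |t|) ^ (m : ℝ) := Real.rpow_le_rpow_of_exponent_le hmx hm
      _ = (max 1 |t|) ^ m := Real.rpow_natCast _ _
      _ ≤ (1 + |t|) ^ m := by
        refine pow_le_pow_left₀ (by linarith) ?_ _
        have := abs_nonneg t
        exact max_le (by linarith) (by linarith)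
  have h2 : min ((max 1 |t|) ^ r) T ≤ (1 + |t|) ^ m := le_trans (min_le_left _ _) h1
  have h3 : 0 ≤ min ((max 1 |t|) ^ r) T := le_min h0 (by linarith)
  unfold W wt
  rw [pow_add, pow_mul, pow_mul]
  exact mul_le_mul (pow_le_pow_left₀ h0 h1 _) (pow_le_pow_left₀ h3 h2 _) (pow_nonneg h3 _)
    (by positivity)

theorem finite_weighted (r : ℝ) (k j : ℕ) {T : ℝ} (hT : 1 ≤ T) (f : 𝓢(ℝ, ℂ)) :
    ∫⁻ t, ENNReal.ofReal (W r k j T t ^ 2) * ‖f t‖ₑ ^ 2 ≠ ∞ := by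
  obtain ⟨N, hN⟩ := W_le r k j hT
  obtain ⟨C, hC0, hC⟩ : ∃ C : ℝ, 0 ≤ C ∧ ∀ t : ℝ, (1 + |t|) ^ (N + 1) * ‖f t‖ ≤ C := by
    refine ⟨2 ^ (N + 1) * ((Finset.Iic (N + 1, 0)).sup
      fun m => SchwartzMap.seminorm ℝ m.1 m.2) f, by positivity, fun t => ?_⟩
    have := SchwartzMap.one_add_le_sup_seminorm_apply (𝕜 := ℝ) (m := (N + 1, 0)) (k := N + 1)
      (n := 0) le_rfl le_rfl f t
    simpa using this
  have hint : Integrable (fun t : ℝ => C ^ 2 * (1 + ‖t‖) ^ (-(2 : ℝ))) := by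
    apply Integrable.const_mul
    apply integrable_one_add_norm
    simp
  have hlt : ∫⁻ t : ℝ, ENNReal.ofReal (C ^ 2 * (1 + ‖t‖) ^ (-(2 : ℝ))) < ∞ := by
    have := hint.lintegral_lt_top
    exact this
  refine (lt_of_le_of_lt (lintegral_mono fun t => ?_) hlt).ne
  rw [← ofReal_norm, ← ENNReal.ofReal_pow (norm_nonneg (f t)),
    ← ENNReal.ofReal_mul (sq_nonneg _)]
  apply ENNReal.ofReal_le_ofReal
  have h1 : 0 < 1 + ‖t‖ := by positivity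
  have hW0 := W_nonneg r k j hT t
  have hW := hN t
  have hf := hC t
  rw [Real.rpow_neg h1.le, Real.rpow_two, ← mul_pow, ← div_eq_mul_inv, ← div_pow]
  refine pow_le_pow_left₀ (by positivity) ?_ _
  rw [le_div_iff₀ h1]
  calc W r k j T t * ‖f t‖ * (1 + ‖t‖) ≤ (1 + |t|) ^ N * ‖f t‖ * (1 + ‖t‖) := by gcongr
    _ = (1 + |t|) ^ (N + 1) * ‖f t‖ := by rw [Real.norm_eq_abs]; ring
    _ ≤ C := hf

theorem fourier_fourier (f : 𝓢(ℝ, ℂ)) (t : ℝ) : (𝓕 (𝓕 f)) t = f (-t) := by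
  have h1 : (𝓕⁻ (𝓕 f)) (-t) = f (-t) := by
    rw [FourierTransform.fourierInv_fourier_eq]
  rw [← h1]
  rw [SchwartzMap.fourier_coe, SchwartzMap.fourierInv_coe, Real.fourierInv_eq_fourier_neg, neg_neg]

theorem plancherel (f : 𝓢(ℝ, ℂ)) : ∫⁻ ξ, ‖(𝓕 f) ξ‖ₑ ^ 2 = ∫⁻ t, ‖f t‖ₑ ^ 2 := by
  have key : ∀ g : 𝓢(ℝ, ℂ), ∫⁻ t, ‖g t‖ₑ ^ 2 = ENNReal.ofReal (∫ t, ‖g t‖ ^ 2) := by
    intro g
    have hi : Integrable (fun t => ‖g t‖ ^ 2) := (g.memLp 2).integrable_norm_pow (by norm_num)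
    rw [ofReal_integral_eq_lintegral_ofReal hi (Eventually.of_forall fun t => sq_nonneg _)]
    refine lintegral_congr fun t => ?_
    rw [← ofReal_norm, ENNReal.ofReal_pow (norm_nonneg _)]
  rw [key, key, SchwartzMap.integral_norm_sq_fourier]

/-- Absorption. -/
theorem absorb {X Y D1 D2 : ℝ≥0∞} (hX : X ≠ ∞) (hY : Y ≠ ∞) (h1 : X ≤ (1 / 2) * Y + D1)
    (h2 : Y ≤ (1 / 2) * X + D2) : X + Y ≤ 2 * (D1 + D2) := by
  by_cases hD : D1 + D2 = ∞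
  · rw [hD]; simp
  · rw [ENNReal.add_eq_top, not_or] at hD
    obtain ⟨hD1, hD2⟩ := hD
    lift X to ℝ≥0 using hX
    lift Y to ℝ≥0 using hY
    lift D1 to ℝ≥0 using hD1
    lift D2 to ℝ≥0 using hD2
    have e : (1 / 2 : ℝ≥0∞) = ((1 / 2 : ℝ≥0) : ℝ≥0∞) := by
      rw [ENNReal.coe_div (by norm_num)]; simp
    rw [e] at h1 h2
    norm_cast at h1 h2 ⊢
    rw [← NNReal.coe_le_coe] at h1 h2 ⊢
    push_cast at h1 h2 ⊢
    linarith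

end F2aux

open F2aux

/-- F2: the a priori inequality. -/
theorem F2_apriori {p q : ℝ} (hp : 1 < p) (hq : 1 < q) (hpq : 1 / p + 1 / q = 1)
    {ρ R : ℝ} (hρ0 : 0 < ρ) (hρ : ρ < 1 / 2) (hR : 1 ≤ R) : ∃ k0 : ℕ, ∀ k j : ℕ, k0 ≤ k →
    ∃ C : ℝ≥0, ∀ (x y : ℤ → ℝ), GoodNodes p ρ R x → GoodNodes q ρ R y →
    ∀ T : ℝ, 1 ≤ T → ∀ f : 𝓢(ℝ, ℂ),
    (∫⁻ t, ENNReal.ofReal (W p k j T t ^ 2) * ‖f t‖ₑ ^ 2) +
      (∫⁻ ξ, ENNReal.ofReal (W q k j T ξ ^ 2) * ‖(𝓕 f) ξ‖ₑ ^ 2) ≤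
    C * ((∑' n : ℤ, ENNReal.ofReal (W p k j T (x n) ^ 2) * ‖f (x n)‖ₑ ^ 2)
      + (∑' n : ℤ, ENNReal.ofReal (W q k j T (y n) ^ 2) * ‖(𝓕 f) (y n)‖ₑ ^ 2)
      + ∫⁻ t, ‖f t‖ₑ ^ 2) := by
  have hpq' : 1 / q + 1 / p = 1 := by rw [add_comm]; exact hpq
  obtain ⟨k1, H1⟩ := SF.F1_half hp hq hpq hρ0 hρ hR
  obtain ⟨k2, H2⟩ := SF.F1_half hq hp hpq' hρ0 hρ hR
  refine ⟨max k1 k2, fun k j hk => ?_⟩
  obtain ⟨C1, hC1⟩ := H1 k j (le_trans (le_max_left _ _) hk)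
  obtain ⟨C2, hC2⟩ := H2 k j (le_trans (le_max_right _ _) hk)
  refine ⟨2 * (C1 + C2), fun x y hx hy T hT f => ?_⟩
  have hX := finite_weighted p k j hT f
  have hY := finite_weighted q k j hT (𝓕 f)
  have h1 := hC1 x hx T hT f
  have h2 := hC2 y hy T hT (𝓕 f)
  have e : ∫⁻ ξ, ENNReal.ofReal (W p k j T ξ ^ 2) * ‖(𝓕 (𝓕 f)) ξ‖ₑ ^ 2
      = ∫⁻ t, ENNReal.ofReal (W p k j T t ^ 2) * ‖f t‖ₑ ^ 2 := by
    rw [← lintegral_neg_eq_self (fun t => ENNReal.ofReal (W p k j T t ^ 2) * ‖f t‖ₑ ^ 2)]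
    refine lintegral_congr fun t => ?_
    rw [fourier_fourier, W_even]
  rw [e, plancherel] at h2
  refine (absorb hX hY h1 h2).trans ?_
  set S1 := ∑' n : ℤ, ENNReal.ofReal (W p k j T (x n) ^ 2) * ‖f (x n)‖ₑ ^ 2 with hS1
  set S2 := ∑' n : ℤ, ENNReal.ofReal (W q k j T (y n) ^ 2) * ‖(𝓕 f) (y n)‖ₑ ^ 2 with hS2
  set L := ∫⁻ t, ‖f t‖ₑ ^ 2 with hL
  push_cast
  have a1 : S1 + L ≤ S1 + S2 + L := by gcongr; exact le_self_add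
  have a2 : S2 + L ≤ S1 + S2 + L := by gcongr; exact le_add_self
  calc 2 * ((C1 : ℝ≥0∞) * (S1 + L) + C2 * (S2 + L))
      ≤ 2 * ((C1 : ℝ≥0∞) * (S1 + S2 + L) + C2 * (S1 + S2 + L)) := by gcongr
    _ = 2 * ((C1 : ℝ≥0∞) + C2) * (S1 + S2 + L) := by ring

end SF
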