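import Pool.Agent.N246.SF.Defs

/-!
# Project SF, part G1: Schwartz seminorms of translates
-/

open MeasureTheory Filter Set SchwartzMap FourierTransform
open scoped ENNReal NNReal Topology

namespace SF

theorem G1_translate (k n : ℕ) : ∃ (C : ℝ) (s : Finset (ℕ × ℕ)), 0 ≤ C ∧
    ∀ (a : ℝ) (f g : 𝓢(ℝ, ℂ)), (∀ t, g t = f (t - a)) →
    SchwartzMap.seminorm ℂ k n g ≤
      C * (1 + |a|) ^ k * (s.sup (schwartzSeminormFamily ℂ ℝ ℂ)) f := by
  refine ⟨2 ^ k, Finset.Iic (k, n), by positivity, ?_⟩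
  intro a f g hg
  have hgf : (g : ℝ → ℂ) = fun t => f (t - a) := funext hg
  have hs : (Finset.Iic (k, n)).sup (schwartzSeminormFamily ℂ ℝ ℂ) =
      (Finset.Iic (k, n)).sup (fun m => SchwartzMap.seminorm ℂ m.1 m.2) := rfl
  apply SchwartzMap.seminorm_le_bound
  · positivity
  · intro t
    have h1 : iteratedFDeriv ℝ n (g : ℝ → ℂ) t = iteratedFDeriv ℝ n (f : ℝ → ℂ) (t - a) := by
      rw [hgf]
      exact iteratedFDeriv_comp_sub n a t
    rw [h1]
    have h2 := SchwartzMap.one_add_le_sup_seminorm_apply (𝕜 := ℂ) (m := (k, n)) (k := k) (n := n)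
      le_rfl le_rfl f (t - a)
    rw [← hs] at h2
    simp only at h2
    have h3 : ‖t‖ ≤ (1 + |a|) * (1 + ‖t - a‖) := by
      have h4 : ‖t‖ ≤ ‖t - a‖ + |a| := by
        calc ‖t‖ = ‖(t - a) + a‖ := by congr 1; ring
          _ ≤ ‖t - a‖ + ‖a‖ := norm_add_le _ _
          _ = ‖t - a‖ + |a| := by rw [Real.norm_eq_abs a]
      have h5 : 0 ≤ |a| * ‖t - a‖ := by positivity
      nlinarith
    calc ‖t‖ ^ k * ‖iteratedFDeriv ℝ n (f : ℝ → ℂ) (t - a)‖ ≤
          ((1 + |a|) * (1 + ‖t - a‖)) ^ k * ‖iteratedFDeriv ℝ n (f : ℝ → ℂ) (t - a)‖ := by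
            gcongr
      _ = (1 + |a|) ^ k * ((1 + ‖t - a‖) ^ k * ‖iteratedFDeriv ℝ n (f : ℝ → ℂ) (t - a)‖) := by
            rw [mul_pow]
            ring
      _ ≤ (1 + |a|) ^ k * (2 ^ k * ((Finset.Iic (k, n)).sup (schwartzSeminormFamily ℂ ℝ ℂ)) f) := by
            gcongr
      _ = 2 ^ k * (1 + |a|) ^ k * ((Finset.Iic (k, n)).sup (schwartzSeminormFamily ℂ ℝ ℂ)) f := by
            ring

end SF
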