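import Pool.Agent.N246.SF.Defs

/-!
# Project SF: Schwartz seminorms of modulations
-/

open MeasureTheory Filter Set SchwartzMap FourierTransform
open scoped ENNReal NNReal Topology

namespace SF.G2aux

theorem iteratedDeriv_cexp (c : ℂ) (i : ℕ) :
    iteratedDeriv i (fun t : ℝ => Complex.exp (c * t)) =
      fun t : ℝ => c ^ i * Complex.exp (c * t) := by
  induction i with
  | zero =>
    rw [iteratedDeriv_zero]
    funext t
    rw [pow_zero, one_mul]
  | succ i ih =>
    rw [iteratedDeriv_succ, ih]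
    funext t
    have h1 : HasDerivAt (fun t : ℝ => c * (t : ℂ)) c t := by
      simpa using (Complex.ofRealCLM.hasDerivAt (x := t)).const_mul c
    have h2 := (h1.cexp).const_mul (c ^ i)
    rw [h2.deriv]
    ring

theorem contDiff_mod (c : ℂ) (n : ℕ) : ContDiff ℝ n (fun t : ℝ => Complex.exp (c * t)) := by
  apply ContDiff.cexp
  exact contDiff_const.mul Complex.ofRealCLM.contDiff

end SF.G2aux

namespace SF

open SF.G2aux

theorem G2_modulate (k n : ℕ) : ∃ (C : ℝ) (N : ℕ) (s : Finset (ℕ × ℕ)), 0 ≤ C ∧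
    ∀ (a : ℝ) (f g : 𝓢(ℝ, ℂ)), (∀ t : ℝ, g t = Complex.exp (2 * Real.pi * Complex.I * a * t) * f t) →
    SchwartzMap.seminorm ℂ k n g ≤
      C * (1 + |a|) ^ N * (s.sup (schwartzSeminormFamily ℂ ℝ ℂ)) f := by
  refine ⟨(4 * Real.pi) ^ n, n, {k} ×ˢ Finset.range (n + 1), by positivity, ?_⟩
  intro a f g hg
  set S := (({k} ×ˢ Finset.range (n + 1)).sup (schwartzSeminormFamily ℂ ℝ ℂ)) f with hS
  have hS0 : 0 ≤ S := apply_nonneg _ _
  have hgf : (g : ℝ → ℂ) = fun t : ℝ => Complex.exp (2 * Real.pi * Complex.I * a * t) * f t :=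
    funext hg
  have hpi : (1 : ℝ) ≤ 2 * Real.pi := by linarith [Real.pi_gt_three]
  have hc : ‖(2 * Real.pi * Complex.I * a : ℂ)‖ = 2 * Real.pi * |a| := by
    rw [norm_mul, norm_mul, norm_mul, Complex.norm_I, Complex.norm_real, Complex.norm_real,
      Real.norm_eq_abs, Real.norm_eq_abs, abs_of_pos Real.pi_pos]
    norm_num
  apply SchwartzMap.seminorm_le_bound ℂ k n g (by positivity)
  intro t
  rw [hgf]
  have h1 := norm_iteratedFDeriv_mul_le (𝕜 := ℝ) (N := n) (n := n)
    (contDiff_mod (2 * Real.pi * Complex.I * a) n) (f.smooth n) t le_rfl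
  have h2 : ∀ i ∈ Finset.range (n + 1), ‖t‖ ^ k * ((n.choose i : ℝ) *
      ‖iteratedFDeriv ℝ i (fun t : ℝ => Complex.exp (2 * Real.pi * Complex.I * a * t)) t‖ *
      ‖iteratedFDeriv ℝ (n - i) f t‖) ≤ (n.choose i : ℝ) * ((2 * Real.pi * (1 + |a|)) ^ n * S) := by
    intro i hi
    have hin : i ≤ n := by
      have := Finset.mem_range.1 hi
      omega
    rw [norm_iteratedFDeriv_eq_norm_iteratedDeriv, iteratedDeriv_cexp, norm_mul, norm_pow, hc]
    have h3 : ‖Complex.exp (2 * Real.pi * Complex.I * a * t)‖ = 1 := by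
      have : (2 * Real.pi * Complex.I * a * t : ℂ) = ((2 * Real.pi * a * t : ℝ) : ℂ) * Complex.I := by
        push_cast
        ring
      rw [this, Complex.norm_exp_ofReal_mul_I]
    rw [h3, mul_one]
    have h4 : ‖t‖ ^ k * ‖iteratedFDeriv ℝ (n - i) f t‖ ≤ S := by
      refine le_trans (SchwartzMap.le_seminorm ℂ k (n - i) f t) ?_
      rw [hS]
      have hmem : (k, n - i) ∈ ({k} ×ˢ Finset.range (n + 1) : Finset (ℕ × ℕ)) := by
        rw [Finset.mem_product, Finset.mem_singleton, Finset.mem_range]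
        exact ⟨rfl, by simp only; omega⟩
      exact Seminorm.le_finset_sup_apply (p := schwartzSeminormFamily ℂ ℝ ℂ) hmem
    have h5 : (2 * Real.pi * |a|) ^ i ≤ (2 * Real.pi * (1 + |a|)) ^ n := by
      have h6 : 2 * Real.pi * |a| ≤ 2 * Real.pi * (1 + |a|) := by
        apply mul_le_mul_of_nonneg_left _ (by positivity)
        linarith
      have h7 : (1 : ℝ) ≤ 2 * Real.pi * (1 + |a|) := by
        have := abs_nonneg a
        nlinarith
      exact le_trans (pow_le_pow_left₀ (by positivity) h6 i) (pow_le_pow_right₀ h7 hin)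
    calc ‖t‖ ^ k * ((n.choose i : ℝ) * (2 * Real.pi * |a|) ^ i * ‖iteratedFDeriv ℝ (n - i) f t‖)
        = (n.choose i : ℝ) * ((2 * Real.pi * |a|) ^ i *
            (‖t‖ ^ k * ‖iteratedFDeriv ℝ (n - i) f t‖)) := by ring
      _ ≤ (n.choose i : ℝ) * ((2 * Real.pi * (1 + |a|)) ^ n * S) := by
          apply mul_le_mul_of_nonneg_left _ (by positivity)
          exact mul_le_mul h5 h4 (by positivity) (by positivity)
  calc ‖t‖ ^ k * ‖iteratedFDeriv ℝ n
        (fun t : ℝ => Complex.exp (2 * Real.pi * Complex.I * a * t) * f t) t‖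
      ≤ ‖t‖ ^ k * ∑ i ∈ Finset.range (n + 1), (n.choose i : ℝ) *
          ‖iteratedFDeriv ℝ i (fun t : ℝ => Complex.exp (2 * Real.pi * Complex.I * a * t)) t‖ *
          ‖iteratedFDeriv ℝ (n - i) f t‖ := mul_le_mul_of_nonneg_left h1 (by positivity)
    _ = ∑ i ∈ Finset.range (n + 1), ‖t‖ ^ k * ((n.choose i : ℝ) *
          ‖iteratedFDeriv ℝ i (fun t : ℝ => Complex.exp (2 * Real.pi * Complex.I * a * t)) t‖ *
          ‖iteratedFDeriv ℝ (n - i) f t‖) := Finset.mul_sum _ _ _
    _ ≤ ∑ i ∈ Finset.range (n + 1), (n.choose i : ℝ) * ((2 * Real.pi * (1 + |a|)) ^ n * S) :=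
        Finset.sum_le_sum h2
    _ = 2 ^ n * ((2 * Real.pi * (1 + |a|)) ^ n * S) := by
        rw [← Finset.sum_mul]
        congr 1
        exact_mod_cast Nat.sum_range_choose n
    _ = (4 * Real.pi) ^ n * (1 + |a|) ^ n * S := by
        rw [mul_pow (2 * Real.pi), mul_pow 2 Real.pi, mul_pow 4 Real.pi,
          show (4 : ℝ) = 2 * 2 by norm_num, mul_pow 2 2]
        ring

end SF
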