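import Pool.Agent.N246.SF.Defs

/-!
# Project SF, G3: counting nodes from continuity of the analysis operator
-/

open MeasureTheory Filter Set SchwartzMap FourierTransform
open scoped ENNReal NNReal Topology ContDiff

namespace SF

namespace G3aux

theorem bump : ∃ φ : 𝓢(ℝ, ℂ), φ 0 = 1 := by
  let f : ContDiffBump (0 : ℝ) := ⟨1, 2, one_pos, by norm_num⟩
  have h1 : HasCompactSupport (fun t : ℝ => ((f t : ℝ) : ℂ)) :=
    f.hasCompactSupport.comp_left (g := fun r : ℝ => (r : ℂ)) (by simp)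
  have h2 : ContDiff ℝ ∞ (fun t : ℝ => ((f t : ℝ) : ℂ)) :=
    Complex.ofRealCLM.contDiff.comp f.contDiff
  refine ⟨h1.toSchwartzMap h2, ?_⟩
  show ((f 0 : ℝ) : ℂ) = 1
  rw [f.one_of_mem_closedBall (by simp [f])]
  simp

/-- the seminorms of the translates of a fixed function grow polynomially -/
theorem trans_bound (φ : 𝓢(ℝ, ℂ)) (k n : ℕ) : ∃ C : ℝ, 0 ≤ C ∧ ∀ a : ℝ,
    SchwartzMap.seminorm ℂ k n (φ.compSubConstCLM ℂ a) ≤ C * (1 + |a|) ^ k := by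
  refine ⟨2 ^ k * (Finset.Iic (k, n)).sup (fun m => SchwartzMap.seminorm ℂ m.1 m.2) φ,
    by positivity, fun a => ?_⟩
  refine SchwartzMap.seminorm_le_bound ℂ k n _ (by positivity) fun t => ?_
  have h1 : iteratedFDeriv ℝ n (⇑(φ.compSubConstCLM ℂ a)) t = iteratedFDeriv ℝ n φ (t - a) := by
    have h2 : (⇑(φ.compSubConstCLM ℂ a) : ℝ → ℂ) = fun z => φ (z - a) := rfl
    rw [h2, iteratedFDeriv_comp_sub]
  rw [h1]
  have h3 := SchwartzMap.one_add_le_sup_seminorm_apply (𝕜 := ℂ) (m := (k, n)) (k := k) (n := n)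
    le_rfl le_rfl φ (t - a)
  have h4 : ‖t‖ ≤ (1 + |a|) * (1 + ‖t - a‖) := by
    have h5 : ‖t‖ ≤ ‖t - a‖ + |a| := by
      calc ‖t‖ = ‖(t - a) + a‖ := by rw [sub_add_cancel]
        _ ≤ ‖t - a‖ + ‖a‖ := norm_add_le _ _
        _ = ‖t - a‖ + |a| := rfl
    nlinarith [abs_nonneg a, norm_nonneg (t - a), mul_nonneg (abs_nonneg a) (norm_nonneg (t - a))]
  calc ‖t‖ ^ k * ‖iteratedFDeriv ℝ n φ (t - a)‖
      ≤ ((1 + |a|) * (1 + ‖t - a‖)) ^ k * ‖iteratedFDeriv ℝ n φ (t - a)‖ :=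
        mul_le_mul_of_nonneg_right (pow_le_pow_left₀ (norm_nonneg t) h4 k) (norm_nonneg _)
    _ = (1 + |a|) ^ k * ((1 + ‖t - a‖) ^ k * ‖iteratedFDeriv ℝ n φ (t - a)‖) := by
        rw [mul_pow, mul_assoc]
    _ ≤ (1 + |a|) ^ k * (2 ^ k *
          (Finset.Iic (k, n)).sup (fun m => SchwartzMap.seminorm ℂ m.1 m.2) φ) :=
        mul_le_mul_of_nonneg_left h3 (by positivity)
    _ = _ := by ring

theorem sup_bound (φ : 𝓢(ℝ, ℂ)) (s : Finset (ℕ × ℕ)) : ∃ (D : ℝ) (a : ℕ), 0 ≤ D ∧ ∀ c : ℝ,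
    (s.sup (schwartzSeminormFamily ℂ ℝ ℂ)) (φ.compSubConstCLM ℂ c) ≤ D * (1 + |c|) ^ a := by
  choose C hC0 hC using fun i : ℕ × ℕ => trans_bound φ i.1 i.2
  refine ⟨∑ i ∈ s, C i, ∑ i ∈ s, i.1, Finset.sum_nonneg fun i _ => hC0 i, fun c => ?_⟩
  have h1 : (1 : ℝ) ≤ 1 + |c| := by linarith [abs_nonneg c]
  have hs : 0 ≤ ∑ i ∈ s, C i := Finset.sum_nonneg fun i _ => hC0 i
  refine Seminorm.finset_sup_apply_le (by positivity) fun i hi => ?_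
  refine (hC i c).trans ?_
  have h2 : C i ≤ ∑ i ∈ s, C i := Finset.single_le_sum (fun i _ => hC0 i) hi
  have h3 : i.1 ≤ ∑ i ∈ s, i.1 := Finset.single_le_sum (f := fun i : ℕ × ℕ => i.1)
    (fun i _ => Nat.zero_le _) hi
  exact mul_le_mul h2 (pow_le_pow_right₀ h1 h3) (by positivity) hs

/-- a continuous seminorm of the translates of a fixed function grows polynomially -/
theorem cont_bound (φ : 𝓢(ℝ, ℂ)) (q : Seminorm ℂ 𝓢(ℝ, ℂ)) (hq : Continuous q) :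
    ∃ (D : ℝ) (a : ℕ), 0 ≤ D ∧ ∀ c : ℝ, q (φ.compSubConstCLM ℂ c) ≤ D * (1 + |c|) ^ a := by
  obtain ⟨s, C, -, hC⟩ := Seminorm.bound_of_continuous (schwartz_withSeminorms ℂ ℝ ℂ) q hq
  obtain ⟨D, a, hD, hs⟩ := sup_bound φ s
  refine ⟨C * D, a, by positivity, fun c => ?_⟩
  refine (hC _).trans ?_
  rw [Seminorm.smul_apply, NNReal.smul_def, smul_eq_mul, mul_assoc]
  exact mul_le_mul_of_nonneg_left (hs c) C.2

end G3aux

open G3aux in
theorem G3_nodes {x y : ℤ → ℝ} {R : 𝓢(ℝ, ℂ) →ₗ[ℂ] RapidSeq × RapidSeq}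
    (hR : IsAnalysis x y R) (hc : Continuous R) :
    ∃ (C : ℝ) (a : ℕ), 0 < C ∧ ∀ n : ℤ, 1 + |(n : ℝ)| ≤ C * (1 + |x n|) ^ a ∧
      1 + |(n : ℝ)| ≤ C * (1 + |y n|) ^ a := by
  obtain ⟨φ, hφ⟩ := bump
  have hsem : Continuous (RapidSeq.seminorm 1) := RapidSeq.withSeminorms.continuous_seminorm 1
  obtain ⟨D₁, a₁, hD₁, h₁⟩ := cont_bound φ
    ((RapidSeq.seminorm 1).comp ((LinearMap.fst ℂ RapidSeq RapidSeq).comp R))
    (hsem.comp (continuous_fst.comp hc))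
  obtain ⟨D₂, a₂, hD₂, h₂⟩ := cont_bound φ
    ((RapidSeq.seminorm 1).comp (((LinearMap.snd ℂ RapidSeq RapidSeq).comp R).comp
      ((FourierTransform.fourierCLE ℂ 𝓢(ℝ, ℂ)).symm : 𝓢(ℝ, ℂ) →L[ℂ] 𝓢(ℝ, ℂ)).toLinearMap))
    (hsem.comp (continuous_snd.comp (hc.comp
      (FourierTransform.fourierCLE ℂ 𝓢(ℝ, ℂ)).symm.continuous)))
  refine ⟨D₁ + D₂ + 1, a₁ + a₂, by positivity, fun n => ⟨?_, ?_⟩⟩
  · have h3 := h₁ (x n)
    rw [Seminorm.comp_apply] at h3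
    have h4 := RapidSeq.le_seminorm 1 (((LinearMap.fst ℂ RapidSeq RapidSeq).comp R)
      (φ.compSubConstCLM ℂ (x n))) n
    have h5 : (((LinearMap.fst ℂ RapidSeq RapidSeq).comp R) (φ.compSubConstCLM ℂ (x n))) n = 1 := by
      show (R (φ.compSubConstCLM ℂ (x n))).1 n = 1
      rw [(hR _ n).1, SchwartzMap.compSubConstCLM_apply, sub_self, hφ]
    rw [h5, pow_one, norm_one, mul_one] at h4
    have h6 : (1 : ℝ) ≤ 1 + |x n| := by linarith [abs_nonneg (x n)]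
    calc 1 + |(n : ℝ)| ≤ D₁ * (1 + |x n|) ^ a₁ := h4.trans h3
      _ ≤ (D₁ + D₂ + 1) * (1 + |x n|) ^ (a₁ + a₂) :=
          mul_le_mul (by linarith) (pow_le_pow_right₀ h6 (by omega)) (by positivity) (by positivity)
  · have h3 := h₂ (y n)
    rw [Seminorm.comp_apply] at h3
    set f : 𝓢(ℝ, ℂ) := (FourierTransform.fourierCLE ℂ 𝓢(ℝ, ℂ)).symm (φ.compSubConstCLM ℂ (y n))
      with hf
    have h7 : 𝓕 f = φ.compSubConstCLM ℂ (y n) := by
      have := (FourierTransform.fourierCLE ℂ 𝓢(ℝ, ℂ)).apply_symm_apply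
        (φ.compSubConstCLM ℂ (y n))
      rw [← hf] at this
      exact this
    have h4 := RapidSeq.le_seminorm 1 (R f).2 n
    have h5 : (R f).2 n = 1 := by
      rw [(hR _ n).2, h7, SchwartzMap.compSubConstCLM_apply, sub_self, hφ]
    rw [h5, pow_one, norm_one, mul_one] at h4
    have h6 : (1 : ℝ) ≤ 1 + |y n| := by linarith [abs_nonneg (y n)]
    calc 1 + |(n : ℝ)| ≤ D₂ * (1 + |y n|) ^ a₂ := h4.trans h3
      _ ≤ (D₁ + D₂ + 1) * (1 + |y n|) ^ (a₁ + a₂) :=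
          mul_le_mul (by linarith) (pow_le_pow_right₀ h6 (by omega)) (by positivity) (by positivity)

end SF
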