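import Pool.Agent.N246.SF.Defs

/-!
# Project SF (helper246), piece G4 (helper123): the lower frame bound controls the `L²` norm
-/

open MeasureTheory Filter Set SchwartzMap FourierTransform
open scoped ENNReal NNReal Topology

namespace SF

namespace G4aux

lemma mono {k l : ℕ} (h : k ≤ l) : RapidSeq.seminorm k ≤ RapidSeq.seminorm l := by
  intro c
  refine RapidSeq.seminorm_le fun n => ?_
  refine le_trans ?_ (RapidSeq.le_seminorm l c n)
  refine mul_le_mul_of_nonneg_right ?_ (norm_nonneg _)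
  exact pow_le_pow_right₀ (by have := abs_nonneg (n : ℝ); linarith) h

lemma ball {U : Set RapidSeq} (hU : U ∈ 𝓝 (0 : RapidSeq)) :
    ∃ (K : ℕ) (r : ℝ), 0 < r ∧ ∀ c : RapidSeq, RapidSeq.seminorm K c < r → c ∈ U := by
  obtain ⟨s, r, hr, h⟩ := (RapidSeq.withSeminorms.mem_nhds_iff 0 U).1 hU
  refine ⟨s.sup id, r, hr, fun c hc => h ?_⟩
  rw [Seminorm.mem_ball, sub_zero]
  refine lt_of_le_of_lt ?_ hc
  have h1 : s.sup (fun k => RapidSeq.seminorm k) ≤ RapidSeq.seminorm (s.sup id) :=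
    Finset.sup_le fun k hk => mono (Finset.le_sup (f := id) hk)
  exact h1 c

lemma norm_eq (f : 𝓢(ℝ, ℂ)) : ‖f.toLp 2 (volume : Measure ℝ)‖ = Real.sqrt (∫ t, ‖f t‖ ^ 2) := by
  rw [SchwartzMap.norm_toLp' (by norm_num) (by norm_num), Real.sqrt_eq_rpow]
  simp

end G4aux

open G4aux in
theorem G4_lower {R : 𝓢(ℝ, ℂ) →ₗ[ℂ] RapidSeq × RapidSeq} (hR : Topology.IsEmbedding R) :
    ∃ (C : ℝ) (K : ℕ), 0 ≤ C ∧ ∀ f : 𝓢(ℝ, ℂ),
      Real.sqrt (∫ t, ‖f t‖ ^ 2) ≤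
        C * (RapidSeq.seminorm K (R f).1 + RapidSeq.seminorm K (R f).2) := by
  have hU : {f : 𝓢(ℝ, ℂ) | ‖f.toLp 2 (volume : Measure ℝ)‖ < 1} ∈ 𝓝 (0 : 𝓢(ℝ, ℂ)) := by
    have hc : Continuous fun f : 𝓢(ℝ, ℂ) => ‖f.toLp 2 (volume : Measure ℝ)‖ :=
      SchwartzMap.continuous_toLp.norm
    refine (isOpen_lt hc continuous_const).mem_nhds ?_
    have h0 : (0 : 𝓢(ℝ, ℂ)).toLp 2 (volume : Measure ℝ) = 0 :=
      map_zero (SchwartzMap.toLpCLM ℂ ℂ 2 (volume : Measure ℝ))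
    show ‖(0 : 𝓢(ℝ, ℂ)).toLp 2 (volume : Measure ℝ)‖ < 1
    rw [h0, norm_zero]
    exact one_pos
  rw [hR.toIsInducing.nhds_eq_comap, mem_comap] at hU
  obtain ⟨V, hV, hVU⟩ := hU
  rw [map_zero] at hV
  obtain ⟨U1, hU1, U2, hU2, h12⟩ := mem_nhds_prod_iff.1 hV
  obtain ⟨K1, r1, hr1, hb1⟩ := ball hU1
  obtain ⟨K2, r2, hr2, hb2⟩ := ball hU2
  set K := max K1 K2 with hK
  set r := min r1 r2 with hr
  have hr0 : 0 < r := lt_min hr1 hr2
  have key : ∀ f : 𝓢(ℝ, ℂ), RapidSeq.seminorm K (R f).1 < r → RapidSeq.seminorm K (R f).2 < r →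
      ‖f.toLp 2 (volume : Measure ℝ)‖ < 1 := by
    intro f h1 h2
    have h3 : R f ∈ V := by
      refine h12 ⟨hb1 _ ?_, hb2 _ ?_⟩
      · exact lt_of_le_of_lt (mono (le_max_left K1 K2) _) (h1.trans_le (min_le_left _ _))
      · exact lt_of_le_of_lt (mono (le_max_right K1 K2) _) (h2.trans_le (min_le_right _ _))
    exact hVU h3
  refine ⟨1 / r, K, by positivity, fun f => ?_⟩
  rw [← norm_eq]
  have ha : 0 ≤ RapidSeq.seminorm K (R f).1 := apply_nonneg _ _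
  have hb : 0 ≤ RapidSeq.seminorm K (R f).2 := apply_nonneg _ _
  set S := RapidSeq.seminorm K (R f).1 + RapidSeq.seminorm K (R f).2 with hS
  refine le_of_forall_pos_le_add fun ε hε => ?_
  have hS0 : 0 < S + r * ε := by positivity
  set t : ℝ := r / (S + r * ε) with ht
  have ht0 : 0 < t := by positivity
  have htS : t * S < r := by
    rw [ht, div_mul_eq_mul_div, div_lt_iff₀ hS0]
    have := mul_pos hr0 (mul_pos hr0 hε)
    nlinarith
  have e1 : RapidSeq.seminorm K (R ((t : ℂ) • f)).1 = t * RapidSeq.seminorm K (R f).1 := by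
    rw [map_smul, Prod.smul_fst, map_smul_eq_mul, Complex.norm_real, Real.norm_of_nonneg ht0.le]
  have e2 : RapidSeq.seminorm K (R ((t : ℂ) • f)).2 = t * RapidSeq.seminorm K (R f).2 := by
    rw [map_smul, Prod.smul_snd, map_smul_eq_mul, Complex.norm_real, Real.norm_of_nonneg ht0.le]
  have h1 := key ((t : ℂ) • f) (by rw [e1]; nlinarith) (by rw [e2]; nlinarith)
  have e3 : ((t : ℂ) • f).toLp 2 (volume : Measure ℝ) = (t : ℂ) • f.toLp 2 (volume : Measure ℝ) :=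
    map_smul (SchwartzMap.toLpCLM ℂ ℂ 2 (volume : Measure ℝ)) (t : ℂ) f
  rw [e3, norm_smul, Complex.norm_real, Real.norm_of_nonneg ht0.le, ht, div_mul_eq_mul_div,
    div_lt_iff₀ hS0, one_mul] at h1
  have e4 : 1 / r * S + ε = (S + r * ε) / r := by field_simp
  rw [e4, le_div_iff₀ hr0]
  linarith

end SF
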