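import Pool.Agent.N246.SF.Defs

/-!
# SF/G5: weighted sums on the space of rapidly decreasing sequences
-/

open MeasureTheory Filter Set SchwartzMap FourierTransform
open scoped ENNReal NNReal Topology

namespace SF

namespace G5aux

theorem summable_inv_sq : Summable (fun n : ℤ => ((1 + |(n : ℝ)|) ^ 2)⁻¹) := by
  have h0 : Summable (fun n : ℕ => ((1 + (n : ℝ)) ^ 2)⁻¹) := by
    have h1 := (summable_nat_add_iff (f := fun n : ℕ => 1 / (n : ℝ) ^ 2) 1).2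
      (Real.summable_one_div_nat_pow.2 one_lt_two)
    refine h1.congr fun n => ?_
    rw [one_div, Nat.cast_add, Nat.cast_one, add_comm (n : ℝ) 1]
  rw [summable_int_iff_summable_nat_and_neg]
  constructor
  · refine h0.congr fun n => ?_
    rw [Int.cast_natCast, Nat.abs_cast]
  · refine h0.congr fun n => ?_
    rw [Int.cast_neg, abs_neg, Int.cast_natCast, Nat.abs_cast]

theorem W_nonneg (p : ℝ) (k j : ℕ) {T : ℝ} (hT : 1 ≤ T) (x : ℝ) : 0 ≤ W p k j T x := by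
  unfold W wt
  have h1 : 0 ≤ (max 1 |x|) ^ p := by positivity
  have h2 : 0 ≤ min ((max 1 |x|) ^ p) T := le_min h1 (by linarith)
  positivity

theorem W_le (p : ℝ) (k j : ℕ) {T : ℝ} (hT : 1 ≤ T) (x : ℝ) :
    W p k j T x ≤ ((max 1 |x|) ^ p) ^ (k + j) := by
  unfold W wt
  have h1 : 0 ≤ (max 1 |x|) ^ p := by positivity
  have h2 : 0 ≤ min ((max 1 |x|) ^ p) T := le_min h1 (by linarith)
  rw [pow_add]
  exact mul_le_mul_of_nonneg_left (pow_le_pow_left₀ h2 (min_le_left _ _) j) (by positivity)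

end G5aux

/-- G5 -/
theorem G5_summable {p : ℝ} (hp : 1 < p) {x : ℤ → ℝ} {Cx : ℝ} (hCx : 0 < Cx)
    (hx : ∀ n : ℤ, |x n| ≤ Cx * (1 + |(n : ℝ)|)) (m : ℕ) :
    ∃ (C : ℝ) (L : ℕ), 0 ≤ C ∧ ∀ c : RapidSeq,
      Summable (fun n : ℤ => ((max 1 |x n|) ^ p) ^ m * ‖c n‖) ∧
      (∑' n : ℤ, ((max 1 |x n|) ^ p) ^ m * ‖c n‖) ≤ C * RapidSeq.seminorm L c ∧
      (∀ (k j : ℕ) (T : ℝ), k + j = m → 1 ≤ T →
        Summable (fun n : ℤ => W p k j T (x n) * ‖c n‖) ∧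
        (∑' n : ℤ, W p k j T (x n) * ‖c n‖) ≤ ∑' n : ℤ, ((max 1 |x n|) ^ p) ^ m * ‖c n‖) := by
  obtain ⟨C', hC'⟩ : ∃ C' : ℝ, C' = max 1 Cx := ⟨_, rfl⟩
  have hC1 : 1 ≤ C' := by rw [hC']; exact le_max_left _ _
  obtain ⟨N, hN⟩ : ∃ N : ℕ, N = ⌈p⌉₊ * m := ⟨_, rfl⟩
  have hw0 : ∀ n : ℤ, 0 ≤ ((max 1 |x n|) ^ p) ^ m := fun n => by positivity
  have hw : ∀ n : ℤ, ((max 1 |x n|) ^ p) ^ m ≤ C' ^ N * (1 + |(n : ℝ)|) ^ N := by
    intro n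
    have h1 : max 1 |x n| ≤ C' * (1 + |(n : ℝ)|) := by
      have h0 : 0 ≤ |(n : ℝ)| := abs_nonneg _
      refine max_le ?_ ((hx n).trans (mul_le_mul_of_nonneg_right ?_ (by positivity)))
      · nlinarith
      · rw [hC']
        exact le_max_right _ _
    have h2 : (max 1 |x n|) ^ p ≤ (C' * (1 + |(n : ℝ)|)) ^ ⌈p⌉₊ := by
      have h3 : (max 1 |x n|) ^ p ≤ (max 1 |x n|) ^ ((⌈p⌉₊ : ℕ) : ℝ) :=
        Real.rpow_le_rpow_of_exponent_le (le_max_left _ _) (Nat.le_ceil p)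
      rw [Real.rpow_natCast] at h3
      exact h3.trans (pow_le_pow_left₀ (by positivity) h1 _)
    calc ((max 1 |x n|) ^ p) ^ m ≤ ((C' * (1 + |(n : ℝ)|)) ^ ⌈p⌉₊) ^ m :=
          pow_le_pow_left₀ (by positivity) h2 m
      _ = C' ^ N * (1 + |(n : ℝ)|) ^ N := by rw [← pow_mul, ← hN, mul_pow]
  have hS := G5aux.summable_inv_sq
  have hS0 : 0 ≤ ∑' n : ℤ, ((1 + |(n : ℝ)|) ^ 2)⁻¹ := tsum_nonneg fun n => by positivity
  refine ⟨C' ^ N * ∑' n : ℤ, ((1 + |(n : ℝ)|) ^ 2)⁻¹, N + 2, by positivity, fun c => ?_⟩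
  have hb : ∀ n : ℤ, ((max 1 |x n|) ^ p) ^ m * ‖c n‖ ≤
      C' ^ N * RapidSeq.seminorm (N + 2) c * ((1 + |(n : ℝ)|) ^ 2)⁻¹ := by
    intro n
    have h1 := RapidSeq.le_seminorm (N + 2) c n
    have h2 : (0 : ℝ) < (1 + |(n : ℝ)|) ^ 2 := by positivity
    have h3 : (1 + |(n : ℝ)|) ^ N * ‖c n‖ ≤ RapidSeq.seminorm (N + 2) c * ((1 + |(n : ℝ)|) ^ 2)⁻¹ := by
      rw [← div_eq_mul_inv, le_div_iff₀ h2]
      calc (1 + |(n : ℝ)|) ^ N * ‖c n‖ * (1 + |(n : ℝ)|) ^ 2 = (1 + |(n : ℝ)|) ^ (N + 2) * ‖c n‖ := by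
            rw [pow_add]
            ring
        _ ≤ _ := h1
    calc ((max 1 |x n|) ^ p) ^ m * ‖c n‖ ≤ (C' ^ N * (1 + |(n : ℝ)|) ^ N) * ‖c n‖ :=
          mul_le_mul_of_nonneg_right (hw n) (norm_nonneg _)
      _ = C' ^ N * ((1 + |(n : ℝ)|) ^ N * ‖c n‖) := by ring
      _ ≤ C' ^ N * (RapidSeq.seminorm (N + 2) c * ((1 + |(n : ℝ)|) ^ 2)⁻¹) :=
          mul_le_mul_of_nonneg_left h3 (by positivity)
      _ = _ := by ring
  have hsum2 : Summable fun n : ℤ => C' ^ N * RapidSeq.seminorm (N + 2) c *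
      ((1 + |(n : ℝ)|) ^ 2)⁻¹ := hS.mul_left _
  have hsum : Summable (fun n : ℤ => ((max 1 |x n|) ^ p) ^ m * ‖c n‖) :=
    Summable.of_nonneg_of_le (fun n => mul_nonneg (hw0 n) (norm_nonneg _)) hb hsum2
  refine ⟨hsum, ?_, fun k j T hkj hT => ?_⟩
  · calc (∑' n : ℤ, ((max 1 |x n|) ^ p) ^ m * ‖c n‖)
        ≤ ∑' n : ℤ, C' ^ N * RapidSeq.seminorm (N + 2) c * ((1 + |(n : ℝ)|) ^ 2)⁻¹ :=
          hsum.tsum_le_tsum hb hsum2
      _ = _ := by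
          rw [tsum_mul_left]
          ring
  · have hle : ∀ n : ℤ, W p k j T (x n) * ‖c n‖ ≤ ((max 1 |x n|) ^ p) ^ m * ‖c n‖ := by
      intro n
      rw [← hkj]
      exact mul_le_mul_of_nonneg_right (G5aux.W_le p k j hT (x n)) (norm_nonneg _)
    have hs : Summable (fun n : ℤ => W p k j T (x n) * ‖c n‖) :=
      Summable.of_nonneg_of_le (fun n => mul_nonneg (G5aux.W_nonneg p k j hT (x n))
        (norm_nonneg _)) hle hsum
    exact ⟨hs, hs.tsum_le_tsum hle hsum⟩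

end SF
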