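import Pool.Agent.N246.SF.Defs
import Pool.Agent.N246.SF.A2
import Pool.Agent.N246.SF.E2
import Pool.Agent.N246.SF.F2
import Pool.Agent.N246.SF.G3
import Pool.Agent.N246.SF.G4
import Pool.Agent.N246.SF.G5

/-!
# Project SF, piece G6: the frame inequality (F)
-/

open MeasureTheory Filter Set SchwartzMap FourierTransform
open scoped ENNReal NNReal Topology

namespace SF

namespace G6aux

theorem W_nonneg (r : ℝ) (k j : ℕ) {T : ℝ} (hT : 1 ≤ T) (x : ℝ) : 0 ≤ W r k j T x := by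
  unfold W wt
  have h1 : (0 : ℝ) ≤ (max 1 |x|) ^ r := by positivity
  have h2 : (0 : ℝ) ≤ min ((max 1 |x|) ^ r) T := le_min h1 (by linarith)
  positivity

theorem W_meas (r : ℝ) (k j : ℕ) (T : ℝ) : Measurable (fun x => W r k j T x) := by
  unfold W wt
  fun_prop

/-- the seminorm of the samples is bounded by the weighted sum -/
theorem seminorm_le_sum {p : ℝ} (hp : 1 < p) {x : ℤ → ℝ} {C3 : ℝ} {a : ℕ} (hC3 : 0 < C3)
    (h3 : ∀ n : ℤ, 1 + |(n : ℝ)| ≤ C3 * (1 + |x n|) ^ a) (K k j : ℕ) (hk : a * K ≤ k)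
    {T : ℝ} (hT : 1 ≤ T) (c : RapidSeq) (hs : Summable (fun n : ℤ => W p k j T (x n) * ‖c n‖)) :
    RapidSeq.seminorm K c ≤ (C3 ^ K * 2 ^ (a * K)) * ∑' n : ℤ, W p k j T (x n) * ‖c n‖ := by
  refine RapidSeq.seminorm_le fun n => ?_
  have hW0 := W_nonneg p k j hT (x n)
  set M : ℝ := max 1 |x n| with hM
  have hM1 : 1 ≤ M := le_max_left _ _
  have hxM : |x n| ≤ M := le_max_right _ _
  have hMp : M ≤ M ^ p := by
    calc M = M ^ (1 : ℝ) := (Real.rpow_one M).symm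
      _ ≤ M ^ p := Real.rpow_le_rpow_of_exponent_le hM1 hp.le
  have hMp1 : 1 ≤ M ^ p := hM1.trans hMp
  have hW : (M ^ p) ^ k ≤ W p k j T (x n) := (SF.E2_growth k j hT).2.2.2.1 _ hMp1
  have h4 : M ^ (a * K) ≤ W p k j T (x n) := by
    calc M ^ (a * K) ≤ M ^ k := pow_le_pow_right₀ hM1 hk
      _ ≤ (M ^ p) ^ k := pow_le_pow_left₀ (by linarith) hMp k
      _ ≤ _ := hW
  have h5 : (1 + |(n : ℝ)|) ^ K ≤ C3 ^ K * 2 ^ (a * K) * W p k j T (x n) := by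
    calc (1 + |(n : ℝ)|) ^ K ≤ (C3 * (1 + |x n|) ^ a) ^ K :=
          pow_le_pow_left₀ (by positivity) (h3 n) K
      _ = C3 ^ K * (1 + |x n|) ^ (a * K) := by rw [mul_pow, ← pow_mul]
      _ ≤ C3 ^ K * (2 * M) ^ (a * K) := by
          apply mul_le_mul_of_nonneg_left _ (by positivity)
          apply pow_le_pow_left₀ (by positivity)
          linarith
      _ = C3 ^ K * 2 ^ (a * K) * M ^ (a * K) := by rw [mul_pow]; ring
      _ ≤ _ := mul_le_mul_of_nonneg_left h4 (by positivity)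
  have h6 : W p k j T (x n) * ‖c n‖ ≤ ∑' n : ℤ, W p k j T (x n) * ‖c n‖ :=
    hs.le_tsum n (fun m _ => mul_nonneg (W_nonneg p k j hT (x m)) (norm_nonneg _))
  calc (1 + |(n : ℝ)|) ^ K * ‖c n‖ ≤ (C3 ^ K * 2 ^ (a * K) * W p k j T (x n)) * ‖c n‖ :=
        mul_le_mul_of_nonneg_right h5 (norm_nonneg _)
    _ = C3 ^ K * 2 ^ (a * K) * (W p k j T (x n) * ‖c n‖) := by ring
    _ ≤ _ := mul_le_mul_of_nonneg_left h6 (by positivity)

/-- the sum of the squares is at most the square of the sum -/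
theorem sum_sq_le {p : ℝ} (x : ℤ → ℝ) (k j : ℕ) {T : ℝ} (hT : 1 ≤ T) (v : ℤ → ℂ)
    (hs : Summable (fun n : ℤ => W p k j T (x n) * ‖v n‖)) :
    (∑' n : ℤ, ENNReal.ofReal (W p k j T (x n) ^ 2) * ‖v n‖ₑ ^ 2) ≤
      ENNReal.ofReal ((∑' n : ℤ, W p k j T (x n) * ‖v n‖) ^ 2) := by
  have hnn : ∀ n, 0 ≤ W p k j T (x n) * ‖v n‖ :=
    fun n => mul_nonneg (W_nonneg p k j hT (x n)) (norm_nonneg _)
  have hS0 : 0 ≤ ∑' n : ℤ, W p k j T (x n) * ‖v n‖ := tsum_nonneg hnn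
  have he : ∀ n, ENNReal.ofReal (W p k j T (x n) ^ 2) * ‖v n‖ₑ ^ 2 =
      ENNReal.ofReal (W p k j T (x n) * ‖v n‖) * ENNReal.ofReal (W p k j T (x n) * ‖v n‖) := by
    intro n
    rw [← ENNReal.ofReal_mul (hnn n), ← ofReal_norm, ← ENNReal.ofReal_pow (norm_nonneg _),
      ← ENNReal.ofReal_mul (sq_nonneg _)]
    congr 1; ring
  simp_rw [he]
  rw [ENNReal.ofReal_pow hS0, sq, ENNReal.ofReal_tsum_of_nonneg hnn hs, ← ENNReal.tsum_mul_right]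
  exact ENNReal.tsum_le_tsum fun n => mul_le_mul_right (ENNReal.le_tsum n) _

/-- integral versus lintegral -/
theorem int_le {r : ℝ} (k j : ℕ) {T : ℝ} (f : 𝓢(ℝ, ℂ)) {B : ℝ}
    (hB : 0 ≤ B)
    (h : ∫⁻ t, ENNReal.ofReal (W r k j T t ^ 2) * ‖f t‖ₑ ^ 2 ≤ ENNReal.ofReal B) :
    ∫ t, W r k j T t ^ 2 * ‖f t‖ ^ 2 ≤ B := by
  rw [integral_eq_lintegral_of_nonneg_ae (ae_of_all _ fun t => by positivity)]
  · apply ENNReal.toReal_le_of_le_ofReal hB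
    refine le_trans (le_of_eq (lintegral_congr fun t => ?_)) h
    rw [← ofReal_norm, ← ENNReal.ofReal_pow (norm_nonneg _),
      ← ENNReal.ofReal_mul (sq_nonneg _)]
  · have h1 := W_meas r k j T
    have h2 : Measurable (fun t => f t) := f.continuous.measurable
    exact ((h1.pow_const 2).mul (h2.norm.pow_const 2)).aestronglyMeasurable

theorem l2_eq (f : 𝓢(ℝ, ℂ)) : ∫⁻ t, ‖f t‖ₑ ^ 2 = ENNReal.ofReal (∫ t, ‖f t‖ ^ 2) := by
  have hi : Integrable (fun t => ‖f t‖ ^ 2) := by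
    have := (f.memLp 2 (volume : Measure ℝ)).integrable_norm_pow (p := 2) (by norm_num)
    exact this
  rw [ofReal_integral_eq_lintegral_ofReal hi (ae_of_all _ fun t => by positivity)]
  refine lintegral_congr fun t => ?_
  rw [← ofReal_norm, ← ENNReal.ofReal_pow (norm_nonneg _)]

end G6aux

open G6aux in
theorem G6_frame {p q : ℝ} (hp : 1 < p) (hq : 1 < q) (hpq : 1 / p + 1 / q = 1)
    {ρ R : ℝ} (hρ0 : 0 < ρ) (hρ : ρ < 1 / 2) (hR : 1 ≤ R) {x y : ℤ → ℝ}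
    (hx : GoodNodes p ρ R x) (hy : GoodNodes q ρ R y)
    {A : 𝓢(ℝ, ℂ) →ₗ[ℂ] RapidSeq × RapidSeq} (hA : IsAnalysis x y A)
    (hE : Topology.IsEmbedding A) :
    ∃ k : ℕ, ∀ j : ℕ, ∃ C : ℝ, 0 ≤ C ∧ ∀ T : ℝ, 1 ≤ T → ∀ f : 𝓢(ℝ, ℂ),
      NW p q k j T f ≤ C * Q p q x y k j T (A f) := by
  obtain ⟨CG, K, hCG, hG4⟩ := SF.G4_lower hE
  obtain ⟨C3, a, hC3, hG3⟩ := SF.G3_nodes hA hE.continuous
  obtain ⟨k0, hF2⟩ := SF.F2_apriori hp hq hpq hρ0 hρ hR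
  obtain ⟨Cx, hCx, hx'⟩ := SF.A2_linear_growth hp hρ hR hx
  obtain ⟨Cy, hCy, hy'⟩ := SF.A2_linear_growth hq hρ hR hy
  refine ⟨max k0 (a * K), fun j => ?_⟩
  set k := max k0 (a * K) with hk
  obtain ⟨CF, hCF⟩ := hF2 k j (le_max_left _ _)
  obtain ⟨C5x, Lx, hC5x, h5x⟩ := SF.G5_summable hp hCx hx' (k + j)
  obtain ⟨C5y, Ly, hC5y, h5y⟩ := SF.G5_summable hq hCy hy' (k + j)
  set D : ℝ := C3 ^ K * 2 ^ (a * K) with hD
  have hD0 : 0 ≤ D := by positivity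
  refine ⟨2 * Real.sqrt (CF * (1 + (CG * D) ^ 2)), by positivity, fun T hT f => ?_⟩
  set Sx : ℝ := ∑' n : ℤ, W p k j T (x n) * ‖(A f).1 n‖ with hSx
  set Sy : ℝ := ∑' n : ℤ, W q k j T (y n) * ‖(A f).2 n‖ with hSy
  have hsx : Summable (fun n : ℤ => W p k j T (x n) * ‖(A f).1 n‖) :=
    ((h5x (A f).1).2.2 k j T rfl hT).1
  have hsy : Summable (fun n : ℤ => W q k j T (y n) * ‖(A f).2 n‖) :=
    ((h5y (A f).2).2.2 k j T rfl hT).1
  have hSx0 : 0 ≤ Sx := tsum_nonneg fun n => mul_nonneg (G6aux.W_nonneg p k j hT (x n)) (norm_nonneg _)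
  have hSy0 : 0 ≤ Sy := tsum_nonneg fun n => mul_nonneg (G6aux.W_nonneg q k j hT (y n)) (norm_nonneg _)
  have hQ : Q p q x y k j T (A f) = Sx + Sy := rfl
  rw [hQ]
  have hs1 : RapidSeq.seminorm K (A f).1 ≤ D * Sx :=
    seminorm_le_sum hp hC3 (fun n => (hG3 n).1) K k j (le_max_right _ _) hT _ hsx
  have hs2 : RapidSeq.seminorm K (A f).2 ≤ D * Sy :=
    seminorm_le_sum hq hC3 (fun n => (hG3 n).2) K k j (le_max_right _ _) hT _ hsy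
  have hL2 : Real.sqrt (∫ t, ‖f t‖ ^ 2) ≤ CG * D * (Sx + Sy) := by
    calc Real.sqrt (∫ t, ‖f t‖ ^ 2) ≤
          CG * (RapidSeq.seminorm K (A f).1 + RapidSeq.seminorm K (A f).2) := hG4 f
      _ ≤ CG * (D * Sx + D * Sy) := mul_le_mul_of_nonneg_left (add_le_add hs1 hs2) hCG
      _ = _ := by ring
  have hI0 : 0 ≤ ∫ t, ‖f t‖ ^ 2 := integral_nonneg fun t => by positivity
  have hL2' : ∫ t, ‖f t‖ ^ 2 ≤ (CG * D * (Sx + Sy)) ^ 2 := by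
    rw [← Real.sq_sqrt hI0]
    exact pow_le_pow_left₀ (Real.sqrt_nonneg _) hL2 2
  set B : ℝ := CF * (1 + (CG * D) ^ 2) * (Sx + Sy) ^ 2 with hB
  have hB0 : 0 ≤ B := by positivity
  have hCF0 : (0 : ℝ) ≤ (CF : ℝ) := CF.2
  have hmain : (∫⁻ t, ENNReal.ofReal (W p k j T t ^ 2) * ‖f t‖ₑ ^ 2) +
      (∫⁻ ξ, ENNReal.ofReal (W q k j T ξ ^ 2) * ‖(𝓕 f) ξ‖ₑ ^ 2) ≤ ENNReal.ofReal B := by
    refine (hCF x y hx hy T hT f).trans ?_
    have e1 : (∑' n : ℤ, ENNReal.ofReal (W p k j T (x n) ^ 2) * ‖f (x n)‖ₑ ^ 2) ≤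
        ENNReal.ofReal (Sx ^ 2) := by
      have h := sum_sq_le (p := p) x k j hT (fun n => (A f).1 n) hsx
      refine le_trans (le_of_eq (tsum_congr fun n => ?_)) h
      rw [(hA f n).1]
    have e2 : (∑' n : ℤ, ENNReal.ofReal (W q k j T (y n) ^ 2) * ‖(𝓕 f) (y n)‖ₑ ^ 2) ≤
        ENNReal.ofReal (Sy ^ 2) := by
      have h := sum_sq_le (p := q) y k j hT (fun n => (A f).2 n) hsy
      refine le_trans (le_of_eq (tsum_congr fun n => ?_)) h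
      rw [(hA f n).2]
    have e3 : (∫⁻ t, ‖f t‖ₑ ^ 2) ≤ ENNReal.ofReal ((CG * D * (Sx + Sy)) ^ 2) := by
      rw [l2_eq]
      exact ENNReal.ofReal_le_ofReal hL2'
    calc (CF : ℝ≥0∞) * ((∑' n : ℤ, ENNReal.ofReal (W p k j T (x n) ^ 2) * ‖f (x n)‖ₑ ^ 2)
      + (∑' n : ℤ, ENNReal.ofReal (W q k j T (y n) ^ 2) * ‖(𝓕 f) (y n)‖ₑ ^ 2)
      + ∫⁻ t, ‖f t‖ₑ ^ 2) ≤ (CF : ℝ≥0∞) * (ENNReal.ofReal (Sx ^ 2) + ENNReal.ofReal (Sy ^ 2)
        + ENNReal.ofReal ((CG * D * (Sx + Sy)) ^ 2)) := by gcongr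
      _ = ENNReal.ofReal (CF * (Sx ^ 2 + Sy ^ 2 + (CG * D * (Sx + Sy)) ^ 2)) := by
          rw [← ENNReal.ofReal_add (by positivity) (by positivity),
            ← ENNReal.ofReal_add (by positivity) (by positivity),
            ENNReal.ofReal_mul hCF0, ENNReal.ofReal_coe_nnreal]
      _ ≤ ENNReal.ofReal B := by
          apply ENNReal.ofReal_le_ofReal
          have e4 : Sx ^ 2 + Sy ^ 2 + (CG * D * (Sx + Sy)) ^ 2 ≤
              (1 + (CG * D) ^ 2) * (Sx + Sy) ^ 2 := by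
            nlinarith [mul_nonneg hSx0 hSy0]
          calc (CF : ℝ) * (Sx ^ 2 + Sy ^ 2 + (CG * D * (Sx + Sy)) ^ 2) ≤
                CF * ((1 + (CG * D) ^ 2) * (Sx + Sy) ^ 2) :=
                mul_le_mul_of_nonneg_left e4 hCF0
            _ = B := by rw [hB]; ring
  have hX := int_le (r := p) k j f hB0 ((le_add_right le_rfl).trans hmain)
  have hY := int_le (r := q) k j (𝓕 f) hB0 ((le_add_left le_rfl).trans hmain)
  have hsB : Real.sqrt B = Real.sqrt (CF * (1 + (CG * D) ^ 2)) * (Sx + Sy) := by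
    rw [hB, Real.sqrt_mul (by positivity), Real.sqrt_sq (by positivity)]
  unfold NW
  calc Real.sqrt (∫ t, W p k j T t ^ 2 * ‖f t‖ ^ 2) +
        Real.sqrt (∫ ξ, W q k j T ξ ^ 2 * ‖(𝓕 f) ξ‖ ^ 2) ≤ Real.sqrt B + Real.sqrt B :=
        add_le_add (Real.sqrt_le_sqrt hX) (Real.sqrt_le_sqrt hY)
    _ = 2 * Real.sqrt (CF * (1 + (CG * D) ^ 2)) * (Sx + Sy) := by rw [hsB]; ring

end SF
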