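import Pool.Agent.N246.SF.Defs

/-! Project SF, piece H1 (helper50). -/

open MeasureTheory Filter Set SchwartzMap FourierTransform
open scoped ENNReal NNReal Topology ContDiff

namespace SF

namespace H1aux

/-- smooth step: `0` for `t ≤ 0`, `1` for `t ≥ 1/4` -/
noncomputable def S (t : ℝ) : ℝ := Real.smoothTransition (4 * t)

lemma S_zero {t : ℝ} (h : t ≤ 0) : S t = 0 :=
  Real.smoothTransition.zero_of_nonpos (by linarith)

lemma S_one {t : ℝ} (h : 1 / 4 ≤ t) : S t = 1 :=
  Real.smoothTransition.one_of_one_le (by linarith)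

lemma S_smooth : ContDiff ℝ ∞ S := by
  unfold S
  exact Real.smoothTransition.contDiff.comp (contDiff_const.mul contDiff_id)

/-- the difference of two translates of the step -/
noncomputable def bump (a b : ℝ) (t : ℝ) : ℂ := ((S (t + a) - S (t - b) : ℝ) : ℂ)

lemma bump_smooth (a b : ℝ) : ContDiff ℝ ∞ (bump a b) := by
  unfold bump
  have h1 : ContDiff ℝ ∞ (fun t : ℝ => S (t + a) - S (t - b)) :=
    (S_smooth.comp (contDiff_id.add contDiff_const)).sub
      (S_smooth.comp (contDiff_id.sub contDiff_const))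
  exact Complex.ofRealCLM.contDiff.comp h1

lemma bump_right {a b t : ℝ} (h1 : 1 / 4 ≤ t + a) (h2 : 1 / 4 ≤ t - b) : bump a b t = 0 := by
  unfold bump
  rw [S_one h1, S_one h2]
  simp

lemma bump_left {a b t : ℝ} (h1 : t + a ≤ 0) (h2 : t - b ≤ 0) : bump a b t = 0 := by
  unfold bump
  rw [S_zero h1, S_zero h2]
  simp

lemma bump_mid {a b t : ℝ} (h1 : 1 / 4 ≤ t + a) (h2 : t - b ≤ 0) : bump a b t = 1 := by
  unfold bump
  rw [S_one h1, S_zero h2]
  simp

lemma bump_cpt {a b r : ℝ} (h : ∀ t, r ≤ |t| → bump a b t = 0) :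
    HasCompactSupport (bump a b) := by
  apply HasCompactSupport.intro (isCompact_Icc (a := -r) (b := r))
  intro t ht
  apply h
  by_contra hcon
  push Not at hcon
  exact ht (abs_le.1 hcon.le)

lemma phi_zero (t : ℝ) (h : 1 / 4 ≤ |t|) : bump (1 / 4) 0 t = 0 := by
  rcases le_abs.1 h with h1 | h1
  · exact bump_right (by linarith) (by linarith)
  · exact bump_left (by linarith) (by linarith)

lemma psi_zero (t : ℝ) (h : 1 / 2 ≤ |t|) : bump (1 / 2) (1 / 4) t = 0 := by
  rcases le_abs.1 h with h1 | h1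
  · exact bump_right (by linarith) (by linarith)
  · exact bump_left (by linarith) (by linarith)

end H1aux

open H1aux in
/-- H1: the windows. -/
theorem H1_windows : ∃ φ ψ : 𝓢(ℝ, ℂ),
    (∀ t, 1 / 4 ≤ |t| → φ t = 0) ∧ (∀ t, 1 / 2 ≤ |t| → ψ t = 0) ∧
    (∀ t, ψ t * φ t = φ t) ∧
    (∀ t : ℝ, (∑' j : ℤ, φ (t - j / 4)) = 1) := by
  refine ⟨(bump_cpt phi_zero).toSchwartzMap (bump_smooth _ _),
    (bump_cpt psi_zero).toSchwartzMap (bump_smooth _ _), ?_, ?_, ?_, ?_⟩
  · intro t ht
    exact phi_zero t ht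
  · intro t ht
    exact psi_zero t ht
  · intro t
    change bump (1 / 2) (1 / 4) t * bump (1 / 4) 0 t = bump (1 / 4) 0 t
    rcases le_or_gt (1 / 4) |t| with h | h
    · rw [phi_zero t h, mul_zero]
    · have h1 := abs_lt.1 h
      rw [bump_mid (by linarith) (by linarith), one_mul]
  · intro t
    change (∑' j : ℤ, bump (1 / 4) 0 (t - j / 4)) = 1
    have h1 := Int.floor_le (4 * t)
    have h2 := Int.lt_floor_add_one (4 * t)
    set j0 := ⌊4 * t⌋ with hj0
    rw [tsum_eq_sum (s := {j0, j0 + 1})]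
    · rw [Finset.sum_pair (by omega)]
      unfold bump
      have e1 : S (t - (j0 : ℝ) / 4 + 1 / 4) = 1 := S_one (by linarith)
      have e2 : S (t - ((j0 + 1 : ℤ) : ℝ) / 4 - 0) = 0 := S_zero (by push_cast; linarith)
      have e3 : t - ((j0 + 1 : ℤ) : ℝ) / 4 + 1 / 4 = t - (j0 : ℝ) / 4 - 0 := by push_cast; ring
      rw [e1, e2, e3]
      push_cast
      ring
    · intro j hj
      simp only [Finset.mem_insert, Finset.mem_singleton, not_or] at hj
      apply phi_zero
      rcases lt_or_gt_of_ne hj.1 with h3 | h3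
      · have h4 : (j : ℝ) + 1 ≤ j0 := by exact_mod_cast h3
        rw [abs_of_nonneg (by linarith)]
        linarith
      · have h5 : j0 + 2 ≤ j := by have := hj.2; omega
        have h4 : (j0 : ℝ) + 2 ≤ j := by exact_mod_cast h5
        rw [abs_of_neg (by linarith)]
        linarith

end SF
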