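import Pool.Agent.N246.SF.Defs

/-!
# Project SF, piece H2: Poisson summation on one window (helper424)
-/

open MeasureTheory Filter Set SchwartzMap FourierTransform
open scoped ENNReal NNReal Topology

namespace SF

namespace H2aux

/-- `u ↦ φ (u - c) * f u` as a Schwartz function. -/
theorem exists_mul (φ f : 𝓢(ℝ, ℂ)) (c : ℝ) : ∃ h : 𝓢(ℝ, ℂ), ∀ u, h u = φ (u - c) * f u := by
  have ht : Function.HasTemperateGrowth (fun u : ℝ => φ (u - c)) :=
    (φ.compSubConstCLM ℂ c).hasTemperateGrowth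
  refine ⟨SchwartzMap.smulLeftCLM ℂ (fun u : ℝ => φ (u - c)) f, fun u => ?_⟩
  rw [SchwartzMap.smulLeftCLM_apply_apply ht, smul_eq_mul]

theorem fourier_int (h : 𝓢(ℝ, ℂ)) (k : ℝ) :
    (𝓕 h) k = ∫ u, h u * Complex.exp (-(2 * Real.pi * Complex.I * k * u)) := by
  rw [SchwartzMap.fourier_coe, Real.fourier_eq']
  refine integral_congr_ae (Filter.Eventually.of_forall fun u => ?_)
  simp only [smul_eq_mul]
  rw [mul_comm]
  congr 2
  simp
  ring

end H2aux

theorem H2_window {φ ψ : 𝓢(ℝ, ℂ)} (hφ : ∀ t, 1 / 4 ≤ |t| → φ t = 0)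
    (hψ : ∀ t, 1 / 2 ≤ |t| → ψ t = 0) (hψφ : ∀ t, ψ t * φ t = φ t) (f : 𝓢(ℝ, ℂ)) (c t : ℝ) :
    φ (t - c) * f t = ∑' k : ℤ,
      (∫ u, φ (u - c) * f u * Complex.exp (-(2 * Real.pi * Complex.I * k * u))) *
        (ψ (t - c) * Complex.exp (2 * Real.pi * Complex.I * k * t)) := by
  obtain ⟨h, hh⟩ := H2aux.exists_mul φ f c
  by_cases htc : 1 / 2 ≤ |t - c|
  · rw [hφ _ (by linarith), hψ _ htc]
    simp
  · push Not at htc
    have hco : ∀ k : ℤ, (∫ u, φ (u - c) * f u *
        Complex.exp (-(2 * Real.pi * Complex.I * k * u))) = (𝓕 h) (k : ℝ) := by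
      intro k
      rw [H2aux.fourier_int]
      refine integral_congr_ae (Filter.Eventually.of_forall fun u => ?_)
      simp only [hh]
      push_cast
      rfl
    have hP := SchwartzMap.tsum_eq_tsum_fourier h t
    have h1 : ∑' n : ℤ, h (t + n) = h t := by
      rw [tsum_eq_single 0]
      · simp
      · intro n hn
        rw [hh, hφ _ _, zero_mul]
        have hn1 : (1 : ℝ) ≤ |(n : ℝ)| := by
          rw [← Int.cast_abs]
          exact_mod_cast Int.one_le_abs hn
        have h2 : |(n : ℝ)| ≤ |t + n - c| + |t - c| := by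
          have : (n : ℝ) = (t + n - c) - (t - c) := by ring
          calc |(n : ℝ)| = |(t + n - c) - (t - c)| := by rw [← this]
            _ ≤ _ := abs_sub _ _
        linarith
    rw [h1] at hP
    have h3 : φ (t - c) * f t = ψ (t - c) * h t := by
      rw [hh, ← mul_assoc, hψφ]
    rw [h3, hP, ← tsum_mul_left]
    refine tsum_congr fun k => ?_
    rw [hco, fourier_coe_apply]
    have h5 : 2 * (Real.pi : ℂ) * Complex.I * k * t / ((1 : ℝ) : ℂ) =
      2 * Real.pi * Complex.I * k * t := by simp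
    rw [h5]
    ring

end SF
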