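import Pool.Agent.N246.SF.Defs

/-!
# Project SF, piece H3 (helper221 for helper246): Peetre-type localisation of weighted integrals
-/

set_option autoImplicit false

open MeasureTheory Filter Set SchwartzMap FourierTransform
open scoped ENNReal NNReal Topology

namespace SF

namespace H3aux

lemma wt_nonneg (k j : ℕ) {T : ℝ} (hT : 1 ≤ T) {t : ℝ} (ht : 0 ≤ t) : 0 ≤ wt k j T t := by
  unfold wt
  have : 0 ≤ min t T := le_min ht (by linarith)
  positivity

lemma wt_mono (k j : ℕ) {T : ℝ} (hT : 1 ≤ T) {t t' : ℝ} (ht : 0 ≤ t) (htt : t ≤ t') :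
    wt k j T t ≤ wt k j T t' := by
  unfold wt
  have h0 : 0 ≤ min t T := le_min ht (by linarith)
  have h1 : min t T ≤ min t' T := min_le_min_right T htt
  have h2 : 0 ≤ t' := ht.trans htt
  gcongr

lemma wt_scale (k j : ℕ) {T : ℝ} (hT : 1 ≤ T) {t lam : ℝ} (ht : 0 ≤ t) (hl : 1 ≤ lam) :
    wt k j T (lam * t) ≤ lam ^ (k + j) * wt k j T t := by
  unfold wt
  have hl0 : 0 ≤ lam := by linarith
  have h0 : 0 ≤ min (lam * t) T := le_min (by positivity) (by linarith)
  have h1 : min (lam * t) T ≤ lam * min t T := by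
    rcases le_total t T with h | h
    · rw [min_eq_left h]; exact min_le_left _ _
    · rw [min_eq_right h]
      exact (min_le_right _ _).trans (by nlinarith)
  calc (lam * t) ^ k * min (lam * t) T ^ j ≤ (lam * t) ^ k * (lam * min t T) ^ j := by gcongr
    _ = lam ^ (k + j) * (t ^ k * min t T ^ j) := by rw [mul_pow, mul_pow, pow_add]; ring

lemma W_growth {r : ℝ} (hr : 1 < r) (k j : ℕ) {T : ℝ} (hT : 1 ≤ T) (c u : ℝ) :
    W r k j T c ≤ (1 + |u - c|) ^ (⌈r⌉₊ * (k + j)) * W r k j T u := by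
  unfold W
  have hL : 1 ≤ 1 + |u - c| := by linarith [abs_nonneg (u - c)]
  have hb : 1 ≤ max 1 |u| := le_max_left _ _
  have ha0 : 0 ≤ max 1 |c| := zero_le_one.trans (le_max_left _ _)
  have h1 : max 1 |c| ≤ (1 + |u - c|) * max 1 |u| := by
    apply max_le
    · nlinarith [abs_nonneg (u - c)]
    · have h2 : |c| ≤ |u - c| + |u| := by
        have : c = -(u - c) + u := by ring
        calc |c| = |-(u - c) + u| := by rw [← this]
          _ ≤ |-(u - c)| + |u| := abs_add_le _ _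
          _ = _ := by rw [abs_neg]
      have h3 : |u| ≤ max 1 |u| := le_max_right _ _
      nlinarith [abs_nonneg (u - c)]
  have h2 : (max 1 |c|) ^ r ≤ (1 + |u - c|) ^ ⌈r⌉₊ * (max 1 |u|) ^ r := by
    calc (max 1 |c|) ^ r ≤ ((1 + |u - c|) * max 1 |u|) ^ r :=
          Real.rpow_le_rpow ha0 h1 (by linarith)
      _ = (1 + |u - c|) ^ r * (max 1 |u|) ^ r := Real.mul_rpow (by linarith) (by linarith)
      _ ≤ (1 + |u - c|) ^ (⌈r⌉₊ : ℝ) * (max 1 |u|) ^ r := by
          gcongr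
          exact Nat.le_ceil r
      _ = _ := by rw [Real.rpow_natCast]
  calc wt k j T ((max 1 |c|) ^ r) ≤ wt k j T ((1 + |u - c|) ^ ⌈r⌉₊ * (max 1 |u|) ^ r) :=
        wt_mono k j hT (Real.rpow_nonneg ha0 r) h2
    _ ≤ ((1 + |u - c|) ^ ⌈r⌉₊) ^ (k + j) * wt k j T ((max 1 |u|) ^ r) :=
        wt_scale k j hT (Real.rpow_nonneg (by linarith) r) (one_le_pow₀ hL)
    _ = _ := by rw [← pow_mul]

lemma W_nonneg (r : ℝ) (k j : ℕ) {T : ℝ} (hT : 1 ≤ T) (u : ℝ) : 0 ≤ W r k j T u :=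
  wt_nonneg k j hT (Real.rpow_nonneg (zero_le_one.trans (le_max_left _ _)) r)

lemma W_cont {r : ℝ} (hr : 1 < r) (k j : ℕ) (T : ℝ) : Continuous (fun u => W r k j T u) := by
  unfold W wt
  have h1 : Continuous fun u : ℝ => (max 1 |u|) ^ r :=
    (continuous_const.max continuous_abs).rpow_const fun u => Or.inr (by linarith)
  exact (h1.pow k).mul ((h1.min continuous_const).pow j)

lemma W_le {r : ℝ} (hr : 1 < r) (k j : ℕ) {T : ℝ} (hT : 1 ≤ T) (u : ℝ) :
    W r k j T u ≤ W r k j T 0 * (1 + |u|) ^ (⌈r⌉₊ * (k + j)) := by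
  have := W_growth hr k j hT u 0
  rw [zero_sub, abs_neg] at this
  linarith

lemma sq_integrable (h : 𝓢(ℝ, ℂ)) (g : ℝ → ℝ) (hg : Continuous g) (A : ℝ) (M : ℕ)
    (h0 : ∀ u, 0 ≤ g u) (hgA : ∀ u, g u ≤ A * (1 + |u|) ^ M) :
    MemLp (fun u => g u * ‖h u‖) 2 (volume : Measure ℝ) := by
  have hc : Continuous fun u => g u * ‖h u‖ := hg.mul h.continuous.norm
  rw [memLp_two_iff_integrable_sq hc.aestronglyMeasurable]
  have hA : 0 ≤ A := by
    have h1 := (h0 0).trans (hgA 0)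
    simpa using h1
  set C := 2 ^ (M + 1) * (Finset.Iic (M + 1, 0)).sup (schwartzSeminormFamily ℂ ℝ ℂ) h with hC
  have hC0 : 0 ≤ C := by
    have : 0 ≤ (Finset.Iic (M + 1, 0)).sup (schwartzSeminormFamily ℂ ℝ ℂ) h := apply_nonneg _ _
    positivity
  have hb : ∀ u : ℝ, (1 + |u|) ^ (M + 1) * ‖h u‖ ≤ C := fun u => by
    have := SchwartzMap.one_add_le_sup_seminorm_apply (𝕜 := ℂ) (m := (M + 1, 0)) (k := M + 1)
      (n := 0) le_rfl le_rfl h u
    rw [norm_iteratedFDeriv_zero, Real.norm_eq_abs] at this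
    exact this
  have hI : Integrable (fun u : ℝ => (1 + ‖u‖) ^ (-(2 : ℝ))) volume :=
    integrable_one_add_norm (by simp)
  refine Integrable.mono' (hI.const_mul ((A * C) ^ 2)) (hc.pow 2).aestronglyMeasurable
    (Eventually.of_forall fun u => ?_)
  have hu : 0 < 1 + |u| := by positivity
  rw [Real.norm_of_nonneg (sq_nonneg _), Real.norm_eq_abs, Real.rpow_neg hu.le]
  have e2 : (1 + |u|) ^ (2 : ℝ) = (1 + |u|) ^ 2 := by
    rw [← Real.rpow_natCast]; norm_num
  rw [e2]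
  have h1 : g u * ‖h u‖ ≤ (A * C) * (1 + |u|)⁻¹ := by
    rw [← div_eq_mul_inv, le_div_iff₀ hu]
    calc g u * ‖h u‖ * (1 + |u|) ≤ (A * (1 + |u|) ^ M) * ‖h u‖ * (1 + |u|) := by
          gcongr
          exact hgA u
      _ = A * ((1 + |u|) ^ (M + 1) * ‖h u‖) := by ring
      _ ≤ A * C := mul_le_mul_of_nonneg_left (hb u) hA
  have h2 : 0 ≤ g u * ‖h u‖ := mul_nonneg (h0 u) (norm_nonneg _)
  calc (g u * ‖h u‖) ^ 2 ≤ ((A * C) * (1 + |u|)⁻¹) ^ 2 := by gcongr
    _ = _ := by rw [mul_pow, inv_pow]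

end H3aux

open H3aux

/-- H3: Peetre-type localisation of weighted integrals. -/
theorem H3_loc {r : ℝ} (hr : 1 < r) (φ : 𝓢(ℝ, ℂ)) (k j : ℕ) :
    ∃ C : ℝ, 0 ≤ C ∧ ∀ T : ℝ, 1 ≤ T → ∀ (c : ℝ) (h : 𝓢(ℝ, ℂ)),
      W r k j T c * (∫ u, ‖φ (u - c)‖ * ‖h u‖) ≤
        C * Real.sqrt (∫ u, W r k j T u ^ 2 * ‖h u‖ ^ 2) := by
  set N := ⌈r⌉₊ * (k + j) with hN
  set F : ℝ → ℝ := fun u => (1 + |u|) ^ N * ‖φ u‖ with hF
  have hFm : MemLp F 2 (volume : Measure ℝ) :=
    sq_integrable φ (fun u => (1 + |u|) ^ N) (by fun_prop) 1 N (fun u => by positivity)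
      (fun u => by rw [one_mul])
  refine ⟨Real.sqrt (∫ u, F u ^ 2), Real.sqrt_nonneg _, ?_⟩
  intro T hT c h
  set G : ℝ → ℝ := fun u => W r k j T u * ‖h u‖ with hG
  have hGm : MemLp G 2 (volume : Measure ℝ) :=
    sq_integrable h (fun u => W r k j T u) (W_cont hr k j T) (W r k j T 0) N
      (fun u => W_nonneg r k j hT u) (fun u => W_le hr k j hT u)
  have hFc : MemLp (fun u => F (u - c)) 2 (volume : Measure ℝ) :=
    hFm.comp_measurePreserving (measurePreserving_sub_right volume c)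
  have hF0 : ∀ u, 0 ≤ F u := fun u => by positivity
  have hG0 : ∀ u, 0 ≤ G u := fun u => mul_nonneg (W_nonneg r k j hT u) (norm_nonneg _)
  have hFG : Integrable (fun u => F (u - c) * G u) (volume : Measure ℝ) :=
    hFc.integrable_mul hGm
  have hpt : ∀ u, W r k j T c * (‖φ (u - c)‖ * ‖h u‖) ≤ F (u - c) * G u := by
    intro u
    calc W r k j T c * (‖φ (u - c)‖ * ‖h u‖)
        ≤ ((1 + |u - c|) ^ N * W r k j T u) * (‖φ (u - c)‖ * ‖h u‖) := by
          gcongr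
          exact W_growth hr k j hT c u
      _ = F (u - c) * G u := by simp only [hF, hG]; ring
  have hcs := integral_mul_le_Lp_mul_Lq_of_nonneg (μ := (volume : Measure ℝ))
    Real.HolderConjugate.two_two (f := fun u => F (u - c)) (g := G)
    (Eventually.of_forall fun u => hF0 _) (Eventually.of_forall hG0)
    (by simpa using hFc) (by simpa using hGm)
  have e1 : (∫ u, F (u - c) ^ (2 : ℝ)) = ∫ u, F u ^ 2 := by
    rw [integral_sub_right_eq_self (fun u => F u ^ (2 : ℝ)) c]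
    congr 1
    funext u
    rw [← Real.rpow_natCast]; norm_num
  have e2 : (∫ u, G u ^ (2 : ℝ)) = ∫ u, W r k j T u ^ 2 * ‖h u‖ ^ 2 := by
    congr 1
    funext u
    rw [← mul_pow, ← Real.rpow_natCast]; norm_num [hG]
  rw [e1, e2, ← Real.sqrt_eq_rpow, ← Real.sqrt_eq_rpow] at hcs
  calc W r k j T c * (∫ u, ‖φ (u - c)‖ * ‖h u‖)
      = ∫ u, W r k j T c * (‖φ (u - c)‖ * ‖h u‖) := (integral_const_mul _ _).symm
    _ ≤ ∫ u, F (u - c) * G u := by
        apply integral_mono_of_nonneg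
        · exact Eventually.of_forall fun u =>
            mul_nonneg (W_nonneg r k j hT c) (mul_nonneg (norm_nonneg _) (norm_nonneg _))
        · exact hFG
        · exact Eventually.of_forall hpt
    _ ≤ _ := hcs

end SF
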