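import Pool.Agent.N246.SF.Defs

/-!
# Project SF, piece H4: the coefficient formula on the Fourier side (helper768)
-/

open MeasureTheory Filter Set SchwartzMap FourierTransform
open scoped ENNReal NNReal Topology

namespace SF

namespace H4aux

theorem norm_exp_one (k u : ℝ) : ‖Complex.exp (-(2 * Real.pi * Complex.I * k * u))‖ = 1 := by
  rw [Complex.norm_exp]
  simp

/-- the modulated translate -/
noncomputable def modT (φ : 𝓢(ℝ, ℂ)) (c k : ℝ) (u : ℝ) : ℂ :=
  φ (u - c) * Complex.exp (-(2 * Real.pi * Complex.I * k * u))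

theorem norm_modT (φ : 𝓢(ℝ, ℂ)) (c k u : ℝ) : ‖modT φ c k u‖ = ‖φ (u - c)‖ := by
  unfold modT
  rw [norm_mul, norm_exp_one, mul_one]

theorem integrable_modT (φ : 𝓢(ℝ, ℂ)) (c k : ℝ) : Integrable (modT φ c k) := by
  have h1 : Integrable (fun u : ℝ => φ (u - c)) := φ.integrable.comp_sub_right c
  refine h1.mono ?_ (Filter.Eventually.of_forall fun u => (norm_modT φ c k u).le)
  have h2 : Continuous (modT φ c k) := by
    unfold modT
    exact (φ.continuous.comp (continuous_id.sub continuous_const)).mul (by fun_prop)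
  exact h2.aestronglyMeasurable

/-- its Fourier transform -/
theorem fourier_modT (φ : 𝓢(ℝ, ℂ)) (c k ξ : ℝ) : ‖𝓕 (modT φ c k) ξ‖ = ‖(𝓕 φ) (ξ + k)‖ := by
  have h1 : 𝓕 (modT φ c k) ξ = Complex.exp (((-2 * Real.pi * c * (ξ + k) : ℝ) : ℂ) * Complex.I) *
      (𝓕 φ) (ξ + k) := by
    rw [SchwartzMap.fourier_coe, Real.fourier_real_eq_integral_exp_smul,
      Real.fourier_real_eq_integral_exp_smul, ← integral_const_mul]
    have h2 : ∀ v : ℝ, Complex.exp (((-2 * Real.pi * v * ξ : ℝ) : ℂ) * Complex.I) • modT φ c k v =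
        (fun w : ℝ => Complex.exp (((-2 * Real.pi * c * (ξ + k) : ℝ) : ℂ) * Complex.I) *
          (Complex.exp (((-2 * Real.pi * w * (ξ + k) : ℝ) : ℂ) * Complex.I) • φ w)) (v - c) := by
      intro v
      unfold modT
      simp only [smul_eq_mul]
      have h3 : Complex.exp (((-2 * Real.pi * v * ξ : ℝ) : ℂ) * Complex.I) *
          Complex.exp (-(2 * Real.pi * Complex.I * k * v)) =
          Complex.exp (((-2 * Real.pi * c * (ξ + k) : ℝ) : ℂ) * Complex.I) *
          Complex.exp (((-2 * Real.pi * (v - c) * (ξ + k) : ℝ) : ℂ) * Complex.I) := by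
        rw [← Complex.exp_add, ← Complex.exp_add]
        congr 1
        push_cast
        ring
      linear_combination (φ (v - c)) * h3
    rw [integral_congr_ae (Filter.Eventually.of_forall h2)]
    exact integral_sub_right_eq_self (μ := volume)
      (fun w : ℝ => Complex.exp (((-2 * Real.pi * c * (ξ + k) : ℝ) : ℂ) * Complex.I) *
          (Complex.exp (((-2 * Real.pi * w * (ξ + k) : ℝ) : ℂ) * Complex.I) • φ w)) c
  rw [h1, norm_mul, Complex.norm_exp_ofReal_mul_I, one_mul]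

end H4aux

open H4aux in
/-- H4: the second formula for the coefficients. -/
theorem H4_coeff (φ f : 𝓢(ℝ, ℂ)) (c k : ℝ) :
    ‖∫ u, φ (u - c) * f u * Complex.exp (-(2 * Real.pi * Complex.I * k * u))‖ ≤
      ∫ u, ‖φ (u - c)‖ * ‖f u‖ ∧
    ‖∫ u, φ (u - c) * f u * Complex.exp (-(2 * Real.pi * Complex.I * k * u))‖ ≤
      ∫ ξ, ‖(𝓕 φ) (k - ξ)‖ * ‖(𝓕 f) ξ‖ := by
  constructor
  · refine (norm_integral_le_integral_norm _).trans (le_of_eq ?_)
    refine integral_congr_ae (Filter.Eventually.of_forall fun u => ?_)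
    show ‖φ (u - c) * f u * Complex.exp (-(2 * Real.pi * Complex.I * k * u))‖ = _
    rw [norm_mul, norm_exp_one, mul_one, norm_mul]
  · have h1 : ∫ ξ, 𝓕 (modT φ c k) ξ • (𝓕⁻ f) ξ = ∫ x, modT φ c k x • 𝓕 ((𝓕⁻ f : 𝓢(ℝ, ℂ)) : ℝ → ℂ) x := by
      simpa using! VectorFourier.integral_fourierIntegral_smul_eq_flip (L := innerₗ ℝ)
        Real.continuous_fourierChar continuous_inner (integrable_modT φ c k)
        (𝓕⁻ f : 𝓢(ℝ, ℂ)).integrable
    have h2 : 𝓕 ((𝓕⁻ f : 𝓢(ℝ, ℂ)) : ℝ → ℂ) = f := by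
      rw [← SchwartzMap.fourier_coe, FourierTransform.fourier_fourierInv_eq]
    have h3 : ∫ u, φ (u - c) * f u * Complex.exp (-(2 * Real.pi * Complex.I * k * u)) =
        ∫ ξ, 𝓕 (modT φ c k) ξ • (𝓕⁻ f) ξ := by
      rw [h1, h2]
      refine integral_congr_ae (Filter.Eventually.of_forall fun u => ?_)
      show φ (u - c) * f u * Complex.exp (-(2 * Real.pi * Complex.I * k * u)) =
        modT φ c k u * f u
      unfold modT
      ring
    rw [h3]
    refine (norm_integral_le_integral_norm _).trans (le_of_eq ?_)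
    refine Eq.trans ?_ (integral_neg_eq_self (fun ξ : ℝ => ‖(𝓕 φ) (k - ξ)‖ * ‖(𝓕 f) ξ‖) volume)
    refine integral_congr_ae (Filter.Eventually.of_forall fun ξ => ?_)
    show ‖𝓕 (modT φ c k) ξ • (𝓕⁻ f) ξ‖ = ‖(𝓕 φ) (k - -ξ)‖ * ‖(𝓕 f) (-ξ)‖
    rw [norm_smul, fourier_modT, sub_neg_eq_add, add_comm k ξ]
    rw [SchwartzMap.fourierInv_coe, Real.fourierInv_eq_fourier_neg]
    rfl

end SF
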