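import Pool.Agent.N246.SF.Defs
import Pool.Agent.N246.SF.E2
import Pool.Agent.N246.SF.G1
import Pool.Agent.N246.SF.G2
import Pool.Agent.N246.SF.H1
import Pool.Agent.N246.SF.H2
import Pool.Agent.N246.SF.H3
import Pool.Agent.N246.SF.H4

/-!
# Project SF, piece H5: the expansion with coefficient and atom bounds (helper424)
-/

open MeasureTheory Filter Set SchwartzMap FourierTransform
open scoped ENNReal NNReal Topology

namespace SF

namespace H5aux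

/-- Modulation of a Schwartz function. -/
theorem exists_modulate (h : 𝓢(ℝ, ℂ)) (b : ℝ) : ∃ g : 𝓢(ℝ, ℂ), ∀ t : ℝ,
    g t = Complex.exp (2 * Real.pi * Complex.I * b * t) * h t := by
  refine ⟨𝓕⁻ ((𝓕 h).compSubConstCLM ℂ b), fun t => ?_⟩
  rw [SchwartzMap.fourierInv_coe, Real.fourierInv_eq']
  have h1 : h t = 𝓕⁻ (𝓕 h) t := by rw [FourierTransform.fourierInv_fourier_eq]
  rw [h1, SchwartzMap.fourierInv_coe, Real.fourierInv_eq', ← integral_const_mul]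
  refine Eq.trans ?_ (integral_sub_right_eq_self (fun v : ℝ =>
    Complex.exp (2 * Real.pi * Complex.I * b * t) *
      (Complex.exp (↑(2 * Real.pi * inner ℝ v t) * Complex.I) • (𝓕 h) v)) b)
  refine integral_congr_ae (Filter.Eventually.of_forall fun v => ?_)
  simp only [SchwartzMap.compSubConstCLM_apply, smul_eq_mul]
  rw [← mul_assoc, ← Complex.exp_add]
  congr 2
  simp
  ring

/-- The coefficient functional. -/
noncomputable def coef (φ : 𝓢(ℝ, ℂ)) (c k : ℝ) : 𝓢(ℝ, ℂ) →ₗ[ℂ] ℂ where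
  toFun f := (𝓕 (SchwartzMap.smulLeftCLM ℂ (fun u : ℝ => φ (u - c)) f)) k
  map_add' f g := by
    simp [FourierTransform.fourier_add]
  map_smul' r f := by
    simp [FourierTransform.fourier_smul]

theorem coef_apply (φ : 𝓢(ℝ, ℂ)) (c k : ℝ) (f : 𝓢(ℝ, ℂ)) :
    coef φ c k f = ∫ u, φ (u - c) * f u * Complex.exp (-(2 * Real.pi * Complex.I * k * u)) := by
  have ht : Function.HasTemperateGrowth (fun u : ℝ => φ (u - c)) :=
    (φ.compSubConstCLM ℂ c).hasTemperateGrowth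
  show (𝓕 (SchwartzMap.smulLeftCLM ℂ (fun u : ℝ => φ (u - c)) f)) k = _
  rw [H2aux.fourier_int]
  refine integral_congr_ae (Filter.Eventually.of_forall fun u => ?_)
  simp only
  rw [SchwartzMap.smulLeftCLM_apply_apply ht, smul_eq_mul]

theorem one_le_rpow_max {p x : ℝ} (hp : 1 < p) : max 1 x ≤ (max 1 x) ^ p := by
  have h1 : (1 : ℝ) ≤ max 1 x := le_max_left _ _
  calc max 1 x = (max 1 x) ^ (1 : ℝ) := (Real.rpow_one _).symm
    _ ≤ (max 1 x) ^ p := Real.rpow_le_rpow_of_exponent_le h1 hp.le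

theorem Tsc_ge {p q : ℝ} (hp : 1 < p) (hq : 1 < q) (i : ℤ × ℤ) :
    1 ≤ Tsc p q i ∧ 1 + |(i.1 : ℝ) / 4| ≤ 2 * Tsc p q i ∧ 1 + |(i.2 : ℝ)| ≤ 2 * Tsc p q i := by
  have h1 : max 1 (|(i.1 : ℝ)| / 4) ≤ Tsc p q i := (one_le_rpow_max hp).trans (le_max_left _ _)
  have h2 : max 1 |(i.2 : ℝ)| ≤ Tsc p q i := (one_le_rpow_max hq).trans (le_max_right _ _)
  have h3 : |(i.1 : ℝ) / 4| = |(i.1 : ℝ)| / 4 := by
    rw [abs_div, abs_of_pos (by norm_num : (0 : ℝ) < 4)]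
  have h4 : (1 : ℝ) ≤ Tsc p q i := (le_max_left _ _).trans h1
  have h5 := (le_max_right 1 (|(i.1 : ℝ)| / 4)).trans h1
  have h6 := (le_max_right 1 |(i.2 : ℝ)|).trans h2
  refine ⟨h4, by rw [h3]; linarith, by linarith⟩

theorem NW_nonneg (p q : ℝ) (k j : ℕ) (T : ℝ) (f : 𝓢(ℝ, ℂ)) : 0 ≤ NW p q k j T f :=
  add_nonneg (Real.sqrt_nonneg _) (Real.sqrt_nonneg _)

/-- a bound `T^m * x ≤ C * y` rewritten -/
theorem inv_bound {T x C y : ℝ} {m : ℕ} (hT : 1 ≤ T) (h : T ^ m * x ≤ C * y) :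
    x ≤ C * T ^ (-((m : ℕ) : ℤ)) * y := by
  have h0 : 0 < T ^ m := by positivity
  rw [zpow_neg, zpow_natCast]
  calc x = (T ^ m)⁻¹ * (T ^ m * x) := by field_simp
    _ ≤ (T ^ m)⁻¹ * (C * y) := by gcongr
    _ = C * (T ^ m)⁻¹ * y := by ring

/-- bound of a finite supremum of seminorms of translates -/
theorem sup_translate (ψ : 𝓢(ℝ, ℂ)) (s : Finset (ℕ × ℕ)) : ∃ (C : ℝ) (K : ℕ), 0 ≤ C ∧
    ∀ c : ℝ, (s.sup (schwartzSeminormFamily ℂ ℝ ℂ)) (ψ.compSubConstCLM ℂ c) ≤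
      C * (1 + |c|) ^ K := by
  classical
  choose C s' hC hb using fun m : ℕ × ℕ => G1_translate m.1 m.2
  refine ⟨∑ m ∈ s, C m * ((s' m).sup (schwartzSeminormFamily ℂ ℝ ℂ)) ψ, s.sup Prod.fst, ?_, ?_⟩
  · exact Finset.sum_nonneg fun m _ => mul_nonneg (hC m) (apply_nonneg _ _)
  · intro c
    have hc1 : 1 ≤ 1 + |c| := by linarith [abs_nonneg c]
    apply Seminorm.finset_sup_apply_le
    · exact mul_nonneg (Finset.sum_nonneg fun m _ => mul_nonneg (hC m) (apply_nonneg _ _))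
        (by positivity)
    · intro m hm
      have h1 := hb m c ψ (ψ.compSubConstCLM ℂ c) (fun t => rfl)
      have h2 : C m * ((s' m).sup (schwartzSeminormFamily ℂ ℝ ℂ)) ψ ≤
          ∑ m ∈ s, C m * ((s' m).sup (schwartzSeminormFamily ℂ ℝ ℂ)) ψ :=
        Finset.single_le_sum (f := fun m => C m * ((s' m).sup (schwartzSeminormFamily ℂ ℝ ℂ)) ψ)
          (fun m _ => mul_nonneg (hC m) (apply_nonneg _ _)) hm
      have h3 : (1 + |c|) ^ m.1 ≤ (1 + |c|) ^ (s.sup Prod.fst) :=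
        pow_le_pow_right₀ hc1 (Finset.le_sup (f := Prod.fst) hm)
      calc schwartzSeminormFamily ℂ ℝ ℂ m (ψ.compSubConstCLM ℂ c)
          = SchwartzMap.seminorm ℂ m.1 m.2 (ψ.compSubConstCLM ℂ c) := rfl
        _ ≤ C m * (1 + |c|) ^ m.1 * ((s' m).sup (schwartzSeminormFamily ℂ ℝ ℂ)) ψ := h1
        _ = C m * ((s' m).sup (schwartzSeminormFamily ℂ ℝ ℂ)) ψ * (1 + |c|) ^ m.1 := by ring
        _ ≤ (∑ m ∈ s, C m * ((s' m).sup (schwartzSeminormFamily ℂ ℝ ℂ)) ψ) *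
            (1 + |c|) ^ (s.sup Prod.fst) := by
              apply mul_le_mul h2 h3 (by positivity)
              exact Finset.sum_nonneg fun m _ => mul_nonneg (hC m) (apply_nonneg _ _)

end H5aux

open H5aux in
theorem H5_expansion {p q : ℝ} (hp : 1 < p) (hq : 1 < q) :
    ∃ (a : ℤ × ℤ → (𝓢(ℝ, ℂ) →ₗ[ℂ] ℂ)) (g : ℤ × ℤ → 𝓢(ℝ, ℂ)),
      (∀ k j : ℕ, ∃ C : ℝ, 0 ≤ C ∧ ∀ (i : ℤ × ℤ) (f : 𝓢(ℝ, ℂ)),
        ‖a i f‖ ≤ C * (Tsc p q i) ^ (-((k + j : ℕ) : ℤ)) * NW p q k j (Tsc p q i) f) ∧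
      (∀ k n : ℕ, ∃ (C : ℝ) (N : ℕ), 0 ≤ C ∧ ∀ i : ℤ × ℤ,
        SchwartzMap.seminorm ℂ k n (g i) ≤ C * (Tsc p q i) ^ N) ∧
      (∀ (f : 𝓢(ℝ, ℂ)) (t : ℝ), Summable (fun i : ℤ × ℤ => a i f * g i t) →
        f t = ∑' i : ℤ × ℤ, a i f * g i t) := by
  obtain ⟨φ, ψ, hφ, hψ, hψφ, hsum⟩ := H1_windows
  choose g hg using fun i : ℤ × ℤ => exists_modulate (ψ.compSubConstCLM ℂ ((i.1 : ℝ) / 4)) (i.2 : ℝ)
  refine ⟨fun i => coef φ ((i.1 : ℝ) / 4) (i.2 : ℝ), g, ?_, ?_, ?_⟩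
  · intro k j
    obtain ⟨C1, hC1, h1⟩ := H3_loc hp φ k j
    obtain ⟨C2, hC2, h2⟩ := H3_loc hq (𝓕⁻ φ) k j
    refine ⟨C1 + C2, by positivity, fun i f => ?_⟩
    obtain ⟨T, hT⟩ : ∃ T : ℝ, T = Tsc p q i := ⟨_, rfl⟩
    have hT1 : 1 ≤ T := by rw [hT]; exact (Tsc_ge hp hq i).1
    rw [← hT]
    apply inv_bound hT1
    rw [coef_apply]
    obtain ⟨hA, hB⟩ := H4_coeff φ f ((i.1 : ℝ) / 4) (i.2 : ℝ)
    have hwt : wt k j T T = T ^ (k + j) := (E2_growth k j hT1).2.2.2.2.1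
    have hTp : 0 < T ^ (k + j) := by positivity
    have hN1 : Real.sqrt (∫ t, W p k j T t ^ 2 * ‖f t‖ ^ 2) ≤ NW p q k j T f :=
      le_add_of_nonneg_right (Real.sqrt_nonneg _)
    have hN2 : Real.sqrt (∫ ξ, W q k j T ξ ^ 2 * ‖(𝓕 f) ξ‖ ^ 2) ≤ NW p q k j T f :=
      le_add_of_nonneg_left (Real.sqrt_nonneg _)
    have hN0 := NW_nonneg p q k j T f
    rcases le_total ((max 1 |(i.2 : ℝ)|) ^ q) ((max 1 (|(i.1 : ℝ)| / 4)) ^ p) with h | h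
    · have hTe : T = (max 1 |(i.1 : ℝ) / 4|) ^ p := by
        rw [hT]
        unfold Tsc
        rw [max_eq_left h, abs_div, abs_of_pos (by norm_num : (0 : ℝ) < 4)]
      have hW : W p k j T ((i.1 : ℝ) / 4) = T ^ (k + j) := by
        unfold W
        rw [← hTe, hwt]
      have h3 := h1 T hT1 ((i.1 : ℝ) / 4) f
      rw [hW] at h3
      calc T ^ (k + j) * ‖∫ u, φ (u - (i.1 : ℝ) / 4) * f u *
            Complex.exp (-(2 * Real.pi * Complex.I * ((i.2 : ℝ) : ℂ) * u))‖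
          ≤ T ^ (k + j) * ∫ u, ‖φ (u - (i.1 : ℝ) / 4)‖ * ‖f u‖ := by gcongr
        _ ≤ C1 * Real.sqrt (∫ t, W p k j T t ^ 2 * ‖f t‖ ^ 2) := h3
        _ ≤ C1 * NW p q k j T f := by gcongr
        _ ≤ (C1 + C2) * NW p q k j T f := by gcongr; linarith
    · have hTe : T = (max 1 |(i.2 : ℝ)|) ^ q := by
        rw [hT]
        unfold Tsc
        rw [max_eq_right h]
      have hW : W q k j T (i.2 : ℝ) = T ^ (k + j) := by
        unfold W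
        rw [← hTe, hwt]
      have h3 := h2 T hT1 (i.2 : ℝ) (𝓕 f)
      rw [hW] at h3
      have h4 : ∀ ξ : ℝ, (𝓕⁻ φ) (ξ - (i.2 : ℝ)) = (𝓕 φ) ((i.2 : ℝ) - ξ) := by
        intro ξ
        rw [SchwartzMap.fourierInv_coe, Real.fourierInv_eq_fourier_neg, neg_sub]
        rfl
      simp only [h4] at h3
      calc T ^ (k + j) * ‖∫ u, φ (u - (i.1 : ℝ) / 4) * f u *
            Complex.exp (-(2 * Real.pi * Complex.I * ((i.2 : ℝ) : ℂ) * u))‖
          ≤ T ^ (k + j) * ∫ ξ, ‖(𝓕 φ) ((i.2 : ℝ) - ξ)‖ * ‖(𝓕 f) ξ‖ := by gcongr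
        _ ≤ C2 * Real.sqrt (∫ ξ, W q k j T ξ ^ 2 * ‖(𝓕 f) ξ‖ ^ 2) := h3
        _ ≤ C2 * NW p q k j T f := by gcongr
        _ ≤ (C1 + C2) * NW p q k j T f := by gcongr; linarith
  · intro k n
    obtain ⟨C, N, s, hC, hb⟩ := G2_modulate k n
    obtain ⟨C', K, hC', hb'⟩ := sup_translate ψ s
    refine ⟨C * 2 ^ N * (C' * 2 ^ K), N + K, by positivity, fun i => ?_⟩
    obtain ⟨hT1, hTc, hTk⟩ := Tsc_ge hp hq i
    have hT0 : 0 ≤ Tsc p q i := by linarith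
    have h1 := hb (i.2 : ℝ) (ψ.compSubConstCLM ℂ ((i.1 : ℝ) / 4)) (g i) (hg i)
    have h2 := hb' ((i.1 : ℝ) / 4)
    have h3 : 0 ≤ 1 + |(i.2 : ℝ)| := by positivity
    have h4 : 0 ≤ 1 + |(i.1 : ℝ) / 4| := by positivity
    calc SchwartzMap.seminorm ℂ k n (g i)
        ≤ C * (1 + |(i.2 : ℝ)|) ^ N * (C' * (1 + |(i.1 : ℝ) / 4|) ^ K) := by
          refine h1.trans ?_
          gcongr
      _ ≤ C * (2 * Tsc p q i) ^ N * (C' * (2 * Tsc p q i) ^ K) := by gcongr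
      _ = C * 2 ^ N * (C' * 2 ^ K) * (Tsc p q i) ^ (N + K) := by
          rw [mul_pow, mul_pow, pow_add]
          ring
  · intro f t hsm
    have h1 : ∀ j : ℤ, ∑' k : ℤ, coef φ ((((j, k) : ℤ × ℤ).1 : ℝ) / 4) (((j, k) : ℤ × ℤ).2 : ℝ) f *
        g (j, k) t = φ (t - j / 4) * f t := by
      intro j
      rw [H2_window hφ hψ hψφ f ((j : ℝ) / 4) t]
      refine tsum_congr fun k => ?_
      rw [coef_apply, hg]
      simp only [SchwartzMap.compSubConstCLM_apply]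
      push_cast
      ring
    rw [hsm.tsum_prod]
    rw [tsum_congr h1, tsum_mul_right, hsum t, one_mul]

end SF
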