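import Pool.Agent.N246.SF.Defs

/-!
# SF/H6 (helper401): summability of the scales
-/

open MeasureTheory Filter Set SchwartzMap FourierTransform
open scoped ENNReal NNReal Topology

namespace SF

namespace H6aux

theorem summ (c : ℝ) (hc : 0 < c) : Summable (fun n : ℤ => ((max 1 (|(n : ℝ)| / c)) ^ 2)⁻¹) := by
  have h1 : Summable (fun n : ℤ => c ^ 2 * (1 / (n : ℝ) ^ 2) + if n = 0 then (1 : ℝ) else 0) := by
    refine Summable.add ?_ ?_
    · exact (Real.summable_one_div_int_pow.2 (by norm_num)).mul_left _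
    · exact (hasSum_ite_eq (0 : ℤ) (1 : ℝ)).summable
  refine Summable.of_nonneg_of_le (fun n => by positivity) (fun n => ?_) h1
  by_cases hn : n = 0
  · subst hn
    simp
  · rw [if_neg hn, add_zero]
    have hn' : (0 : ℝ) < |(n : ℝ)| := by
      rw [abs_pos]
      exact_mod_cast hn
    have h2 : (|(n : ℝ)| / c) ^ 2 ≤ (max 1 (|(n : ℝ)| / c)) ^ 2 :=
      pow_le_pow_left₀ (by positivity) (le_max_right _ _) 2
    calc ((max 1 (|(n : ℝ)| / c)) ^ 2)⁻¹ ≤ ((|(n : ℝ)| / c) ^ 2)⁻¹ :=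
          inv_anti₀ (by positivity) h2
      _ = c ^ 2 * (1 / (n : ℝ) ^ 2) := by
          rw [div_pow, sq_abs]
          have : (n : ℝ) ^ 2 ≠ 0 := by
            have : (n : ℝ) ≠ 0 := by exact_mod_cast hn
            positivity
          field_simp

end H6aux

theorem H6_scales {p q : ℝ} (hp : 1 < p) (hq : 1 < q) :
    (∀ i : ℤ × ℤ, 1 ≤ Tsc p q i) ∧ Summable (fun i : ℤ × ℤ => (Tsc p q i) ^ (-(4 : ℤ))) := by
  have ha1 : ∀ i : ℤ × ℤ, 1 ≤ max 1 (|(i.1 : ℝ)| / 4) := fun i => le_max_left _ _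
  have hb1 : ∀ i : ℤ × ℤ, 1 ≤ max 1 |(i.2 : ℝ)| := fun i => le_max_left _ _
  have ha : ∀ i : ℤ × ℤ, max 1 (|(i.1 : ℝ)| / 4) ≤ Tsc p q i := by
    intro i
    refine le_trans ?_ (le_max_left _ _)
    exact Real.self_le_rpow_of_one_le (ha1 i) hp.le
  have hb : ∀ i : ℤ × ℤ, max 1 |(i.2 : ℝ)| ≤ Tsc p q i := by
    intro i
    refine le_trans ?_ (le_max_right _ _)
    exact Real.self_le_rpow_of_one_le (hb1 i) hq.le
  have hT : ∀ i : ℤ × ℤ, 1 ≤ Tsc p q i := fun i => (ha1 i).trans (ha i)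
  refine ⟨hT, ?_⟩
  have h1 := H6aux.summ 4 (by norm_num)
  have h2 := H6aux.summ 1 (by norm_num)
  have h3 := h1.mul_of_nonneg h2 (fun n => by positivity) (fun n => by positivity)
  refine Summable.of_nonneg_of_le (fun i => ?_) (fun i => ?_) h3
  · have := hT i
    positivity
  · show (Tsc p q i) ^ (-(4 : ℤ)) ≤ ((max 1 (|(i.1 : ℝ)| / 4)) ^ 2)⁻¹ *
      ((max 1 (|(i.2 : ℝ)| / 1)) ^ 2)⁻¹
    have h4 : (Tsc p q i) ^ (-(4 : ℤ)) = ((Tsc p q i) ^ 2)⁻¹ * ((Tsc p q i) ^ 2)⁻¹ := by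
      rw [zpow_neg, ← mul_inv, ← pow_add]
      norm_cast
    rw [h4, div_one]
    have h5 : ((Tsc p q i) ^ 2)⁻¹ ≤ ((max 1 (|(i.1 : ℝ)| / 4)) ^ 2)⁻¹ :=
      inv_anti₀ (by have := ha1 i; positivity) (pow_le_pow_left₀ (by positivity) (ha i) 2)
    have h6 : ((Tsc p q i) ^ 2)⁻¹ ≤ ((max 1 |(i.2 : ℝ)|) ^ 2)⁻¹ :=
      inv_anti₀ (by have := hb1 i; positivity) (pow_le_pow_left₀ (by positivity) (hb i) 2)
    exact mul_le_mul h5 h6 (by positivity) (by positivity)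

end SF
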