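import Pool.Agent.N246.SF.Defs

/-! Project SF, piece I1 (helper50). -/

open MeasureTheory Filter Set SchwartzMap FourierTransform
open scoped ENNReal NNReal Topology

namespace SF

/-- I1: Hahn–Banach for a seminorm. -/
theorem I1_hahn_banach {E V : Type*} [AddCommGroup E] [Module ℂ E] [AddCommGroup V] [Module ℂ V]
    (A : E →ₗ[ℂ] V) (Qs : Seminorm ℂ V) (a : E →ₗ[ℂ] ℂ) {C : ℝ} (hC : 0 ≤ C)
    (h : ∀ f, ‖a f‖ ≤ C * Qs (A f)) :
    ∃ m : V →ₗ[ℂ] ℂ, (∀ f, m (A f) = a f) ∧ ∀ c, ‖m c‖ ≤ C * Qs c := by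
  have hker : LinearMap.ker A ≤ LinearMap.ker a := by
    intro f hf
    rw [LinearMap.mem_ker] at hf ⊢
    have h1 := h f
    rw [hf, map_zero, mul_zero] at h1
    exact norm_le_zero_iff.1 h1
  let b : LinearMap.range A →ₗ[ℂ] ℂ :=
    ((LinearMap.ker A).liftQ a hker) ∘ₗ (A.quotKerEquivRange.symm : _ →ₗ[ℂ] _)
  have hb : ∀ f, b ⟨A f, LinearMap.mem_range_self A f⟩ = a f := by
    intro f
    have h1 : A.quotKerEquivRange.symm ⟨A f, LinearMap.mem_range_self A f⟩ =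
        Submodule.Quotient.mk f := by
      rw [LinearEquiv.symm_apply_eq]
      rfl
    simp only [b, LinearMap.comp_apply, LinearEquiv.coe_coe]
    rw [h1]
    rfl
  have hle : ∀ x : LinearMap.range A, ‖b x‖ ≤ ((C.toNNReal) • Qs) x := by
    rintro ⟨_, f, rfl⟩
    rw [hb]
    refine (h f).trans (le_of_eq ?_)
    rw [Seminorm.smul_apply, NNReal.smul_def, Real.coe_toNNReal _ hC, smul_eq_mul]
  obtain ⟨m, hm1, hm2⟩ := Module.Dual.exists_extension_of_le_seminorm (LinearMap.range A) b hle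
  refine ⟨m, fun f => ?_, fun c => ?_⟩
  · rw [← hb f]
    exact hm1 ⟨A f, LinearMap.mem_range_self A f⟩
  · refine (hm2 c).trans (le_of_eq ?_)
    rw [Seminorm.smul_apply, NNReal.smul_def, Real.coe_toNNReal _ hC, smul_eq_mul]

end SF
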