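import Pool.Agent.N246.SF.Defs

/-! Project SF, piece I2 (helper50). -/

open MeasureTheory Filter Set SchwartzMap FourierTransform
open scoped ENNReal NNReal Topology

namespace SF

/-- I2: slow choice of the exponent. -/
theorem I2_slow {ι X : Type*} (k : ℕ) (T : ι → ℝ) (hT : ∀ i, 1 ≤ T i)
    (D : ℕ → ℝ) (hD : ∀ j, 0 ≤ D j) (Qj : ℕ → ℝ → X → ℝ) (Ql : ℕ → X → ℝ)
    (hQ0 : ∀ l c, 0 ≤ Ql l c) (hmono : ∀ l l' c, l ≤ l' → Ql l c ≤ Ql l' c)
    (hQ : ∀ j l : ℕ, l ≤ j → ∀ T' : ℝ, 1 ≤ T' → ∀ c, Qj j T' c ≤ Ql l c * T' ^ (j - l))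
    (b : ℕ → ι → X → ℝ)
    (hb : ∀ j i c, b j i c ≤ D j * (T i) ^ (-((k + j : ℕ) : ℤ)) * Qj j (T i) c) :
    ∃ jj : ι → ℕ, ∀ l : ℕ, ∃ K : ℝ, 0 ≤ K ∧ ∀ i c,
      b (jj i) i c ≤ K * (T i) ^ (1 - ((k + l : ℕ) : ℤ)) * Ql l c := by
  classical
  set jj : ι → ℕ := fun i =>
    Nat.findGreatest (fun j => ∀ j' ≤ j, D j' ≤ max (D 0) (T i)) ⌊T i⌋₊ with hjj
  have h0 : ∀ i, ∀ j' ≤ 0, D j' ≤ max (D 0) (T i) := by
    intro i j' hj'
    rw [Nat.le_zero.1 hj']
    exact le_max_left _ _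
  have hspec : ∀ i, D (jj i) ≤ max (D 0) (T i) := by
    intro i
    have h1 : ∀ j' ≤ jj i, D j' ≤ max (D 0) (T i) :=
      Nat.findGreatest_spec (P := fun j => ∀ j' ≤ j, D j' ≤ max (D 0) (T i)) (Nat.zero_le _) (h0 i)
    exact h1 (jj i) le_rfl
  have hDj : ∀ i, D (jj i) ≤ (D 0 + 1) * T i := by
    intro i
    refine (hspec i).trans (max_le ?_ ?_)
    · have := hT i; have := hD 0; nlinarith
    · have := hT i; have := hD 0; nlinarith
  refine ⟨jj, fun l => ?_⟩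
  -- the threshold
  set Tl : ℝ := (l : ℝ) + 1 + ∑ j ∈ Finset.range (l + 1), D j with hTl
  have hsum0 : 0 ≤ ∑ j ∈ Finset.range (l + 1), D j := Finset.sum_nonneg fun j _ => hD j
  have hTl1 : 1 ≤ Tl := by
    have : (0 : ℝ) ≤ l := Nat.cast_nonneg l
    rw [hTl]; linarith
  have hthr : ∀ i, Tl ≤ T i → l ≤ jj i := by
    intro i hi
    apply Nat.le_findGreatest
    · apply Nat.le_floor
      rw [hTl] at hi
      linarith
    · intro j' hj'
      have h1 : D j' ≤ ∑ j ∈ Finset.range (l + 1), D j :=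
        Finset.single_le_sum (f := D) (fun j _ => hD j) (Finset.mem_range.2 (by omega))
      refine le_trans ?_ (le_max_right _ _)
      have : (0 : ℝ) ≤ l := Nat.cast_nonneg l
      rw [hTl] at hi
      linarith
  have hK0 : 0 ≤ (D 0 + 1) * Tl ^ l := by
    have := hD 0
    positivity
  have hD01 : 0 ≤ D 0 + 1 := by linarith [hD 0]
  refine ⟨(D 0 + 1) * Tl ^ l, hK0, fun i c => ?_⟩
  have hTi := hT i
  have hTi0 : 0 < T i := by linarith
  have hTne : T i ≠ 0 := hTi0.ne'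
  have hQl := hQ0 l c
  refine (hb (jj i) i c).trans ?_
  have hz : 0 < (T i) ^ (-((k + jj i : ℕ) : ℤ)) := zpow_pos hTi0 _
  rcases le_or_gt l (jj i) with hlj | hlj
  · -- j ≥ l
    have h1 := hQ (jj i) l hlj (T i) hTi c
    calc D (jj i) * (T i) ^ (-((k + jj i : ℕ) : ℤ)) * Qj (jj i) (T i) c ≤
        D (jj i) * (T i) ^ (-((k + jj i : ℕ) : ℤ)) * (Ql l c * (T i) ^ (jj i - l)) :=
          mul_le_mul_of_nonneg_left h1 (mul_nonneg (hD _) hz.le)
      _ = D (jj i) * (T i) ^ (-((k + l : ℕ) : ℤ)) * Ql l c := by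
          have e1 : (T i) ^ (-((k + jj i : ℕ) : ℤ)) * (T i) ^ (jj i - l) =
              (T i) ^ (-((k + l : ℕ) : ℤ)) := by
            rw [← zpow_natCast (T i) (jj i - l), ← zpow_add₀ hTne]
            congr 1
            push_cast [Nat.cast_sub hlj]
            ring
          rw [← e1]; ring
      _ ≤ ((D 0 + 1) * T i) * (T i) ^ (-((k + l : ℕ) : ℤ)) * Ql l c := by
          apply mul_le_mul_of_nonneg_right _ hQl
          exact mul_le_mul_of_nonneg_right (hDj i) (zpow_pos hTi0 _).le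
      _ = (D 0 + 1) * (T i) ^ (1 - ((k + l : ℕ) : ℤ)) * Ql l c := by
          rw [sub_eq_add_neg, zpow_add₀ hTne, zpow_one]; ring
      _ ≤ (D 0 + 1) * Tl ^ l * (T i) ^ (1 - ((k + l : ℕ) : ℤ)) * Ql l c := by
          apply mul_le_mul_of_nonneg_right _ hQl
          apply mul_le_mul_of_nonneg_right _ (zpow_pos hTi0 _).le
          exact le_mul_of_one_le_right hD01 (one_le_pow₀ hTl1)
  · -- j < l
    have hTlt : T i ≤ Tl := by
      by_contra hcon
      push Not at hcon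
      have := hthr i hcon.le
      omega
    have h1 := hQ (jj i) (jj i) le_rfl (T i) hTi c
    rw [Nat.sub_self, pow_zero, mul_one] at h1
    have h2 := h1.trans (hmono (jj i) l c hlj.le)
    calc D (jj i) * (T i) ^ (-((k + jj i : ℕ) : ℤ)) * Qj (jj i) (T i) c ≤
        D (jj i) * (T i) ^ (-((k + jj i : ℕ) : ℤ)) * Ql l c :=
          mul_le_mul_of_nonneg_left h2 (mul_nonneg (hD _) hz.le)
      _ ≤ ((D 0 + 1) * T i) * (T i) ^ (-((k + jj i : ℕ) : ℤ)) * Ql l c := by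
          apply mul_le_mul_of_nonneg_right _ hQl
          exact mul_le_mul_of_nonneg_right (hDj i) hz.le
      _ = (D 0 + 1) * (T i) ^ (l - jj i) * (T i) ^ (1 - ((k + l : ℕ) : ℤ)) * Ql l c := by
          have e1 : T i * (T i) ^ (-((k + jj i : ℕ) : ℤ)) =
              (T i) ^ (l - jj i) * (T i) ^ (1 - ((k + l : ℕ) : ℤ)) := by
            rw [← zpow_natCast (T i) (l - jj i), ← zpow_add₀ hTne]
            nth_rewrite 1 [← zpow_one (T i)]
            rw [← zpow_add₀ hTne]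
            congr 1
            push_cast [Nat.cast_sub hlj.le]
            ring
          rw [mul_assoc (D 0 + 1), e1]; ring
      _ ≤ (D 0 + 1) * Tl ^ l * (T i) ^ (1 - ((k + l : ℕ) : ℤ)) * Ql l c := by
          apply mul_le_mul_of_nonneg_right _ hQl
          apply mul_le_mul_of_nonneg_right _ (zpow_pos hTi0 _).le
          apply mul_le_mul_of_nonneg_left _ hD01
          calc (T i) ^ (l - jj i) ≤ Tl ^ (l - jj i) := pow_le_pow_left₀ hTi0.le hTlt _
            _ ≤ Tl ^ l := pow_le_pow_right₀ hTl1 (by omega)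

end SF
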