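import Pool.Agent.N246.SF.Defs

/-! Project SF, piece I3 (helper50). -/

open MeasureTheory Filter Set SchwartzMap FourierTransform
open scoped ENNReal NNReal Topology

namespace SF

/-- I3: sums of Schwartz functions with summable seminorms. -/
theorem I3_tsum {ι : Type*} (g : ι → 𝓢(ℝ, ℂ))
    (hg : ∀ k n : ℕ, Summable (fun i => SchwartzMap.seminorm ℂ k n (g i))) :
    ∃ G : 𝓢(ℝ, ℂ), (∀ t, HasSum (fun i => g i t) (G t)) ∧
      ∀ k n : ℕ, SchwartzMap.seminorm ℂ k n G ≤ ∑' i, SchwartzMap.seminorm ℂ k n (g i) := by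
  have hsm : ∀ i, ContDiff ℝ ((⊤ : ℕ∞) : WithTop ℕ∞) (fun t => g i t) := fun i => (g i).smooth ⊤
  have hv : ∀ k : ℕ, (k : ℕ∞) ≤ (⊤ : ℕ∞) →
      Summable (fun i => SchwartzMap.seminorm ℂ 0 k (g i)) := fun k _ => hg 0 k
  have hbd : ∀ (k : ℕ) (i : ι) (x : ℝ), (k : ℕ∞) ≤ (⊤ : ℕ∞) →
      ‖iteratedFDeriv ℝ k (fun t => g i t) x‖ ≤ SchwartzMap.seminorm ℂ 0 k (g i) := by
    intro k i x _
    exact SchwartzMap.norm_iteratedFDeriv_le_seminorm ℂ (g i) k x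
  have hc : ContDiff ℝ ((⊤ : ℕ∞) : WithTop ℕ∞) (fun t => ∑' i, g i t) :=
    contDiff_tsum hsm hv hbd
  have hder : ∀ (n : ℕ) (t : ℝ), iteratedFDeriv ℝ n (fun t => ∑' i, g i t) t =
      ∑' i, iteratedFDeriv ℝ n (fun t => g i t) t := fun n t =>
    iteratedFDeriv_tsum_apply hsm hv hbd le_top t
  have hkey : ∀ (k n : ℕ) (t : ℝ), ‖t‖ ^ k * ‖iteratedFDeriv ℝ n (fun t => ∑' i, g i t) t‖ ≤
      ∑' i, SchwartzMap.seminorm ℂ k n (g i) := by
    intro k n t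
    rw [hder]
    have h1 : ∀ i, ‖t‖ ^ k * ‖iteratedFDeriv ℝ n (fun t => g i t) t‖ ≤
        SchwartzMap.seminorm ℂ k n (g i) := fun i => SchwartzMap.le_seminorm ℂ k n (g i) t
    have h2 : Summable (fun i => ‖iteratedFDeriv ℝ n (fun t => g i t) t‖) :=
      Summable.of_nonneg_of_le (fun i => norm_nonneg _) (fun i => hbd n i t le_top) (hg 0 n)
    calc ‖t‖ ^ k * ‖∑' i, iteratedFDeriv ℝ n (fun t => g i t) t‖ ≤
        ‖t‖ ^ k * ∑' i, ‖iteratedFDeriv ℝ n (fun t => g i t) t‖ :=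
          mul_le_mul_of_nonneg_left (norm_tsum_le_tsum_norm h2) (by positivity)
      _ = ∑' i, ‖t‖ ^ k * ‖iteratedFDeriv ℝ n (fun t => g i t) t‖ := by rw [tsum_mul_left]
      _ ≤ _ := (h2.mul_left _).tsum_le_tsum h1 (hg k n)
  let G : 𝓢(ℝ, ℂ) :=
    { toFun := fun t => ∑' i, g i t
      smooth' := hc
      decay' := fun k n => ⟨_, hkey k n⟩ }
  refine ⟨G, fun t => ?_, fun k n => ?_⟩
  · have h3 : Summable (fun i => g i t) := by
      refine Summable.of_norm_bounded (hg 0 0) fun i => ?_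
      exact SchwartzMap.norm_le_seminorm ℂ (g i) t
    exact h3.hasSum
  · exact SchwartzMap.seminorm_le_bound ℂ k n G
      (tsum_nonneg fun i => apply_nonneg _ _) (fun t => hkey k n t)

end SF
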