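import Pool.Agent.N246.SF.Defs
import Pool.Agent.N246.SF.I3

/-!
# SF/I4: synthesis of the left inverse
-/

open MeasureTheory Filter Set SchwartzMap FourierTransform
open scoped ENNReal NNReal Topology

namespace SF.I4aux

/-- Seminorm bound for the terms of the synthesis series. -/
theorem term_bound {ι : Type*} (T : ι → ℝ) (hT : ∀ i, 1 ≤ T i)
    (g : ι → 𝓢(ℝ, ℂ)) (m : ι → (RapidSeq × RapidSeq →ₗ[ℂ] ℂ))
    (hg : ∀ k n : ℕ, ∃ (C : ℝ) (N : ℕ), 0 ≤ C ∧ ∀ i,
        SchwartzMap.seminorm ℂ k n (g i) ≤ C * (T i) ^ N)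
    (hmb : ∀ l : ℕ, ∃ (K : ℝ) (L : ℕ), 0 ≤ K ∧ ∀ i c,
      ‖m i c‖ ≤ K * (T i) ^ (-(l : ℤ)) *
        (RapidSeq.seminorm L (c : RapidSeq × RapidSeq).1 + RapidSeq.seminorm L c.2))
    (k n : ℕ) : ∃ (B : ℝ) (L : ℕ), 0 ≤ B ∧ ∀ i (c : RapidSeq × RapidSeq),
      SchwartzMap.seminorm ℂ k n (m i c • g i) ≤
        B * (RapidSeq.seminorm L c.1 + RapidSeq.seminorm L c.2) * (T i) ^ (-(4 : ℤ)) := by
  obtain ⟨C, N, hC, hCN⟩ := hg k n
  obtain ⟨K, L, hK, hKL⟩ := hmb (N + 4)
  refine ⟨K * C, L, mul_nonneg hK hC, fun i c => ?_⟩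
  have hTi : 0 < T i := lt_of_lt_of_le one_pos (hT i)
  have hp : 0 ≤ RapidSeq.seminorm L c.1 + RapidSeq.seminorm L c.2 :=
    add_nonneg (apply_nonneg _ _) (apply_nonneg _ _)
  have h1 : SchwartzMap.seminorm ℂ k n (m i c • g i)
      = ‖m i c‖ * SchwartzMap.seminorm ℂ k n (g i) := map_smul_eq_mul _ _ _
  rw [h1]
  have h2 : (T i) ^ (-((N + 4 : ℕ) : ℤ)) * (T i) ^ N = (T i) ^ (-(4 : ℤ)) := by
    rw [← zpow_natCast (T i) N, ← zpow_add₀ hTi.ne']
    congr 1
    push_cast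
    ring
  calc ‖m i c‖ * SchwartzMap.seminorm ℂ k n (g i)
      ≤ (K * (T i) ^ (-((N + 4 : ℕ) : ℤ)) *
        (RapidSeq.seminorm L c.1 + RapidSeq.seminorm L c.2)) * (C * (T i) ^ N) := by
        refine mul_le_mul (hKL i c) (hCN i) (apply_nonneg _ _) ?_
        exact mul_nonneg (mul_nonneg hK (zpow_nonneg hTi.le _)) hp
    _ = K * C * (RapidSeq.seminorm L c.1 + RapidSeq.seminorm L c.2) *
        ((T i) ^ (-((N + 4 : ℕ) : ℤ)) * (T i) ^ N) := by ring
    _ = _ := by rw [h2]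

end SF.I4aux

namespace SF

/-- I4: abstract synthesis: a continuous left inverse from functionals with decay and atoms. -/
theorem I4_synthesis {x y : ℤ → ℝ} {A : 𝓢(ℝ, ℂ) →ₗ[ℂ] RapidSeq × RapidSeq}
    {ι : Type*} (T : ι → ℝ) (hT : ∀ i, 1 ≤ T i) (hTs : Summable (fun i => (T i) ^ (-(4 : ℤ))))
    (a : ι → (𝓢(ℝ, ℂ) →ₗ[ℂ] ℂ)) (g : ι → 𝓢(ℝ, ℂ)) (m : ι → (RapidSeq × RapidSeq →ₗ[ℂ] ℂ))
    (hg : ∀ k n : ℕ, ∃ (C : ℝ) (N : ℕ), 0 ≤ C ∧ ∀ i,
        SchwartzMap.seminorm ℂ k n (g i) ≤ C * (T i) ^ N)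
    (ha : ∀ (f : 𝓢(ℝ, ℂ)) (t : ℝ), Summable (fun i => a i f * g i t) →
        f t = ∑' i, a i f * g i t)
    (hm : ∀ i f, m i (A f) = a i f)
    (hmb : ∀ l : ℕ, ∃ (K : ℝ) (L : ℕ), 0 ≤ K ∧ ∀ i c,
      ‖m i c‖ ≤ K * (T i) ^ (-(l : ℤ)) *
        (RapidSeq.seminorm L (c : RapidSeq × RapidSeq).1 + RapidSeq.seminorm L c.2)) :
    ∃ L : RapidSeq × RapidSeq →L[ℂ] 𝓢(ℝ, ℂ), ∀ f : 𝓢(ℝ, ℂ), L (A f) = f := by
  have hbd := I4aux.term_bound T hT g m hg hmb
  have hsum : ∀ (c : RapidSeq × RapidSeq) (k n : ℕ),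
      Summable (fun i => SchwartzMap.seminorm ℂ k n (m i c • g i)) := by
    intro c k n
    obtain ⟨B, L, hB, hBL⟩ := hbd k n
    exact Summable.of_nonneg_of_le (fun i => apply_nonneg _ _) (fun i => hBL i c)
      (hTs.mul_left _)
  have hG := fun c : RapidSeq × RapidSeq =>
    SF.I3_tsum (fun i => m i c • g i) (fun k n => hsum c k n)
  choose G hGsum hGsem using hG
  have hGs : ∀ c t, HasSum (fun i => m i c * g i t) (G c t) := by
    intro c t
    exact hGsum c t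
  let Lc : RapidSeq × RapidSeq →ₗ[ℂ] 𝓢(ℝ, ℂ) :=
    { toFun := G
      map_add' := by
        intro c d
        ext t
        have h1 := hGs (c + d) t
        have h2 := (hGs c t).add (hGs d t)
        have h3 : (fun i => m i (c + d) * g i t)
            = fun i => m i c * g i t + m i d * g i t := by
          funext i
          rw [map_add, add_mul]
        rw [h3] at h1
        exact h1.unique h2
      map_smul' := by
        intro r c
        ext t
        have h1 := hGs (r • c) t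
        have h2 := (hGs c t).mul_left r
        have h3 : (fun i => m i (r • c) * g i t) = fun i => r * (m i c * g i t) := by
          funext i
          rw [map_smul, smul_eq_mul, mul_assoc]
        rw [h3] at h1
        exact h1.unique h2 }
  have hLc : ∀ c, Lc c = G c := fun c => rfl
  have hcont : Continuous Lc := by
    refine continuous_of_continuousAt_zero Lc ?_
    unfold ContinuousAt
    rw [map_zero]
    rw [(schwartz_withSeminorms ℂ ℝ ℂ).tendsto_nhds]
    rintro ⟨k, n⟩ ε hε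
    obtain ⟨B, L, hB, hBL⟩ := hbd k n
    set S : ℝ := ∑' i, (T i) ^ (-(4 : ℤ)) with hS
    have hle : ∀ c : RapidSeq × RapidSeq, SchwartzMap.seminorm ℂ k n (G c) ≤
        B * (RapidSeq.seminorm L c.1 + RapidSeq.seminorm L c.2) * S := by
      intro c
      refine (hGsem c k n).trans ?_
      rw [hS, ← tsum_mul_left]
      exact (hsum c k n).tsum_le_tsum (fun i => hBL i c) (hTs.mul_left _)
    have hcL : Continuous (RapidSeq.seminorm L) := RapidSeq.withSeminorms.continuous_seminorm L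
    have hc : Continuous (fun c : RapidSeq × RapidSeq =>
        B * (RapidSeq.seminorm L c.1 + RapidSeq.seminorm L c.2) * S) :=
      (continuous_const.mul ((hcL.comp continuous_fst).add (hcL.comp continuous_snd))).mul
        continuous_const
    have h0 : Tendsto (fun c : RapidSeq × RapidSeq =>
        B * (RapidSeq.seminorm L c.1 + RapidSeq.seminorm L c.2) * S) (𝓝 0) (𝓝 0) := by
      have := hc.tendsto (0 : RapidSeq × RapidSeq)
      simpa using this
    filter_upwards [h0.eventually (gt_mem_nhds hε)] with c hc'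
    rw [sub_zero]
    exact lt_of_le_of_lt (hle c) hc'
  refine ⟨⟨Lc, hcont⟩, fun f => ?_⟩
  ext t
  have h1 := hGs (A f) t
  have h2 : (fun i => m i (A f) * g i t) = fun i => a i f * g i t := by
    funext i
    rw [hm]
  rw [h2] at h1
  have h3 := ha f t h1.summable
  change G (A f) t = f t
  rw [h3, h1.tsum_eq]

end SF
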