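import Pool.Agent.N246.SF.Defs
import Pool.Agent.N246.SF.A1
import Pool.Agent.N246.SF.A2
import Pool.Agent.N246.SF.E2
import Pool.Agent.N246.SF.G5
import Pool.Agent.N246.SF.G6
import Pool.Agent.N246.SF.H5
import Pool.Agent.N246.SF.H6
import Pool.Agent.N246.SF.I1
import Pool.Agent.N246.SF.I2
import Pool.Agent.N246.SF.I4

open MeasureTheory Filter Set SchwartzMap FourierTransform
open scoped ENNReal NNReal Topology

namespace SF
namespace J1aux


theorem seminorm_mono {k l : ℕ} (h : k ≤ l) (c : RapidSeq) :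
    RapidSeq.seminorm k c ≤ RapidSeq.seminorm l c := by
  refine RapidSeq.seminorm_le fun n => ?_
  refine le_trans ?_ (RapidSeq.le_seminorm l c n)
  gcongr
  linarith [abs_nonneg (n : ℝ)]

theorem W_nonneg {r : ℝ} {k j : ℕ} {T x : ℝ} (hT : 0 ≤ T) : 0 ≤ W r k j T x := by
  have h : (0 : ℝ) ≤ (max 1 |x|) ^ r := by positivity
  unfold W wt
  have : 0 ≤ min ((max 1 |x|) ^ r) T := le_min h hT
  positivity

/-- The data needed for summability. -/
def LG (x : ℤ → ℝ) : Prop := ∃ C : ℝ, 0 < C ∧ ∀ n : ℤ, |x n| ≤ C * (1 + |(n : ℝ)|)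

theorem summable_W {p : ℝ} (hp : 1 < p) {x : ℤ → ℝ} (hx : LG x) {k j : ℕ} {T : ℝ} (hT : 1 ≤ T)
    (c : RapidSeq) : Summable (fun n : ℤ => W p k j T (x n) * ‖c n‖) := by
  obtain ⟨C, hC, hx⟩ := hx
  obtain ⟨C', L, hC', h⟩ := G5_summable hp hC hx (k + j)
  exact ((h c).2.2 k j T rfl hT).1

theorem summable_pow {p : ℝ} (hp : 1 < p) {x : ℤ → ℝ} (hx : LG x) (m : ℕ)
    (c : RapidSeq) : Summable (fun n : ℤ => ((max 1 |x n|) ^ p) ^ m * ‖c n‖) := by
  obtain ⟨C, hC, hx⟩ := hx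
  obtain ⟨C', L, hC', h⟩ := G5_summable hp hC hx m
  exact (h c).1

theorem bound_pow {p : ℝ} (hp : 1 < p) {x : ℤ → ℝ} (hx : LG x) (m : ℕ) :
    ∃ (C : ℝ) (L : ℕ), 0 ≤ C ∧ ∀ c : RapidSeq,
      (∑' n : ℤ, ((max 1 |x n|) ^ p) ^ m * ‖c n‖) ≤ C * RapidSeq.seminorm L c := by
  obtain ⟨C, hC, hx⟩ := hx
  obtain ⟨C', L, hC', h⟩ := G5_summable hp hC hx m
  exact ⟨C', L, hC', fun c => (h c).2.1⟩

theorem tsum_add_le {w : ℤ → ℝ} (hw : ∀ n, 0 ≤ w n)
    (hs : ∀ c : RapidSeq, Summable (fun n : ℤ => w n * ‖c n‖)) (c d : RapidSeq) :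
    (∑' n : ℤ, w n * ‖(c + d) n‖) ≤ (∑' n : ℤ, w n * ‖c n‖) + ∑' n : ℤ, w n * ‖d n‖ := by
  rw [← (hs c).tsum_add (hs d)]
  refine (hs (c + d)).tsum_le_tsum (fun n => ?_) ((hs c).add (hs d))
  rw [← mul_add]
  exact mul_le_mul_of_nonneg_left (norm_add_le _ _) (hw n)

theorem tsum_smul {w : ℤ → ℝ} (r : ℂ) (c : RapidSeq) :
    (∑' n : ℤ, w n * ‖(r • c) n‖) = ‖r‖ * ∑' n : ℤ, w n * ‖c n‖ := by
  rw [← tsum_mul_left]
  refine tsum_congr fun n => ?_
  simp only [RapidSeq.smul_apply, norm_mul]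
  ring

/-- `Q` as a seminorm. -/
noncomputable def Qs {p q : ℝ} (hp : 1 < p) (hq : 1 < q) {x y : ℤ → ℝ} (hx : LG x) (hy : LG y)
    (k j : ℕ) {T : ℝ} (hT : 1 ≤ T) : Seminorm ℂ (RapidSeq × RapidSeq) :=
  Seminorm.of (Q p q x y k j T)
    (by
      intro c d
      have h1 := tsum_add_le (w := fun n => W p k j T (x n)) (fun n => W_nonneg (by linarith))
        (fun c => summable_W hp hx hT c) c.1 d.1
      have h2 := tsum_add_le (w := fun n => W q k j T (y n)) (fun n => W_nonneg (by linarith))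
        (fun c => summable_W hq hy hT c) c.2 d.2
      have e1 : (c + d).1 = c.1 + d.1 := rfl
      have e2 : (c + d).2 = c.2 + d.2 := rfl
      unfold Q
      rw [e1, e2]
      linarith)
    (by
      intro r c
      have e1 : (r • c).1 = r • c.1 := rfl
      have e2 : (r • c).2 = r • c.2 := rfl
      unfold Q
      rw [e1, e2, tsum_smul, tsum_smul]
      ring)

theorem QI_nonneg {p q : ℝ} {x y : ℤ → ℝ} (m : ℕ) (c : RapidSeq × RapidSeq) :
    0 ≤ QI p q x y m c := by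
  unfold QI
  have h1 : ∀ (r : ℝ) (t : ℝ), 0 ≤ (max 1 |t|) ^ r := fun r t => by positivity
  refine add_nonneg (tsum_nonneg fun n => ?_) (tsum_nonneg fun n => ?_)
  · exact mul_nonneg (pow_nonneg (h1 _ _) _) (norm_nonneg _)
  · exact mul_nonneg (pow_nonneg (h1 _ _) _) (norm_nonneg _)

theorem one_le_base {r : ℝ} (hr : 1 < r) (t : ℝ) : 1 ≤ (max 1 |t|) ^ r :=
  Real.one_le_rpow (le_max_left _ _) (by linarith)

theorem QI_mono {p q : ℝ} (hp : 1 < p) (hq : 1 < q) {x y : ℤ → ℝ} (hx : LG x) (hy : LG y)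
    {m m' : ℕ} (h : m ≤ m') (c : RapidSeq × RapidSeq) :
    QI p q x y m c ≤ QI p q x y m' c := by
  unfold QI
  refine add_le_add ?_ ?_
  · refine (summable_pow hp hx m c.1).tsum_le_tsum (fun n => ?_) (summable_pow hp hx m' c.1)
    exact mul_le_mul_of_nonneg_right (pow_le_pow_right₀ (one_le_base hp _) h) (norm_nonneg _)
  · refine (summable_pow hq hy m c.2).tsum_le_tsum (fun n => ?_) (summable_pow hq hy m' c.2)
    exact mul_le_mul_of_nonneg_right (pow_le_pow_right₀ (one_le_base hq _) h) (norm_nonneg _)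

theorem Q_le {p q : ℝ} (hp : 1 < p) (hq : 1 < q) {x y : ℤ → ℝ} (hx : LG x) (hy : LG y)
    (k : ℕ) {j l : ℕ} (h : l ≤ j) {T : ℝ} (hT : 1 ≤ T) (c : RapidSeq × RapidSeq) :
    Q p q x y k j T c ≤ QI p q x y (k + l) c * T ^ (j - l) := by
  have h7 := (E2_growth k j hT).2.2.2.2.2.2
  unfold Q QI
  rw [add_mul, ← tsum_mul_right, ← tsum_mul_right]
  refine add_le_add ?_ ?_
  · refine (summable_W hp hx hT c.1).tsum_le_tsum (fun n => ?_)
      ((summable_pow hp hx (k + l) c.1).mul_right _)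
    have := h7 ((max 1 |x n|) ^ p) l (by positivity) h
    calc W p k j T (x n) * ‖c.1 n‖ ≤ (((max 1 |x n|) ^ p) ^ (k + l) * T ^ (j - l)) * ‖c.1 n‖ :=
          mul_le_mul_of_nonneg_right this (norm_nonneg _)
      _ = _ := by ring
  · refine (summable_W hq hy hT c.2).tsum_le_tsum (fun n => ?_)
      ((summable_pow hq hy (k + l) c.2).mul_right _)
    have := h7 ((max 1 |y n|) ^ q) l (by positivity) h
    calc W q k j T (y n) * ‖c.2 n‖ ≤ (((max 1 |y n|) ^ q) ^ (k + l) * T ^ (j - l)) * ‖c.2 n‖ :=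
          mul_le_mul_of_nonneg_right this (norm_nonneg _)
      _ = _ := by ring

theorem exists_left_inverse {p q : ℝ} (hp : 1 < p) (hq : 1 < q) (hpq : 1 / p + 1 / q = 1)
    {x y : ℤ → ℝ} (hx : Supercritical p x) (hy : Supercritical q y)
    {A : 𝓢(ℝ, ℂ) →ₗ[ℂ] RapidSeq × RapidSeq} (hA : IsAnalysis x y A)
    (hE : Topology.IsEmbedding A) :
    ∃ L : RapidSeq × RapidSeq →L[ℂ] 𝓢(ℝ, ℂ), ∀ f : 𝓢(ℝ, ℂ), L (A f) = f := by
  classical
  obtain ⟨ρ1, R1, hρ10, hρ1, hR1, hgx1⟩ := A1_goodNodes hp hx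
  obtain ⟨ρ2, R2, hρ20, hρ2, hR2, hgy2⟩ := A1_goodNodes hq hy
  have hgx := A3_mono hgx1 (le_max_left ρ1 ρ2) (le_max_left R1 R2)
  have hgy := A3_mono hgy2 (le_max_right ρ1 ρ2) (le_max_right R1 R2)
  have hρ0 : 0 < max ρ1 ρ2 := lt_max_of_lt_left hρ10
  have hρ : max ρ1 ρ2 < 1 / 2 := max_lt hρ1 hρ2
  have hR : 1 ≤ max R1 R2 := le_max_of_le_left hR1
  have lx : LG x := A2_linear_growth hp hρ hR hgx
  have ly : LG y := A2_linear_growth hq hρ hR hgy
  obtain ⟨k, hk⟩ := G6_frame hp hq hpq hρ0 hρ hR hgx hgy hA hE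
  choose CF hCF0 hCF using hk
  obtain ⟨a, g, ha, hg, hexp⟩ := H5_expansion hp hq
  obtain ⟨hT1, hTs⟩ := H6_scales hp hq
  choose CA hCA0 hCA using fun j => ha k j
  -- functionals
  have key : ∀ (j : ℕ) (i : ℤ × ℤ), ∃ m : (RapidSeq × RapidSeq) →ₗ[ℂ] ℂ, (∀ f, m (A f) = a i f) ∧
      ∀ c, ‖m c‖ ≤ (CA j * CF j) * (Tsc p q i) ^ (-((k + j : ℕ) : ℤ)) *
        Q p q x y k j (Tsc p q i) c := by
    intro j i
    have hTi := hT1 i
    have hT0 : 0 < Tsc p q i := by linarith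
    have hz : 0 ≤ (Tsc p q i) ^ (-((k + j : ℕ) : ℤ)) := (zpow_pos hT0 _).le
    have := I1_hahn_banach A (Qs hp hq lx ly k j hTi) (a i)
      (C := (CA j * CF j) * (Tsc p q i) ^ (-((k + j : ℕ) : ℤ)))
      (mul_nonneg (mul_nonneg (hCA0 j) (hCF0 j)) hz)
      (by
        intro f
        have e1 := hCA j i f
        have e2 := hCF j (Tsc p q i) hTi f
        calc ‖a i f‖ ≤ CA j * (Tsc p q i) ^ (-((k + j : ℕ) : ℤ)) * NW p q k j (Tsc p q i) f := e1
          _ ≤ CA j * (Tsc p q i) ^ (-((k + j : ℕ) : ℤ)) *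
              (CF j * Q p q x y k j (Tsc p q i) (A f)) :=
            mul_le_mul_of_nonneg_left e2 (mul_nonneg (hCA0 j) hz)
          _ = (CA j * CF j) * (Tsc p q i) ^ (-((k + j : ℕ) : ℤ)) *
              (Qs hp hq lx ly k j hTi) (A f) := by
            show _ = (CA j * CF j) * (Tsc p q i) ^ (-((k + j : ℕ) : ℤ)) *
              (Q p q x y k j (Tsc p q i) (A f))
            ring)
    obtain ⟨m, hm1, hm2⟩ := this
    exact ⟨m, hm1, fun c => hm2 c⟩
  choose m hm1 hm2 using key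
  obtain ⟨jj, hjj⟩ := I2_slow (ι := ℤ × ℤ) (X := RapidSeq × RapidSeq) k (fun i => Tsc p q i) hT1
    (fun j => CA j * CF j) (fun j => mul_nonneg (hCA0 j) (hCF0 j))
    (fun j T' c => Q p q x y k j T' c) (fun l c => QI p q x y (k + l) c)
    (fun l c => QI_nonneg _ c)
    (fun l l' c h => QI_mono hp hq lx ly (by omega) c)
    (fun j l h T' hT' c => Q_le hp hq lx ly k h hT' c)
    (fun j i c => ‖m j i c‖) (fun j i c => hm2 j i c)
  refine I4_synthesis (x := x) (y := y) (A := A) (fun i => Tsc p q i) hT1 hTs a g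
    (fun i => m (jj i) i) hg hexp (fun i f => hm1 (jj i) i f) ?_
  intro l
  obtain ⟨K, hK0, hK⟩ := hjj (l + 1)
  obtain ⟨C1, L1, hC1, hb1⟩ := bound_pow hp lx (k + (l + 1))
  obtain ⟨C2, L2, hC2, hb2⟩ := bound_pow hq ly (k + (l + 1))
  refine ⟨K * max C1 C2, max L1 L2, mul_nonneg hK0 (le_max_of_le_left hC1), ?_⟩
  intro i c
  have hTi := hT1 i
  have hT0 : 0 < Tsc p q i := by linarith
  have e1 : (Tsc p q i) ^ (1 - ((k + (l + 1) : ℕ) : ℤ)) ≤ (Tsc p q i) ^ (-(l : ℤ)) := by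
    apply zpow_le_zpow_right₀ hTi
    push_cast
    omega
  have e2 : QI p q x y (k + (l + 1)) c ≤ max C1 C2 *
      (RapidSeq.seminorm (max L1 L2) c.1 + RapidSeq.seminorm (max L1 L2) c.2) := by
    unfold QI
    have f1 := hb1 c.1
    have f2 := hb2 c.2
    have g1 := seminorm_mono (le_max_left L1 L2) c.1
    have g2 := seminorm_mono (le_max_right L1 L2) c.2
    have n1 : 0 ≤ RapidSeq.seminorm (max L1 L2) c.1 := apply_nonneg _ _
    have n2 : 0 ≤ RapidSeq.seminorm (max L1 L2) c.2 := apply_nonneg _ _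
    have h1 : C1 * RapidSeq.seminorm L1 c.1 ≤ max C1 C2 * RapidSeq.seminorm (max L1 L2) c.1 :=
      mul_le_mul (le_max_left _ _) g1 (apply_nonneg _ _) (le_max_of_le_left hC1)
    have h2 : C2 * RapidSeq.seminorm L2 c.2 ≤ max C1 C2 * RapidSeq.seminorm (max L1 L2) c.2 :=
      mul_le_mul (le_max_right _ _) g2 (apply_nonneg _ _) (le_max_of_le_left hC1)
    linarith
  have e3 := hK i c
  have hz : 0 ≤ (Tsc p q i) ^ (-(l : ℤ)) := (zpow_pos hT0 _).le
  have n1 : 0 ≤ RapidSeq.seminorm (max L1 L2) c.1 := apply_nonneg _ _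
  have n2 : 0 ≤ RapidSeq.seminorm (max L1 L2) c.2 := apply_nonneg _ _
  calc ‖m (jj i) i c‖ ≤ K * (Tsc p q i) ^ (1 - ((k + (l + 1) : ℕ) : ℤ)) *
        QI p q x y (k + (l + 1)) c := e3
    _ ≤ K * (Tsc p q i) ^ (-(l : ℤ)) * (max C1 C2 *
      (RapidSeq.seminorm (max L1 L2) c.1 + RapidSeq.seminorm (max L1 L2) c.2)) := by
        apply mul_le_mul (mul_le_mul_of_nonneg_left e1 hK0) e2 (QI_nonneg _ _)
        exact mul_nonneg hK0 hz
    _ = K * max C1 C2 * (Tsc p q i) ^ (-(l : ℤ)) *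
        (RapidSeq.seminorm (max L1 L2) c.1 + RapidSeq.seminorm (max L1 L2) c.2) := by ring

end J1aux

/-- J1: the main theorem. -/
theorem J1_main {p q : ℝ} (hp : 1 < p) (hq : 1 < q) (hpq : 1 / p + 1 / q = 1) {x y : ℤ → ℝ}
    (hx : Supercritical p x) (hy : Supercritical q y) (h : IsSFrame x y) :
    IsStrongSFrame x y := by
  obtain ⟨A, hA, hE⟩ := h
  obtain ⟨L, hL⟩ := J1aux.exists_left_inverse hp hq hpq hx hy hA hE
  refine ⟨A, hA, hE, ?_, L, hL⟩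
  have hc : Continuous A := hE.continuous
  refine ⟨⟨(A.comp (L : RapidSeq × RapidSeq →ₗ[ℂ] 𝓢(ℝ, ℂ))).codRestrict (LinearMap.range A)
    (fun c => ⟨L c, rfl⟩), ?_⟩, ?_⟩
  · exact (hc.comp L.continuous).subtype_mk _
  · rintro ⟨_, f, rfl⟩
    apply Subtype.ext
    show A (L (A f)) = A f
    rw [hL]

end SF
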