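import Pool.Agent.N246.SF.Defs

/-!
# Project SF: statements of the pieces (all with sorry; do not import in hand-ins)
-/

open MeasureTheory Filter Set SchwartzMap FourierTransform
open scoped ENNReal NNReal Topology

namespace SF.Stm

/-! A. Nodes -/

/-- A1 -/
theorem A1_goodNodes {p : ℝ} (hp : 1 < p) {x : ℤ → ℝ} (hx : Supercritical p x) :
    ∃ ρ R : ℝ, 0 < ρ ∧ ρ < 1 / 2 ∧ 1 ≤ R ∧ GoodNodes p ρ R x := by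
  sorry

/-- A2 -/
theorem A2_linear_growth {p ρ R : ℝ} (hp : 1 < p) (hρ : ρ < 1 / 2) (hR : 1 ≤ R) {x : ℤ → ℝ}
    (hx : GoodNodes p ρ R x) : ∃ C : ℝ, 0 < C ∧ ∀ n : ℤ, |x n| ≤ C * (1 + |(n : ℝ)|) := by
  sorry

/-- A3 -/
theorem A3_mono {p ρ ρ' R R' : ℝ} {x : ℤ → ℝ} (hx : GoodNodes p ρ R x)
    (h1 : ρ ≤ ρ') (h2 : R ≤ R') : GoodNodes p ρ' R' x := by
  sorry

/-! B. Wirtinger inequality and sums over gaps -/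

/-- B1: sharp Wirtinger inequality with endpoint terms. -/
theorem B1_wirtinger {η : ℝ} (hη : 0 < η) : ∃ C : ℝ, 0 ≤ C ∧ ∀ (f : ℝ → ℂ) (a b : ℝ),
    ContDiff ℝ 1 f → a ≤ b →
    ∫ t in a..b, ‖f t‖ ^ 2 ≤ (1 + η) * ((b - a) / Real.pi) ^ 2 * (∫ t in a..b, ‖deriv f t‖ ^ 2)
      + C * (b - a) * (‖f a‖ ^ 2 + ‖f b‖ ^ 2) := by
  sorry

/-- B2: sum over the gaps to the right of `s`. -/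
theorem B2_right {p ρ R η : ℝ} (hp : 1 < p) (hρ0 : 0 < ρ) (hρ : ρ < 1 / 2) (hR : 1 ≤ R)
    (hη : 0 < η) : ∃ C : ℝ≥0, ∀ (x : ℤ → ℝ), GoodNodes p ρ R x → ∀ s : ℝ, R ≤ s →
    ∀ f : ℝ → ℂ, ContDiff ℝ 1 f →
    ∫⁻ t in Ici s, ‖f t‖ₑ ^ 2 ≤
      ENNReal.ofReal ((1 + η) * (ρ / (Real.pi * s ^ (p - 1))) ^ 2) *
        (∫⁻ t in Ici (s - ρ / s ^ (p - 1)), ‖deriv f t‖ₑ ^ 2)
      + C * ∑' n : ℤ, (if s - ρ / s ^ (p - 1) ≤ x n then ‖f (x n)‖ₑ ^ 2 else 0) := by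
  sorry

/-- B3: sum over all the gaps outside `[-s, s]`. -/
theorem B3_gaps {p ρ R η : ℝ} (hp : 1 < p) (hρ0 : 0 < ρ) (hρ : ρ < 1 / 2) (hR : 1 ≤ R)
    (hη : 0 < η) : ∃ C : ℝ≥0, ∀ (x : ℤ → ℝ), GoodNodes p ρ R x → ∀ s : ℝ, R ≤ s →
    ∀ f : ℝ → ℂ, ContDiff ℝ 1 f →
    ∫⁻ t in {t | s ≤ |t|}, ‖f t‖ₑ ^ 2 ≤
      ENNReal.ofReal ((1 + η) * (ρ / (Real.pi * s ^ (p - 1))) ^ 2) *
        (∫⁻ t in {t | s - ρ / s ^ (p - 1) ≤ |t|}, ‖deriv f t‖ₑ ^ 2)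
      + C * ∑' n : ℤ, (if s - ρ / s ^ (p - 1) ≤ |x n| then ‖f (x n)‖ₑ ^ 2 else 0) := by
  sorry

/-! C. Frequency localisation -/

/-- C1: tail version of Young's inequality. -/
theorem C1_young_tail (K g : ℝ → ℝ≥0∞) (hK : Measurable K) (hg : Measurable g) (s d : ℝ)
    (hd : 0 ≤ d) (hgs : ∀ y, s ≤ |y| → g y = 0) :
    ∫⁻ x in {x | s + d ≤ |x|}, (∫⁻ y, K (x - y) * g y) ^ 2 ≤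
      (∫⁻ z in {z | d ≤ |z|}, K z) ^ 2 * ∫⁻ y, g y ^ 2 := by
  sorry

/-- C2: the smooth frequency cut-off and its kernel. For every `δ > 0` there is a smooth
compactly supported symbol `M` with `M ξ = 2πiξ` for `|ξ| ≤ 1+δ`, `|M ξ| ≤ 2π(1+2δ)`, and
`|2πiξ - M ξ| ≤ 2π|ξ|`; its dilates `ξ ↦ Λ M(ξ/Λ)` have kernels with tails `O(Λ (Λ d)^{-N})`. -/
theorem C2_kernel {δ : ℝ} (hδ : 0 < δ) : ∃ M : ℝ → (ℝ → ℂ),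
    (∀ Λ : ℝ, 1 ≤ Λ → ∃ K : 𝓢(ℝ, ℂ), (∀ ξ, (𝓕 K) ξ = M Λ ξ)) ∧
    (∀ Λ : ℝ, 1 ≤ Λ → ∀ ξ, |ξ| ≤ (1 + δ) * Λ → M Λ ξ = 2 * Real.pi * Complex.I * ξ) ∧
    (∀ Λ : ℝ, 1 ≤ Λ → ∀ ξ, ‖M Λ ξ‖ ≤ 2 * Real.pi * (1 + 2 * δ) * Λ) ∧
    (∀ Λ : ℝ, 1 ≤ Λ → ∀ ξ : ℝ, ‖2 * Real.pi * Complex.I * ξ - M Λ ξ‖ ≤ 2 * Real.pi * |ξ|) ∧
    (∀ N : ℕ, ∃ C : ℝ≥0, ∀ Λ : ℝ, 1 ≤ Λ → ∀ K : 𝓢(ℝ, ℂ), (∀ ξ, (𝓕 K) ξ = M Λ ξ) →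
      ∀ d : ℝ, 0 < d → ∫⁻ z in {z | d ≤ |z|}, ‖K z‖ₑ ≤
        C * ENNReal.ofReal (Λ * (Λ * d) ^ (-(N : ℝ)))) := by
  sorry

/-- C3: frequency localisation of the derivative far from the origin. -/
theorem C3_freq {δ η : ℝ} (hδ : 0 < δ) (hη : 0 < η) : ∃ C : ℝ≥0, ∀ N : ℕ, ∃ CN : ℝ≥0,
    ∀ (Λ s' s'' : ℝ), 1 ≤ Λ → 0 < s'' → s'' < s' → ∀ f : 𝓢(ℝ, ℂ),
    ∫⁻ t in {t | s' ≤ |t|}, ‖deriv f t‖ₑ ^ 2 ≤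
      ENNReal.ofReal ((1 + η) * (2 * Real.pi * (1 + 2 * δ) * Λ) ^ 2) *
        (∫⁻ t in {t | s'' ≤ |t|}, ‖f t‖ₑ ^ 2)
      + C * (∫⁻ ξ in {ξ | (1 + δ) * Λ ≤ |ξ|}, ENNReal.ofReal (ξ ^ 2) * ‖(𝓕 f) ξ‖ₑ ^ 2)
      + CN * ENNReal.ofReal (Λ ^ 2 * (Λ * (s' - s'')) ^ (-(2 * N : ℝ))) *
        ∫⁻ t, ‖f t‖ₑ ^ 2 := by
  sorry

/-! D. The local inequality -/

/-- D1: the local inequality `LI_s`. -/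
theorem D1_local {p ρ R : ℝ} (hp : 1 < p) (hρ0 : 0 < ρ) (hρ : ρ < 1 / 2) (hR : 1 ≤ R) :
    ∃ θ δ : ℝ, 0 ≤ θ ∧ θ < 1 ∧ 0 < δ ∧ ∃ C1 : ℝ≥0, ∀ κ : ℝ, 0 < κ → κ < 1 → ∀ N : ℕ,
    ∃ R1 : ℝ, 1 ≤ R1 ∧ ∃ C2 : ℝ≥0, ∀ (x : ℤ → ℝ), GoodNodes p ρ R x → ∀ s : ℝ, R1 ≤ s →
    ∀ f : 𝓢(ℝ, ℂ),
    ∫⁻ t in {t | s ≤ |t|}, ‖f t‖ₑ ^ 2 ≤
      ENNReal.ofReal θ * (∫⁻ t in {t | (1 - κ) * s ≤ |t|}, ‖f t‖ₑ ^ 2)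
      + C1 * ENNReal.ofReal (s ^ (-(2 * (p - 1)))) *
        (∫⁻ ξ in {ξ | (1 + δ) * s ^ (p - 1) ≤ |ξ|}, ENNReal.ofReal (ξ ^ 2) * ‖(𝓕 f) ξ‖ₑ ^ 2)
      + C2 * (∑' n : ℤ, (if (1 - κ) * s ≤ |x n| then ‖f (x n)‖ₑ ^ 2 else 0))
      + C2 * ENNReal.ofReal (s ^ (-(2 * p * N))) * ∫⁻ t, ‖f t‖ₑ ^ 2 := by
  sorry

/-! E. Layer cake -/

/-- E1: calculus for the weight: `s ↦ (wt k j T (s^p))^2` is the integral of `a`. -/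
theorem E1_weight {p : ℝ} (hp : 1 < p) (k j : ℕ) (hk : 2 ≤ k) {T : ℝ} (hT : 1 ≤ T) :
    ∃ a : ℝ → ℝ, Measurable a ∧ (∀ s, 0 ≤ a s) ∧
    (∀ r X : ℝ, 1 ≤ r → r ≤ X →
      ∫⁻ s in Icc r X, ENNReal.ofReal (a s) =
        ENNReal.ofReal (wt k j T (X ^ p) ^ 2 - wt k j T (r ^ p) ^ 2)) ∧
    (∀ r X : ℝ, 1 ≤ r → r ≤ X →
      ∫⁻ s in Icc r X, ENNReal.ofReal (a s * s ^ (-(2 * (p - 1)))) ≤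
        ENNReal.ofReal (2 * wt k j T (X ^ p) ^ 2 * X ^ (-(2 * (p - 1))))) ∧
    (∫⁻ s in Ici 1, ENNReal.ofReal (a s * s ^ (-(2 * p * ((k + j + 1 : ℕ) : ℝ)))) ≤
        ENNReal.ofReal ((k + j : ℕ) : ℝ)) := by
  sorry

/-- E2: elementary growth of the weights -/
theorem E2_growth (k j : ℕ) {T : ℝ} (hT : 1 ≤ T) :
    (∀ t lam : ℝ, 0 ≤ t → 1 ≤ lam → wt k j T (lam * t) ≤ lam ^ (k + j) * wt k j T t) ∧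
    (∀ t lam : ℝ, 0 ≤ t → 1 ≤ lam → lam ^ k * wt k j T (t / lam) ≤ wt k j T t) ∧
    (∀ t t' : ℝ, 0 ≤ t → t ≤ t' → wt k j T t ≤ wt k j T t') ∧
    (∀ t : ℝ, 1 ≤ t → t ^ k ≤ wt k j T t) ∧ wt k j T T = T ^ (k + j) ∧
    (∀ t : ℝ, 0 ≤ t → wt k j T t ≤ t ^ (k + j)) ∧
    (∀ (t : ℝ) (l : ℕ), 0 ≤ t → l ≤ j → wt k j T t ≤ t ^ (k + l) * T ^ (j - l)) := by
  sorry

/-- E3: the layer-cake lemma. -/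
theorem E3_layer {p q : ℝ} (hp : 1 < p) (hq : 1 < q) (hpq : 1 / p + 1 / q = 1)
    {θ δ κ R1 : ℝ} (hθ : 0 ≤ θ) (hδ : 0 < δ) (hκ : 0 < κ) (hκ1 : κ ≤ 1 / 2) (hR1 : 2 ≤ R1)
    (k j : ℕ) (hk : 2 ≤ k) (C1 C2 : ℝ≥0) : ∃ C3 : ℝ≥0, ∀ T : ℝ, 1 ≤ T →
    ∀ (F G : ℝ → ℝ≥0∞) (b : ℤ → ℝ≥0∞) (x : ℤ → ℝ), Measurable F → Measurable G →
    (∀ s : ℝ, R1 ≤ s → ∫⁻ t in {t | s ≤ |t|}, F t ≤
      ENNReal.ofReal θ * (∫⁻ t in {t | (1 - κ) * s ≤ |t|}, F t)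
      + C1 * ENNReal.ofReal (s ^ (-(2 * (p - 1)))) *
        (∫⁻ ξ in {ξ | (1 + δ) * s ^ (p - 1) ≤ |ξ|}, ENNReal.ofReal (ξ ^ 2) * G ξ)
      + C2 * (∑' n : ℤ, (if (1 - κ) * s ≤ |x n| then b n else 0))
      + C2 * ENNReal.ofReal (s ^ (-(2 * p * ((k + j + 1 : ℕ) : ℝ)))) * ∫⁻ t, F t) →
    ∫⁻ t, ENNReal.ofReal (W p k j T t ^ 2) * F t ≤
      ENNReal.ofReal (θ * (1 - κ) ^ (-(2 * p * ((k + j : ℕ) : ℝ)))) *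
        (∫⁻ t, ENNReal.ofReal (W p k j T t ^ 2) * F t)
      + C1 * ENNReal.ofReal (2 * (1 + δ) ^ 2 * (1 + δ) ^ (-(2 * q * (k : ℝ)))) *
        (∫⁻ ξ, ENNReal.ofReal (W q k j T ξ ^ 2) * G ξ)
      + C3 * ((∑' n : ℤ, ENNReal.ofReal (W p k j T (x n) ^ 2) * b n) + ∫⁻ t, F t) := by
  sorry

/-! F. The a priori inequality -/

/-- F1: one half. -/
theorem F1_half {p q : ℝ} (hp : 1 < p) (hq : 1 < q) (hpq : 1 / p + 1 / q = 1)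
    {ρ R : ℝ} (hρ0 : 0 < ρ) (hρ : ρ < 1 / 2) (hR : 1 ≤ R) : ∃ k0 : ℕ, ∀ k j : ℕ, k0 ≤ k →
    ∃ C : ℝ≥0, ∀ (x : ℤ → ℝ), GoodNodes p ρ R x → ∀ T : ℝ, 1 ≤ T → ∀ f : 𝓢(ℝ, ℂ),
    ∫⁻ t, ENNReal.ofReal (W p k j T t ^ 2) * ‖f t‖ₑ ^ 2 ≤
      (1 / 2) * (∫⁻ ξ, ENNReal.ofReal (W q k j T ξ ^ 2) * ‖(𝓕 f) ξ‖ₑ ^ 2)
      + C * ((∑' n : ℤ, ENNReal.ofReal (W p k j T (x n) ^ 2) * ‖f (x n)‖ₑ ^ 2)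
        + ∫⁻ t, ‖f t‖ₑ ^ 2) := by
  sorry

/-- F2: the a priori inequality. -/
theorem F2_apriori {p q : ℝ} (hp : 1 < p) (hq : 1 < q) (hpq : 1 / p + 1 / q = 1)
    {ρ R : ℝ} (hρ0 : 0 < ρ) (hρ : ρ < 1 / 2) (hR : 1 ≤ R) : ∃ k0 : ℕ, ∀ k j : ℕ, k0 ≤ k →
    ∃ C : ℝ≥0, ∀ (x y : ℤ → ℝ), GoodNodes p ρ R x → GoodNodes q ρ R y →
    ∀ T : ℝ, 1 ≤ T → ∀ f : 𝓢(ℝ, ℂ),
    (∫⁻ t, ENNReal.ofReal (W p k j T t ^ 2) * ‖f t‖ₑ ^ 2) +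
      (∫⁻ ξ, ENNReal.ofReal (W q k j T ξ ^ 2) * ‖(𝓕 f) ξ‖ₑ ^ 2) ≤
    C * ((∑' n : ℤ, ENNReal.ofReal (W p k j T (x n) ^ 2) * ‖f (x n)‖ₑ ^ 2)
      + (∑' n : ℤ, ENNReal.ofReal (W q k j T (y n) ^ 2) * ‖(𝓕 f) (y n)‖ₑ ^ 2)
      + ∫⁻ t, ‖f t‖ₑ ^ 2) := by
  sorry

/-! G. Using the frame hypothesis -/

/-- G1: Schwartz seminorms of translates grow polynomially, uniformly in the function. -/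
theorem G1_translate (k n : ℕ) : ∃ (C : ℝ) (s : Finset (ℕ × ℕ)), 0 ≤ C ∧
    ∀ (a : ℝ) (f g : 𝓢(ℝ, ℂ)), (∀ t, g t = f (t - a)) →
    SchwartzMap.seminorm ℂ k n g ≤
      C * (1 + |a|) ^ k * (s.sup (schwartzSeminormFamily ℂ ℝ ℂ)) f := by
  sorry

/-- G2: Schwartz seminorms of modulations grow polynomially, uniformly in the function. -/
theorem G2_modulate (k n : ℕ) : ∃ (C : ℝ) (N : ℕ) (s : Finset (ℕ × ℕ)), 0 ≤ C ∧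
    ∀ (a : ℝ) (f g : 𝓢(ℝ, ℂ)), (∀ t : ℝ, g t = Complex.exp (2 * Real.pi * Complex.I * a * t) * f t) →
    SchwartzMap.seminorm ℂ k n g ≤
      C * (1 + |a|) ^ N * (s.sup (schwartzSeminormFamily ℂ ℝ ℂ)) f := by
  sorry

/-- G3: continuity of the analysis operator bounds the number of nodes. -/
theorem G3_nodes {x y : ℤ → ℝ} {R : 𝓢(ℝ, ℂ) →ₗ[ℂ] RapidSeq × RapidSeq}
    (hR : IsAnalysis x y R) (hc : Continuous R) :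
    ∃ (C : ℝ) (a : ℕ), 0 < C ∧ ∀ n : ℤ, 1 + |(n : ℝ)| ≤ C * (1 + |x n|) ^ a ∧
      1 + |(n : ℝ)| ≤ C * (1 + |y n|) ^ a := by
  sorry

/-- G4: the lower frame bound controls the `L^2` norm. -/
theorem G4_lower {R : 𝓢(ℝ, ℂ) →ₗ[ℂ] RapidSeq × RapidSeq} (hR : Topology.IsEmbedding R) :
    ∃ (C : ℝ) (K : ℕ), 0 ≤ C ∧ ∀ f : 𝓢(ℝ, ℂ),
      Real.sqrt (∫ t, ‖f t‖ ^ 2) ≤
        C * (RapidSeq.seminorm K (R f).1 + RapidSeq.seminorm K (R f).2) := by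
  sorry

/-- G5: summability of the weighted sums on `s`. -/
theorem G5_summable {p : ℝ} (hp : 1 < p) {x : ℤ → ℝ} {Cx : ℝ} (hCx : 0 < Cx)
    (hx : ∀ n : ℤ, |x n| ≤ Cx * (1 + |(n : ℝ)|)) (m : ℕ) :
    ∃ (C : ℝ) (L : ℕ), 0 ≤ C ∧ ∀ c : RapidSeq,
      Summable (fun n : ℤ => ((max 1 |x n|) ^ p) ^ m * ‖c n‖) ∧
      (∑' n : ℤ, ((max 1 |x n|) ^ p) ^ m * ‖c n‖) ≤ C * RapidSeq.seminorm L c ∧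
      (∀ (k j : ℕ) (T : ℝ), k + j = m → 1 ≤ T →
        Summable (fun n : ℤ => W p k j T (x n) * ‖c n‖) ∧
        (∑' n : ℤ, W p k j T (x n) * ‖c n‖) ≤ ∑' n : ℤ, ((max 1 |x n|) ^ p) ^ m * ‖c n‖) := by
  sorry

/-- G6: the frame inequality `(F)`. -/
theorem G6_frame {p q : ℝ} (hp : 1 < p) (hq : 1 < q) (hpq : 1 / p + 1 / q = 1)
    {ρ R : ℝ} (hρ0 : 0 < ρ) (hρ : ρ < 1 / 2) (hR : 1 ≤ R) {x y : ℤ → ℝ}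
    (hx : GoodNodes p ρ R x) (hy : GoodNodes q ρ R y)
    {A : 𝓢(ℝ, ℂ) →ₗ[ℂ] RapidSeq × RapidSeq} (hA : IsAnalysis x y A)
    (hE : Topology.IsEmbedding A) :
    ∃ k : ℕ, ∀ j : ℕ, ∃ C : ℝ, 0 ≤ C ∧ ∀ T : ℝ, 1 ≤ T → ∀ f : 𝓢(ℝ, ℂ),
      NW p q k j T f ≤ C * Q p q x y k j T (A f) := by
  sorry

/-! H. The expansion -/

/-- H1: the windows. -/
theorem H1_windows : ∃ φ ψ : 𝓢(ℝ, ℂ),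
    (∀ t, 1 / 4 ≤ |t| → φ t = 0) ∧ (∀ t, 1 / 2 ≤ |t| → ψ t = 0) ∧
    (∀ t, ψ t * φ t = φ t) ∧
    (∀ t : ℝ, (∑' j : ℤ, φ (t - j / 4)) = 1) := by
  sorry

/-- H2: the expansion on one window. -/
theorem H2_window {φ ψ : 𝓢(ℝ, ℂ)} (hφ : ∀ t, 1 / 4 ≤ |t| → φ t = 0)
    (hψ : ∀ t, 1 / 2 ≤ |t| → ψ t = 0) (hψφ : ∀ t, ψ t * φ t = φ t) (f : 𝓢(ℝ, ℂ)) (c t : ℝ) :
    φ (t - c) * f t = ∑' k : ℤ,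
      (∫ u, φ (u - c) * f u * Complex.exp (-(2 * Real.pi * Complex.I * k * u))) *
        (ψ (t - c) * Complex.exp (2 * Real.pi * Complex.I * k * t)) := by
  sorry

/-- H3: Peetre-type localisation of weighted integrals. -/
theorem H3_loc {r : ℝ} (hr : 1 < r) (φ : 𝓢(ℝ, ℂ)) (k j : ℕ) :
    ∃ C : ℝ, 0 ≤ C ∧ ∀ T : ℝ, 1 ≤ T → ∀ (c : ℝ) (h : 𝓢(ℝ, ℂ)),
      W r k j T c * (∫ u, ‖φ (u - c)‖ * ‖h u‖) ≤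
        C * Real.sqrt (∫ u, W r k j T u ^ 2 * ‖h u‖ ^ 2) := by
  sorry

/-- H4: the second formula for the coefficients. -/
theorem H4_coeff (φ f : 𝓢(ℝ, ℂ)) (c k : ℝ) :
    ‖∫ u, φ (u - c) * f u * Complex.exp (-(2 * Real.pi * Complex.I * k * u))‖ ≤
      ∫ u, ‖φ (u - c)‖ * ‖f u‖ ∧
    ‖∫ u, φ (u - c) * f u * Complex.exp (-(2 * Real.pi * Complex.I * k * u))‖ ≤
      ∫ ξ, ‖(𝓕 φ) (k - ξ)‖ * ‖(𝓕 f) ξ‖ := by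
  sorry

/-- H5: existence of the expansion with coefficient bounds and atom bounds. -/
theorem H5_expansion {p q : ℝ} (hp : 1 < p) (hq : 1 < q) :
    ∃ (a : ℤ × ℤ → (𝓢(ℝ, ℂ) →ₗ[ℂ] ℂ)) (g : ℤ × ℤ → 𝓢(ℝ, ℂ)),
      (∀ k j : ℕ, ∃ C : ℝ, 0 ≤ C ∧ ∀ (i : ℤ × ℤ) (f : 𝓢(ℝ, ℂ)),
        ‖a i f‖ ≤ C * (Tsc p q i) ^ (-((k + j : ℕ) : ℤ)) * NW p q k j (Tsc p q i) f) ∧
      (∀ k n : ℕ, ∃ (C : ℝ) (N : ℕ), 0 ≤ C ∧ ∀ i : ℤ × ℤ,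
        SchwartzMap.seminorm ℂ k n (g i) ≤ C * (Tsc p q i) ^ N) ∧
      (∀ (f : 𝓢(ℝ, ℂ)) (t : ℝ), Summable (fun i : ℤ × ℤ => a i f * g i t) →
        f t = ∑' i : ℤ × ℤ, a i f * g i t) := by
  sorry

/-- H6: summability of negative powers of the scales. -/
theorem H6_scales {p q : ℝ} (hp : 1 < p) (hq : 1 < q) :
    (∀ i : ℤ × ℤ, 1 ≤ Tsc p q i) ∧ Summable (fun i : ℤ × ℤ => (Tsc p q i) ^ (-(4 : ℤ))) := by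
  sorry

/-! I. Functional analysis -/

/-- I1: Hahn–Banach for a seminorm. -/
theorem I1_hahn_banach {E V : Type*} [AddCommGroup E] [Module ℂ E] [AddCommGroup V] [Module ℂ V]
    (A : E →ₗ[ℂ] V) (Qs : Seminorm ℂ V) (a : E →ₗ[ℂ] ℂ) {C : ℝ} (hC : 0 ≤ C)
    (h : ∀ f, ‖a f‖ ≤ C * Qs (A f)) :
    ∃ m : V →ₗ[ℂ] ℂ, (∀ f, m (A f) = a f) ∧ ∀ c, ‖m c‖ ≤ C * Qs c := by
  sorry

/-- I2: slow choice of the exponent. -/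
theorem I2_slow {ι X : Type*} (k : ℕ) (T : ι → ℝ) (hT : ∀ i, 1 ≤ T i)
    (D : ℕ → ℝ) (hD : ∀ j, 0 ≤ D j) (Qj : ℕ → ℝ → X → ℝ) (Ql : ℕ → X → ℝ)
    (hQ0 : ∀ l c, 0 ≤ Ql l c) (hmono : ∀ l l' c, l ≤ l' → Ql l c ≤ Ql l' c)
    (hQ : ∀ j l : ℕ, l ≤ j → ∀ T' : ℝ, 1 ≤ T' → ∀ c, Qj j T' c ≤ Ql l c * T' ^ (j - l))
    (b : ℕ → ι → X → ℝ)
    (hb : ∀ j i c, b j i c ≤ D j * (T i) ^ (-((k + j : ℕ) : ℤ)) * Qj j (T i) c) :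
    ∃ jj : ι → ℕ, ∀ l : ℕ, ∃ K : ℝ, 0 ≤ K ∧ ∀ i c,
      b (jj i) i c ≤ K * (T i) ^ (1 - ((k + l : ℕ) : ℤ)) * Ql l c := by
  sorry

/-- I3: sums of Schwartz functions with summable seminorms. -/
theorem I3_tsum {ι : Type*} (g : ι → 𝓢(ℝ, ℂ))
    (hg : ∀ k n : ℕ, Summable (fun i => SchwartzMap.seminorm ℂ k n (g i))) :
    ∃ G : 𝓢(ℝ, ℂ), (∀ t, HasSum (fun i => g i t) (G t)) ∧
      ∀ k n : ℕ, SchwartzMap.seminorm ℂ k n G ≤ ∑' i, SchwartzMap.seminorm ℂ k n (g i) := by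
  sorry

/-- I4: abstract synthesis: a continuous left inverse from functionals with decay and atoms. -/
theorem I4_synthesis {x y : ℤ → ℝ} {A : 𝓢(ℝ, ℂ) →ₗ[ℂ] RapidSeq × RapidSeq}
    {ι : Type*} (T : ι → ℝ) (hT : ∀ i, 1 ≤ T i) (hTs : Summable (fun i => (T i) ^ (-(4 : ℤ))))
    (a : ι → (𝓢(ℝ, ℂ) →ₗ[ℂ] ℂ)) (g : ι → 𝓢(ℝ, ℂ)) (m : ι → (RapidSeq × RapidSeq →ₗ[ℂ] ℂ))
    (hg : ∀ k n : ℕ, ∃ (C : ℝ) (N : ℕ), 0 ≤ C ∧ ∀ i,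
        SchwartzMap.seminorm ℂ k n (g i) ≤ C * (T i) ^ N)
    (ha : ∀ (f : 𝓢(ℝ, ℂ)) (t : ℝ), Summable (fun i => a i f * g i t) →
        f t = ∑' i, a i f * g i t)
    (hm : ∀ i f, m i (A f) = a i f)
    (hmb : ∀ l : ℕ, ∃ (K : ℝ) (L : ℕ), 0 ≤ K ∧ ∀ i c,
      ‖m i c‖ ≤ K * (T i) ^ (-(l : ℤ)) *
        (RapidSeq.seminorm L (c : RapidSeq × RapidSeq).1 + RapidSeq.seminorm L c.2)) :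
    ∃ L : RapidSeq × RapidSeq →L[ℂ] 𝓢(ℝ, ℂ), ∀ f : 𝓢(ℝ, ℂ), L (A f) = f := by
  sorry

/-- J1: the main theorem. -/
theorem J1_main {p q : ℝ} (hp : 1 < p) (hq : 1 < q) (hpq : 1 / p + 1 / q = 1) {x y : ℤ → ℝ}
    (hx : Supercritical p x) (hy : Supercritical q y) (h : IsSFrame x y) :
    IsStrongSFrame x y := by
  sorry

end SF.Stm
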